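import Pool.Agent.Lib.P5f.Defs

/-!
# Assembling the blocks

GOAL: `asm_solve` : if every block of `T` is a value of the operator of the block then `T` is a value of the
polynomial.

PROOF (complete).  Let `W = ∀ a, V a`.  For a family `f : ∀ a, Module.End K (V a)` let
`bd f : Module.End K W` be the block diagonal map `x ↦ fun a => f a (x a)`, and for a family
`X : ∀ a b, V b →ₗ[K] V a` let `asm X : Module.End K W` be `x ↦ fun a => ∑ b, X a b (x b)`.  Then
`bd f * bd g = bd (f * g)`, `bd 1 = 1`, so `(l.map fun q => bd (fun a => B a q)).prod =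
bd (fun a => (l.map (B a)).prod)` for every list `l` (induction), and
`bd f * asm X * bd g = asm (fun a b => f a ∘ₗ X a b ∘ₗ g b)`; `asm` is additive and homogeneous, and
`asm (fun a b => proj a ∘ₗ T ∘ₗ single b) = T` (`x = ∑ b, Pi.single b (x b)`,
`Finset.univ_sum_single` or `LinearMap.sum_single_apply`).
Choose `X a b` by the hypothesis and take `A 0 = asm X` and `A q = bd (fun a => B a q)` for `q ≠ 0`.  By
`P5e96.ofFn_split` (`Pool/Agent/Lib/P5e96/Block.lean`) and `List.prod_append`, `List.prod_cons` the word `σ` has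
the value `((preL σ).map ..).prod * (asm X * ((postL σ).map ..).prod)`
`= asm (fun a b => ((preL σ).map (B a)).prod ∘ₗ X a b ∘ₗ ((postL σ).map (B b)).prod)`, and the sum over all
words with coefficients `α σ` is `asm (fun a b => Lop α (B a) (B b) (X a b)) = T`.
-/

open Finset Matrix

namespace Pool.Agent.P5f

open Pool.Agent.P5m Pool.Agent.P5q

namespace AsmAux

variable {K : Type*} [Field K] {ι : Type*} {V : ι → Type*} [∀ a, AddCommGroup (V a)]
  [∀ a, Module K (V a)]

/-- block diagonal maps -/
def bd (f : ∀ a, Module.End K (V a)) : Module.End K (∀ a, V a) :=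
  LinearMap.pi fun a => f a ∘ₗ LinearMap.proj a

/-- a map given by its blocks -/
def asm [Fintype ι] (X : ∀ a b, V b →ₗ[K] V a) : Module.End K (∀ a, V a) :=
  LinearMap.pi fun a => ∑ b, X a b ∘ₗ LinearMap.proj b

theorem bd_apply (f : ∀ a, Module.End K (V a)) (x : ∀ a, V a) (a : ι) : bd f x a = f a (x a) := rfl

theorem asm_apply [Fintype ι] (X : ∀ a b, V b →ₗ[K] V a) (x : ∀ a, V a) (a : ι) :
    asm X x a = ∑ b, X a b (x b) := by
  change (∑ b, X a b ∘ₗ LinearMap.proj b : (∀ a, V a) →ₗ[K] V a) x = _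
  rw [LinearMap.sum_apply]
  rfl

theorem bd_prod (B : ∀ a, ℕ → Module.End K (V a)) (l : List ℕ) :
    (l.map fun q => bd fun a => B a q).prod = bd fun a => (l.map (B a)).prod := by
  induction l with
  | nil =>
    refine LinearMap.ext fun x => ?_
    funext a
    rw [bd_apply]
    rfl
  | cons q l ih =>
    refine LinearMap.ext fun x => ?_
    funext a
    rw [List.map_cons, List.prod_cons, ih, Module.End.mul_apply, bd_apply, bd_apply, bd_apply,
      List.map_cons, List.prod_cons, Module.End.mul_apply]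

end AsmAux

open AsmAux

theorem asm_solve {r : ℕ} {K : Type*} [Field K] {ι : Type*} [Fintype ι] [DecidableEq ι]
    (V : ι → Type*) [∀ a, AddCommGroup (V a)] [∀ a, Module K (V a)]
    (α : Equiv.Perm (Fin (r + 1)) → K) (B : ∀ a, ℕ → Module.End K (V a))
    (T : (∀ a, V a) →ₗ[K] (∀ a, V a))
    (h : ∀ a b, ∃ X : V b →ₗ[K] V a,
      Lop α (B a) (B b) X = LinearMap.proj a ∘ₗ T ∘ₗ LinearMap.single K V b) :
    ∃ A : Fin (r + 1) → Module.End K (∀ a, V a), lval α A = T := by
  choose X hX using h
  refine ⟨fun q => if q = 0 then asm X else bd fun a => B a q, ?_⟩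
  refine LinearMap.ext fun x => ?_
  funext a
  have h1 : ∀ σ : Equiv.Perm (Fin (r + 1)), (List.ofFn fun i =>
      (fun q : Fin (r + 1) => if q = 0 then asm X else bd fun a => B a q) (σ i)).prod x a =
      ∑ b, (((P5e96.preL σ).map (B a)).prod ∘ₗ X a b ∘ₗ ((P5e96.postL σ).map (B b)).prod) (x b) := by
    intro σ
    rw [P5e96.ofFn_split σ (asm X) (fun q => bd fun a => B a q)
      (fun q : Fin (r + 1) => if q = 0 then asm X else bd fun a => B a q) (if_pos rfl)
      (fun q hq => if_neg hq), List.prod_append, List.prod_cons, bd_prod, bd_prod,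
      Module.End.mul_apply, Module.End.mul_apply, bd_apply, asm_apply, map_sum]
    rfl
  have h2 : lval α (fun q : Fin (r + 1) => if q = 0 then asm X else bd fun a => B a q) x a =
      ∑ σ : Equiv.Perm (Fin (r + 1)), α σ • ∑ b, (((P5e96.preL σ).map (B a)).prod ∘ₗ X a b ∘ₗ
        ((P5e96.postL σ).map (B b)).prod) (x b) := by
    rw [lval, LinearMap.sum_apply, Finset.sum_apply]
    refine Finset.sum_congr rfl fun σ _ => ?_
    rw [LinearMap.smul_apply, Pi.smul_apply, h1]
  have h3 : ∀ b, ∑ σ : Equiv.Perm (Fin (r + 1)), α σ • (((P5e96.preL σ).map (B a)).prod ∘ₗ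
      X a b ∘ₗ ((P5e96.postL σ).map (B b)).prod) (x b) = T (Pi.single b (x b)) a := by
    intro b
    have h4 := LinearMap.congr_fun (hX a b) (x b)
    rw [Lop, LinearMap.sum_apply] at h4
    exact h4
  rw [h2]
  simp_rw [Finset.smul_sum]
  rw [Finset.sum_comm]
  simp_rw [h3]
  rw [← Finset.sum_apply, ← map_sum, Finset.univ_sum_single]

end Pool.Agent.P5f
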