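import Mathlib

/-!
# Avoiding bad choices

GOAL: `avoid` : a choice of elements `S a` such that no bad event occurs, if for every `a` and every choice of
the other elements there are few bad values of `S a`.

PROOF (complete).  Let `Ω = ∀ a, F a`, a finite set (nonempty because every `F a` is nonempty:
`0 ≤ k * B a < card (F a)`), and `Z a = {S : Ω | bad a S}`.
CLAIM: `(Z a).card * card (F a) ≤ B a * card Ω`.  Count the pairs: the map
`Ω × F a → Ω × F a`, `(S, x) ↦ (Function.update S a x, S a)` is a bijection (its own inverse).  It maps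
`{(S, x) | bad a (update S a x)}` onto `{(S', y) | bad a S'}` = `Z a × F a`.  The first set has at most
`card Ω * B a` elements by `h` (fibre over `S`).
Hence, with `k = card ι`: `k * (Z a).card * card (F a) ≤ k * B a * card Ω < card (F a) * card Ω`, so
`k * (Z a).card < card Ω` for every `a` (`F a` nonempty).  Summing over `a` (if `ι` is empty there is nothing
to prove: take the empty choice): `k * ∑ a, (Z a).card < k * card Ω`, so `∑ a, (Z a).card < card Ω`, and the
union of the `Z a` is not everything.
-/

open Finset

namespace Pool.Agent.P5f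

private theorem avoid_count {ι : Type*} [Fintype ι] [DecidableEq ι] (F : ι → Type*)
    [∀ a, Fintype (F a)] (a : ι) (bad : (∀ a, F a) → Prop) [DecidablePred bad] (B : ℕ)
    (hne : Nonempty (F a))
    (h : ∀ S : ∀ a, F a, (univ.filter fun x : F a => bad (Function.update S a x)).card ≤ B) :
    (univ.filter bad).card * Fintype.card (F a) ≤ B * Fintype.card (∀ a, F a) := by
  obtain ⟨x0⟩ := hne
  let e := Equiv.piSplitAt a F
  have h1 : (univ.filter bad).card =
      ∑ T : (∀ j : {j // j ≠ a}, F j), (univ.filter fun x : F a => bad (e.symm (x, T))).card := by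
    rw [Finset.card_filter]
    rw [← Equiv.sum_comp e.symm, Fintype.sum_prod_type_right]
    refine Finset.sum_congr rfl fun T _ => ?_
    rw [Finset.card_filter]
  have h2 : ∀ T : (∀ j : {j // j ≠ a}, F j),
      (univ.filter fun x : F a => bad (e.symm (x, T))).card ≤ B := by
    intro T
    refine le_trans (le_of_eq ?_) (h (e.symm (x0, T)))
    congr 1
    apply Finset.filter_congr
    intro x _
    have h3 : e.symm (x, T) = Function.update (e.symm (x0, T)) a x := by
      funext j
      by_cases hj : j = a
      · subst hj
        simp [e, Equiv.piSplitAt]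
      · rw [Function.update_of_ne hj]
        simp [e, Equiv.piSplitAt, hj]
    rw [h3]
  have h4 : Fintype.card (∀ a, F a) =
      Fintype.card (F a) * Fintype.card (∀ j : {j // j ≠ a}, F j) := by
    rw [Fintype.card_congr e, Fintype.card_prod]
  have h5 : (univ.filter bad).card ≤ Fintype.card (∀ j : {j // j ≠ a}, F j) * B := by
    rw [h1]
    refine (Finset.sum_le_sum fun T _ => h2 T).trans ?_
    rw [Finset.sum_const, Finset.card_univ, smul_eq_mul]
  rw [h4]
  calc (univ.filter bad).card * Fintype.card (F a)
      ≤ Fintype.card (∀ j : {j // j ≠ a}, F j) * B * Fintype.card (F a) :=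
        Nat.mul_le_mul_right _ h5
    _ = _ := by ring

theorem avoid {ι : Type*} [Fintype ι] [DecidableEq ι] (F : ι → Type*) [∀ a, Finite (F a)]
    (bad : ι → (∀ a, F a) → Prop) (B : ι → ℕ)
    (h : ∀ a (S : ∀ a, F a), {x : F a | bad a (Function.update S a x)}.ncard ≤ B a)
    (hB : ∀ a, Fintype.card ι * B a < Nat.card (F a)) :
    ∃ S : ∀ a, F a, ∀ a, ¬ bad a S := by
  classical
  haveI : ∀ a, Fintype (F a) := fun a => Fintype.ofFinite (F a)
  have hne : ∀ a, Nonempty (F a) := by
    intro a
    have h1 : 0 < Nat.card (F a) := lt_of_le_of_lt (Nat.zero_le _) (hB a)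
    exact (Nat.card_pos_iff.1 h1).1
  have hcard : ∀ a, Nat.card (F a) = Fintype.card (F a) := fun a => Nat.card_eq_fintype_card
  set N := Fintype.card (∀ a, F a) with hN
  have hNpos : 0 < N := by
    haveI : Nonempty (∀ a, F a) := ⟨fun a => (hne a).some⟩
    exact Fintype.card_pos
  set Z : ι → Finset (∀ a, F a) := fun a => univ.filter (bad a) with hZ
  have h1 : ∀ a, (Z a).card * Fintype.card (F a) ≤ B a * N := by
    intro a
    refine avoid_count F a (bad a) (B a) (hne a) fun S => ?_
    have h2 := h a S
    rw [Set.ncard_eq_toFinset_card'] at h2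
    refine le_trans (le_of_eq ?_) h2
    congr 1
    ext x
    simp
  by_contra hcon
  push Not at hcon
  -- every choice is bad for some index
  have h2 : N ≤ ∑ a, (Z a).card := by
    have h3 : (univ : Finset (∀ a, F a)) ⊆ univ.biUnion Z := by
      intro S _
      obtain ⟨a, ha⟩ := hcon S
      exact Finset.mem_biUnion.2 ⟨a, Finset.mem_univ a, Finset.mem_filter.2 ⟨Finset.mem_univ S, ha⟩⟩
    calc N = (univ : Finset (∀ a, F a)).card := by rw [Finset.card_univ]
      _ ≤ (univ.biUnion Z).card := Finset.card_le_card h3
      _ ≤ ∑ a, (Z a).card := Finset.card_biUnion_le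
  have h3 : ∀ a, Fintype.card ι * (Z a).card < N := by
    intro a
    have h4 : Fintype.card ι * (Z a).card * Fintype.card (F a) < N * Fintype.card (F a) := by
      calc Fintype.card ι * (Z a).card * Fintype.card (F a)
          = Fintype.card ι * ((Z a).card * Fintype.card (F a)) := by ring
        _ ≤ Fintype.card ι * (B a * N) := Nat.mul_le_mul_left _ (h1 a)
        _ = (Fintype.card ι * B a) * N := by ring
        _ < Fintype.card (F a) * N := by
            apply Nat.mul_lt_mul_of_pos_right _ hNpos
            rw [← hcard a]
            exact hB a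
        _ = N * Fintype.card (F a) := by ring
    exact lt_of_mul_lt_mul_right h4 (Nat.zero_le _)
  rcases isEmpty_or_nonempty ι with hι | hι
  · have h4 : ∑ a, (Z a).card = 0 := by simp
    omega
  · have h5 : ∑ a, Fintype.card ι * (Z a).card < ∑ _a : ι, N :=
      Finset.sum_lt_sum_of_nonempty Finset.univ_nonempty fun a _ => h3 a
    rw [← Finset.mul_sum, Finset.sum_const, Finset.card_univ, smul_eq_mul] at h5
    have h6 := lt_of_mul_lt_mul_left h5 (Nat.zero_le _)
    omega

end Pool.Agent.P5f
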