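import Pool.Agent.Lib.P5f.Defs

/-!
# A pencil of operators is invertible except at few points

GOAL: `card_bad`.

PROOF (complete; compare `finite_bad` in `Pool/Agent/Lib/P5e96/Block.lean`, whose proof can be copied and
extended).  Let `b` be a basis of `H` and let `P` be the matrix over `F[X]` with
`P = ∑ i, X ^ e i • (LinearMap.toMatrix b b (N i)).map C`.  Then `P.det` evaluated at `z` is
`LinearMap.det (∑ i, z ^ e i • N i)`, which is not zero at `z = 0` (an injective endomorphism of a finite
dimensional space), so `P.det ≠ 0`.  All entries of `P` have degree at most `r`, so `P.det` has degree at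
most `r * finrank F H` (expand the determinant as a sum over permutations of products of entries:
`Polynomial.natDegree_sum_le_of_forall_le`, `Polynomial.natDegree_prod_le`,
`Polynomial.natDegree_mul_le`...; for `det` of a matrix of polynomials see also
`Matrix.det_apply`).  If the operator at `z` is not surjective its determinant vanishes, so `z` is a root of
`P.det`; the set of roots is finite and has at most `natDegree` elements (`Polynomial.card_roots'`,
`Multiset.toFinset_card_le`).
-/

open Finset Matrix

namespace Pool.Agent.P5f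

theorem card_bad {F : Type*} [Field F] {H : Type*} [AddCommGroup H] [Module F H]
    [FiniteDimensional F H] {κ : Type*} [Fintype κ] (N : κ → H →ₗ[F] H) (e : κ → ℕ) (r : ℕ)
    (he : ∀ i, e i ≤ r) (h0 : Function.Injective (∑ i, (0 : F) ^ e i • N i : H →ₗ[F] H)) :
    {z : F | ¬ Function.Surjective (∑ i, z ^ e i • N i : H →ₗ[F] H)}.Finite ∧
    {z : F | ¬ Function.Surjective (∑ i, z ^ e i • N i : H →ₗ[F] H)}.ncard ≤
      r * Module.finrank F H := by
  classical
  set b := Module.finBasis F H with hb
  set P : Matrix (Fin (Module.finrank F H)) (Fin (Module.finrank F H)) (Polynomial F) :=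
    ∑ i, (Polynomial.X ^ e i : Polynomial F) • (LinearMap.toMatrix b b (N i)).map Polynomial.C
    with hP
  have hev : ∀ z : F, Polynomial.eval z P.det =
      LinearMap.det (∑ i, z ^ e i • N i : H →ₗ[F] H) := by
    intro z
    rw [← LinearMap.det_toMatrix b, ← Polynomial.coe_evalRingHom, RingHom.map_det]
    congr 1
    ext i j
    rw [hP]
    simp only [map_sum, map_smul, Matrix.sum_apply, RingHom.mapMatrix_apply, Matrix.map_apply,
      Matrix.smul_apply, smul_eq_mul, Polynomial.coe_evalRingHom, Polynomial.eval_mul,
      Polynomial.eval_pow, Polynomial.eval_X, Polynomial.eval_C]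
  have hne : P.det ≠ 0 := by
    intro h
    have h1 := hev 0
    rw [h, Polynomial.eval_zero] at h1
    have h2 : IsUnit (LinearMap.det (∑ i, (0 : F) ^ e i • N i : H →ₗ[F] H)) := by
      rw [← LinearMap.isUnit_iff_isUnit_det, LinearMap.isUnit_iff_ker_eq_bot]
      exact LinearMap.ker_eq_bot.2 h0
    exact h2.ne_zero h1.symm
  have hent : ∀ i j, (P i j).natDegree ≤ r := by
    intro i j
    rw [hP, Matrix.sum_apply]
    refine Polynomial.natDegree_sum_le_of_forall_le _ _ fun k _ => ?_
    rw [Matrix.smul_apply, Matrix.map_apply, smul_eq_mul]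
    refine Polynomial.natDegree_mul_le.trans ?_
    rw [Polynomial.natDegree_C, add_zero]
    exact (Polynomial.natDegree_X_pow_le (e k)).trans (he k)
  have hdeg : P.det.natDegree ≤ r * Module.finrank F H := by
    rw [Matrix.det_apply']
    refine Polynomial.natDegree_sum_le_of_forall_le _ _ fun σ _ => ?_
    refine Polynomial.natDegree_mul_le.trans ?_
    rw [Polynomial.natDegree_intCast, zero_add]
    refine (Polynomial.natDegree_prod_le _ _).trans ?_
    calc ∑ i, (P (σ i) i).natDegree ≤ ∑ _i : Fin (Module.finrank F H), r :=
          Finset.sum_le_sum fun i _ => hent _ _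
      _ = r * Module.finrank F H := by
          rw [Finset.sum_const, Finset.card_univ, Fintype.card_fin, smul_eq_mul, mul_comm]
  have hsub : {z : F | ¬ Function.Surjective (∑ i, z ^ e i • N i : H →ₗ[F] H)} ⊆
      (P.det.roots.toFinset : Set F) := by
    intro z hz
    rw [Set.mem_ofPred_eq] at hz
    rw [Finset.mem_coe, Multiset.mem_toFinset, Polynomial.mem_roots hne, Polynomial.IsRoot.def,
      hev z]
    by_contra hcon
    apply hz
    have h2 : IsUnit (LinearMap.det (∑ i, z ^ e i • N i : H →ₗ[F] H)) := isUnit_iff_ne_zero.2 hcon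
    rw [← LinearMap.isUnit_iff_isUnit_det, LinearMap.isUnit_iff_range_eq_top] at h2
    exact LinearMap.range_eq_top.1 h2
  refine ⟨(Finset.finite_toSet _).subset hsub, ?_⟩
  calc _ ≤ (P.det.roots.toFinset : Set F).ncard := Set.ncard_le_ncard hsub (Finset.finite_toSet _)
    _ = P.det.roots.toFinset.card := Set.ncard_coe_finset _
    _ ≤ P.det.roots.card := Multiset.toFinset_card_le _
    _ ≤ P.det.natDegree := Polynomial.card_roots' _
    _ ≤ _ := hdeg

end Pool.Agent.P5f
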