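import Pool.Agent.Lib.P5q.Trans

/-!
# Limits of large fields

GOAL: `prod_field` : for fields `Kf N` with at least `N` elements there is an infinite field `F` and a surjective
ring homomorphism from the product of all `Kf N` to `F`, such that finitely many elements of the kernel
vanish simultaneously at some index.

PROOF (complete).  Let `R = ∀ N, Kf N` and let `finI Kf` be the ideal of the elements that vanish from some
index on (`Pool/Agent/Lib/P5q/Trans.lean`); it is proper, so it lies in a maximal ideal `M`
(`Ideal.exists_le_maximal`).  `F = R ⧸ M`, `π` the quotient map; surjective, with kernel `M`.  (See the proof of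
`prod_hom` in the same file.)
(1) Common zeros: let `s` be a finite subset of `M`.  Suppose that for every `N` there is `x ∈ s` with
`x N ≠ 0`.  For `x ∈ s` let `e x : R`, `e x N = if x N = 0 then 0 else 1`; `e x = x * y` with
`y N = (x N)⁻¹`, so `e x ∈ M`.  The element `1 - ∏ x ∈ s, (1 - e x)` is in `M` (modulo `M` it is
`1 - 1 = 0`), and it is equal to `1`, because at every `N` some factor `1 - e x` vanishes.  So `1 ∈ M`, a
contradiction.
(2) `F` is infinite: it suffices to find for every `k` an injection `Fin k → F`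
(`Infinite.of_injective_to..` or: a finite field `F` with `c` elements contradicts an injective map
`Fin (c + 1) → F`).  For `N ≥ k` choose `k` distinct elements `y N 0, ..., y N (k - 1)` of `Kf N` (by `hcard`);
for `N < k` choose anything.  Let `z i = fun N => y N i`.  For `i ≠ j` the element `z i - z j` is nonzero at
all `N ≥ k`, so it is not in `M` : otherwise `(z i - z j) * w ∈ M` with `w N = (y N i - y N j)⁻¹`, which is
`1` for `N ≥ k`, so it differs from `1` by an element of `finI Kf ≤ M` and `1 ∈ M`.  So the `π (z i)` are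
distinct.
-/

open Finset

namespace Pool.Agent.P5f

open Pool.Agent.P5q

universe u

theorem prod_field (Kf : ℕ → Type u) [∀ N, Field (Kf N)]
    (hcard : ∀ N, Infinite (Kf N) ∨ N ≤ Nat.card (Kf N)) :
    ∃ (F : Type u) (_ : Field F) (_ : Infinite F) (π : (∀ N, Kf N) →+* F),
      Function.Surjective π ∧
      ∀ s : Finset (∀ N, Kf N), (∀ x ∈ s, π x = 0) → ∃ N, ∀ x ∈ s, x N = 0 := by
  classical
  have hI : finI Kf ≠ ⊤ := by
    rw [Ne, Ideal.eq_top_iff_one, mem_finI]
    rintro ⟨B, hB⟩
    exact one_ne_zero (hB B le_rfl)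
  obtain ⟨M, hM, hIM⟩ := Ideal.exists_le_maximal _ hI
  have h1M : (1 : ∀ N, Kf N) ∉ M := fun h => hM.ne_top ((Ideal.eq_top_iff_one M).2 h)
  letI := Ideal.Quotient.field M
  have hinf : Infinite ((∀ N, Kf N) ⧸ M) := by
    by_contra hfin
    rw [not_infinite_iff_finite] at hfin
    haveI : Fintype ((∀ N, Kf N) ⧸ M) := Fintype.ofFinite _
    set k := Fintype.card ((∀ N, Kf N) ⧸ M) + 1 with hk
    have hy : ∀ N, ∃ y : Fin k → Kf N, k ≤ N → Function.Injective y := by
      intro N
      by_cases hN : k ≤ N
      · rcases hcard N with h | h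
        · exact ⟨fun i => Infinite.natEmbedding (Kf N) i, fun _ i j hij =>
            Fin.ext ((Infinite.natEmbedding (Kf N)).injective hij)⟩
        · have h0 : Nat.card (Kf N) ≠ 0 := by omega
          haveI : Finite (Kf N) := Nat.finite_of_card_ne_zero h0
          haveI : Fintype (Kf N) := Fintype.ofFinite _
          rw [Nat.card_eq_fintype_card] at h
          have h2 : Fintype.card (Fin k) ≤ Fintype.card (Kf N) := by
            rw [Fintype.card_fin]; omega
          obtain ⟨f⟩ := Function.Embedding.nonempty_of_card_le h2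
          exact ⟨f, fun _ => f.injective⟩
      · exact ⟨fun _ => 0, fun h => absurd h hN⟩
    choose y hy using hy
    let z : Fin k → ∀ N, Kf N := fun i N => y N i
    have hinj : Function.Injective (fun i => Ideal.Quotient.mk M (z i)) := by
      intro i j hij
      by_contra hne
      have h2 : z i - z j ∈ M := (Ideal.Quotient.eq).1 hij
      let w : ∀ N, Kf N := fun N => (y N i - y N j)⁻¹
      have h3 : (z i - z j) * w - 1 ∈ finI Kf := by
        refine ⟨k, fun N hN => ?_⟩
        have h4 : y N i - y N j ≠ 0 := sub_ne_zero.2 fun h => hne (hy N hN h)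
        rw [Pi.sub_apply, Pi.mul_apply, Pi.sub_apply, Pi.one_apply]
        exact sub_eq_zero.2 (mul_inv_cancel₀ h4)
      apply h1M
      have h5 := M.sub_mem (M.mul_mem_right w h2) (hIM h3)
      rwa [sub_sub_cancel] at h5
    have h6 := Fintype.card_le_of_injective _ hinj
    rw [Fintype.card_fin] at h6
    omega
  refine ⟨(∀ N, Kf N) ⧸ M, Ideal.Quotient.field M, hinf, Ideal.Quotient.mk M,
    Ideal.Quotient.mk_surjective, ?_⟩
  intro s hs
  by_contra hcon
  push Not at hcon
  have hs' : ∀ x ∈ s, x ∈ M := fun x hx => Ideal.Quotient.eq_zero_iff_mem.1 (hs x hx)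
  let e : (∀ N, Kf N) → ∀ N, Kf N := fun x N => if x N = 0 then 0 else 1
  have he : ∀ x ∈ s, e x ∈ M := by
    intro x hx
    have h2 : e x = x * (fun N => (x N)⁻¹) := by
      funext N
      change (if x N = 0 then 0 else 1) = x N * (x N)⁻¹
      by_cases h : x N = 0
      · rw [if_pos h, h, zero_mul]
      · rw [if_neg h, mul_inv_cancel₀ h]
    rw [h2]
    exact M.mul_mem_right _ (hs' x hx)
  have hp : (1 : ∀ N, Kf N) - ∏ x ∈ s, (1 - e x) ∈ M := by
    rw [← Ideal.Quotient.eq_zero_iff_mem, map_sub, map_one, map_prod,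
      Finset.prod_congr rfl (g := fun _ => (1 : (∀ N, Kf N) ⧸ M)), Finset.prod_const_one, sub_self]
    intro x hx
    rw [map_sub, map_one, Ideal.Quotient.eq_zero_iff_mem.2 (he x hx), sub_zero]
  have hp2 : ∏ x ∈ s, (1 - e x) = 0 := by
    funext N
    obtain ⟨x, hx, hxN⟩ := hcon N
    rw [Finset.prod_apply, Pi.zero_apply]
    refine Finset.prod_eq_zero hx ?_
    rw [Pi.sub_apply, Pi.one_apply]
    change 1 - (if x N = 0 then 0 else 1) = 0
    rw [if_neg hxN, sub_self]
  rw [hp2, sub_zero] at hp
  exact h1M hp

end Pool.Agent.P5f
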