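import Pool.Agent.Lib.P5f.Defs

/-!
# Decompositions over infinite fields
-/

open Finset Matrix

namespace Pool.Agent.P5f

open Pool.Agent.P5m Pool.Agent.P5q

universe u

variable {r : ℕ}

theorem decM_of_dec {F : Type u} [Field F] (α : Equiv.Perm (Fin (r + 1)) → F) {n : ℕ}
    (T : Matrix (Fin n) (Fin n) F) (h : Dec α (Matrix.toLin' T)) : DecM α T := by
  classical
  obtain ⟨k, s, D, b, hD, hb⟩ := h
  set κ := {a : Fin k // s a ≠ 0} with hκ
  set f : (Σ a : κ, Fin (s a)) ≃ (Σ a, Fin (s a)) :=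
    { toFun := fun p => ⟨p.1.1, p.2⟩
      invFun := fun p => ⟨⟨p.1, (Nat.zero_lt_of_lt p.2.2).ne'⟩, p.2⟩
      left_inv := fun p => rfl
      right_inv := fun p => rfl } with hf
  have hcard : Fintype.card (Σ a, Fin (s a)) = n := by
    have h1 := Module.finrank_eq_card_basis b
    rw [Module.finrank_fin_fun] at h1
    exact h1.symm
  set g : (Σ a, Fin (s a)) ≃ Fin n := Fintype.equivFinOfCardEq hcard with hg
  set b' := b.reindex g with hb'
  set c := Pi.basisFun F (Fin n) with hc
  have key : b'.toMatrix c * T * c.toMatrix b' = LinearMap.toMatrix b' b' (Matrix.toLin' T) := by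
    have h1 : LinearMap.toMatrix c c (Matrix.toLin' T) = T := by
      rw [hc, LinearMap.toMatrix_eq_toMatrix', LinearMap.toMatrix'_toLin']
    have h2 := basis_toMatrix_mul_linearMap_toMatrix_mul_basis_toMatrix b' c b' c
      (Matrix.toLin' T)
    rw [h1] at h2
    exact h2
  refine ⟨κ, inferInstance, fun a => s a, f.trans g, c.toMatrix b', b'.toMatrix c,
    fun a => D a, fun a => Nat.one_le_iff_ne_zero.2 a.2, ?_, fun a => hD a, ?_⟩
  · exact Module.Basis.toMatrix_mul_toMatrix_flip b' c
  · intro a i j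
    rw [key, LinearMap.toMatrix_apply]
    have e1 : ∀ i, b' ((f.trans g) ⟨a, i⟩) = b ⟨a.1, i⟩ := by
      intro i
      rw [hb', Module.Basis.reindex_apply, Equiv.trans_apply, Equiv.symm_apply_apply]
      rfl
    rw [e1, hb', Module.Basis.repr_reindex_apply, Equiv.trans_apply, Equiv.symm_apply_apply]
    exact hb a.1 i j

theorem decM_zero {F : Type u} [Field F] (α : Equiv.Perm (Fin (r + 1)) → F) {l l' n : ℕ}
    (hl : 1 ≤ l) (hl' : 1 ≤ l') (h : Att α l fun _ => 0) (h' : Att α l' fun _ => 0) (x y : ℕ)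
    (hn : n = x * l + y * l') : DecM α (0 : Matrix (Fin n) (Fin n) F) := by
  classical
  have hcard : Fintype.card (Σ a : Fin x ⊕ Fin y, Fin (Sum.elim (fun _ => l) (fun _ => l') a)) =
      n := by
    rw [Fintype.card_sigma, sum_congr rfl fun a _ => Fintype.card_fin _, Fintype.sum_sum_type, hn]
    simp only [Sum.elim_inl, Sum.elim_inr, sum_const, card_univ, Fintype.card_fin, smul_eq_mul]
  refine ⟨Fin x ⊕ Fin y, inferInstance, Sum.elim (fun _ => l) (fun _ => l'),
    Fintype.equivFinOfCardEq hcard, 1, 1, fun a _ => 0, ?_, by rw [one_mul], ?_, ?_⟩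
  · rintro (a | a)
    · exact hl
    · exact hl'
  · rintro (a | a)
    · exact h
    · exact h'
  · intro a i j
    rw [mul_zero, zero_mul]
    simp

theorem dec_inf (r : ℕ) (hr : 1 ≤ r) : ∃ N : ℕ, ∀ n ≥ N, ∀ (F : Type u) [Field F] [Infinite F]
    (α : Equiv.Perm (Fin (r + 1)) → F), α 1 ≠ 0 → ∀ T : Matrix (Fin n) (Fin n) F,
      (T = 0 ∨ ((∀ μ : F, T ≠ μ • 1) ∧ (T.trace = 0 ∨ ¬ Cs α))) → DecM α T := by
  obtain ⟨M, hM⟩ := two_blocks.{u} r
  refine ⟨5 * M + 2 * (M * M + M) + 2, fun n hn F _ _ α hα1 T hT => ?_⟩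
  have hlast : Fin.last r ≠ 0 := by
    intro h
    have := congrArg Fin.val h
    simp at this
    omega
  obtain ⟨l, l', hll, hlM, h5, hcop, hodd, hodd', ⟨i1, a, b, hb⟩, i2, a', b', hb'⟩ := hM F α hα1
  have h1 : l * l' ≤ M * M := Nat.mul_le_mul hlM (by omega)
  have hnl : ∀ {T : Matrix (Fin n) (Fin n) F}, (∀ μ : F, T ≠ μ • 1) →
      ∀ μ : F, Matrix.toLin' T ≠ μ • LinearMap.id := by
    intro T hT μ h
    refine hT μ (Matrix.toLin'.injective ?_)
    rw [h, map_smul, Matrix.toLin'_one]
  rcases hT with rfl | ⟨hTs, hT⟩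
  · obtain ⟨x, y, hy, hxy⟩ := frob l l' n hcop (by omega) (by omega) (by omega)
    obtain ⟨u, -, hu⟩ := att_one2 α hα1 a b hb.hy
    obtain ⟨u', -, hu'⟩ := att_one2 α hα1 a' b' hb'.hy
    exact decM_zero α (by omega) (by omega) (hu _ (by simp)) (hu' _ (by simp)) x y hxy
  · by_cases hcs : Cs α
    · have hT0 : T.trace = 0 := hT.resolve_right (fun h => h hcs)
      obtain ⟨x, y, hy, hxy⟩ := frob l l' (n - 2 * l) hcop (by omega) (by omega) (by omega)
      have hn' : n = 2 * l + (x * l + y * l') := by omega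
      have ha : ∀ D : Fin l → F, ∑ i, D i = 0 → Att α l D := fun D hD =>
        att_trace2 α hα1 a b hb.hy (fun A => trace_of_cs2 α hcs A) D hD
      have ha' : ∀ D : Fin l' → F, ∑ i, D i = 0 → Att α l' D := fun D hD =>
        att_trace2 α hα1 a' b' hb'.hy (fun A => trace_of_cs2 α hcs A) D hD
      have h2 := tDec_all α l l' h5 hll hodd ha ha' x y hy
      rw [← hn'] at h2
      exact decM_of_dec α T (h2 (Fin n → F) (by simp) (Matrix.toLin' T) (hnl hTs) (by
        rw [Matrix.trace_toLin'_eq]; exact hT0))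
    · have key : NDec α n := by
        have hodd2 : l % 2 = 1 := Nat.odd_iff.1 hodd
        rcases Nat.even_or_odd' n with ⟨k, hk | hk⟩
        · obtain ⟨x, y, hy, hxy⟩ := frob l l' (k - 2 * l) hcop (by omega) (by omega) (by omega)
          have h2 := (nDec_all2 α l l' (by omega) hll
            (att_two2 α hα1 a b hb.hy (hb.hn hcs) hlast)
            (att_two2 α hα1 a' b' hb'.hy (hb'.hn hcs) hlast) (att_one2 α hα1 a b hb.hy) x y hy).1
          have h3 : n = 2 * (2 * l) + (x * (2 * l) + y * (2 * l')) := by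
            have : x * (2 * l) + y * (2 * l') = 2 * (x * l + y * l') := by ring
            omega
          rw [h3]
          exact h2
        · obtain ⟨x, y, hy, hxy⟩ := frob l l' ((n - l) / 2 - 2 * l) hcop (by omega) (by omega)
            (by omega)
          have h2 := (nDec_all2 α l l' (by omega) hll
            (att_two2 α hα1 a b hb.hy (hb.hn hcs) hlast)
            (att_two2 α hα1 a' b' hb'.hy (hb'.hn hcs) hlast) (att_one2 α hα1 a b hb.hy) x y hy).2
          have h3 : n = 2 * (2 * l) + (x * (2 * l) + y * (2 * l')) + l := by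
            have : x * (2 * l) + y * (2 * l') = 2 * (x * l + y * l') := by ring
            omega
          rw [h3]
          exact h2
      exact decM_of_dec α T (key (Fin n → F) (by simp) (Matrix.toLin' T) (hnl hTs))

end Pool.Agent.P5f
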