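import Pool.Agent.Lib.P5q.Final2

/-!
# Finite fields: definitions

`K` is the (finite) base field, `E` a finite extension field.
-/

open Finset Matrix

namespace Pool.Agent.P5f

open Pool.Agent.P5m Pool.Agent.P5q

universe u v w

/-- A finite extension field (bundled). -/
structure FE (K : Type u) [Field K] where
  /-- the carrier -/
  E : Type
  /-- the field structure -/
  fld : Field E
  /-- the algebra structure -/
  alg : Algebra K E
  /-- finite degree -/
  fin : FiniteDimensional K E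

attribute [instance] FE.fld FE.alg FE.fin

/-- The coefficients in an extension. -/
def ext {r : ℕ} {K : Type u} [Field K] (E : Type v) [Field E] [Algebra K E]
    (α : Equiv.Perm (Fin (r + 1)) → K) : Equiv.Perm (Fin (r + 1)) → E :=
  fun σ => algebraMap K E (α σ)

/-- Multiplication by a matrix over `E`, as a `K`-linear map. -/
def mv (K : Type u) [Field K] {E : Type v} [Field E] [Algebra K E] {m m' : ℕ}
    (M : Matrix (Fin m) (Fin m') E) : (Fin m' → E) →ₗ[K] (Fin m → E) :=
  (Matrix.mulVecLin M).restrictScalars K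

/-- The semilinear map `x ↦ M *ᵥ (g ∘ x)`. -/
def twl {K : Type u} [Field K] {E : Type v} [Field E] [Algebra K E] {m m' : ℕ}
    (g : E ≃ₐ[K] E) (M : Matrix (Fin m) (Fin m') E) : (Fin m' → E) →ₗ[K] (Fin m → E) :=
  mv K M ∘ₗ (g.toLinearMap.compLeft (Fin m'))

/-- `M` is the linear component of `R`. -/
def Ep {K : Type u} [Field K] {E : Type v} [Field E] [Algebra K E] [FiniteDimensional K E] {m : ℕ}
    (R : (Fin m → E) →ₗ[K] (Fin m → E)) (M : Matrix (Fin m) (Fin m) E) : Prop :=
  ∃ N : (E ≃ₐ[K] E) → Matrix (Fin m) (Fin m) E, N 1 = M ∧ R = ∑ g, twl g (N g)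

/-- The linear operator in the variable `0` when the other variables act on the left by `B` and on
the right by `B'`. -/
def Lop {r : ℕ} {K : Type u} [Field K] {V : Type v} {V' : Type w} [AddCommGroup V] [Module K V]
    [AddCommGroup V'] [Module K V'] (α : Equiv.Perm (Fin (r + 1)) → K) (B : ℕ → Module.End K V)
    (B' : ℕ → Module.End K V') (X : V' →ₗ[K] V) : V' →ₗ[K] V :=
  ∑ σ : Equiv.Perm (Fin (r + 1)),
    α σ • (((P5e96.preL σ).map B).prod ∘ₗ X ∘ₗ ((P5e96.postL σ).map B').prod)

/-- The value of the multilinear polynomial at linear maps. -/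
def lval {r : ℕ} {K : Type u} [Field K] {V : Type v} [AddCommGroup V] [Module K V]
    (α : Equiv.Perm (Fin (r + 1)) → K) (A : Fin (r + 1) → Module.End K V) : Module.End K V :=
  ∑ σ : Equiv.Perm (Fin (r + 1)), α σ • (List.ofFn fun i => A (σ i)).prod

/-- A decomposition of a `K`-linear endomorphism into blocks over extension fields of degree at
least `Q`, with at most `M` coordinates each. -/
def FDec {r : ℕ} {K : Type u} [Field K] {V : Type v} [AddCommGroup V] [Module K V]
    (α : Equiv.Perm (Fin (r + 1)) → K) (T : V →ₗ[K] V) (Q M : ℕ) : Prop :=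
  ∃ (ι : Type) (_ : Fintype ι) (_ : DecidableEq ι) (E : ι → FE K) (m : ι → ℕ)
    (e : V ≃ₗ[K] (∀ a, Fin (m a) → (E a).E)),
    (∀ a, Q ≤ Module.finrank K (E a).E) ∧ (∀ a, 1 ≤ m a ∧ m a ≤ M) ∧
    ∀ a, ∃ D : Fin (m a) → (E a).E, Att (ext (E a).E α) (m a) D ∧
      Ep (LinearMap.proj a ∘ₗ (e.toLinearMap ∘ₗ T ∘ₗ e.symm.toLinearMap) ∘ₗ
        LinearMap.single K (fun a => Fin (m a) → (E a).E) a) (diagonal D)

/-- A decomposition of a matrix: after a change of basis all diagonal blocks are attainable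
diagonal matrices. -/
def DecM {r : ℕ} {F : Type v} [Field F] (α : Equiv.Perm (Fin (r + 1)) → F) {n : ℕ}
    (T : Matrix (Fin n) (Fin n) F) : Prop :=
  ∃ (κ : Type) (_ : Fintype κ) (s : κ → ℕ) (e : (Σ a, Fin (s a)) ≃ Fin n)
    (P P' : Matrix (Fin n) (Fin n) F) (D : ∀ a, Fin (s a) → F),
    (∀ a, 1 ≤ s a) ∧ P' * P = 1 ∧ (∀ a, Att α (s a) (D a)) ∧
    ∀ a i j, (P' * T * P) (e ⟨a, i⟩) (e ⟨a, j⟩) = if i = j then D a i else 0

end Pool.Agent.P5f
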