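import Pool.Agent.Lib.P5f.CardB

/-!
# Diagonal blocks

`dia_bad` : for all but few scalars `S` the given endomorphism `R` of the block, whose `E`-linear
component is the attainable matrix `diagonal D`, is a value of the operator.
-/

open Finset Matrix

namespace Pool.Agent.P5f

open Pool.Agent.P5m Pool.Agent.P5q

namespace DiaAux

section basic

variable {K E : Type*} [Field K] [Field E] [Algebra K E]

theorem mv_apply {m m' : ℕ} (M : Matrix (Fin m) (Fin m') E) (x : Fin m' → E) :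
    mv K M x = M *ᵥ x := rfl

theorem twl_apply {m m' : ℕ} (g : E ≃ₐ[K] E) (M : Matrix (Fin m) (Fin m') E) (x : Fin m' → E) :
    twl g M x = M *ᵥ (fun i => g (x i)) := rfl

theorem mv_mul {a b c : ℕ} (M : Matrix (Fin a) (Fin b) E) (M' : Matrix (Fin b) (Fin c) E) :
    mv K (M * M') = mv K M ∘ₗ mv K M' := by
  refine LinearMap.ext fun x => ?_
  rw [LinearMap.comp_apply, mv_apply, mv_apply, mv_apply, Matrix.mulVec_mulVec]

theorem mv_one {m : ℕ} : mv K (1 : Matrix (Fin m) (Fin m) E) = 1 := by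
  refine LinearMap.ext fun x => ?_
  rw [mv_apply, Matrix.one_mulVec]
  rfl

theorem mv_prod {m : ℕ} (B : ℕ → Matrix (Fin m) (Fin m) E) (l : List ℕ) :
    (l.map fun q => mv K (B q)).prod = mv K (l.map B).prod := by
  induction l with
  | nil => rw [List.map_nil, List.prod_nil, List.map_nil, List.prod_nil, mv_one]
  | cons q l ih =>
    rw [List.map_cons, List.prod_cons, ih, List.map_cons, List.prod_cons, mv_mul]
    rfl

theorem mv_twl {a b c : ℕ} (g : E ≃ₐ[K] E) (P : Matrix (Fin a) (Fin b) E)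
    (X : Matrix (Fin b) (Fin c) E) : mv K P ∘ₗ twl g X = twl g (P * X) := by
  refine LinearMap.ext fun x => ?_
  rw [LinearMap.comp_apply, mv_apply, twl_apply, twl_apply, Matrix.mulVec_mulVec]

theorem twl_mv {a b c : ℕ} (g : E ≃ₐ[K] E) (X : Matrix (Fin a) (Fin b) E)
    (Q : Matrix (Fin b) (Fin c) E) : twl g X ∘ₗ mv K Q = twl g (X * Q.map g) := by
  refine LinearMap.ext fun x => ?_
  rw [LinearMap.comp_apply, mv_apply, twl_apply, twl_apply, ← Matrix.mulVec_mulVec]
  congr 1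
  funext i
  simp only [Matrix.mulVec, dotProduct, Matrix.map_apply, map_sum, map_mul]

theorem twl_sum {ι : Type*} (s : Finset ι) {a b : ℕ} (g : E ≃ₐ[K] E)
    (X : ι → Matrix (Fin a) (Fin b) E) : twl g (∑ i ∈ s, X i) = ∑ i ∈ s, twl g (X i) := by
  refine LinearMap.ext fun x => ?_
  rw [LinearMap.sum_apply, twl_apply, Matrix.sum_mulVec]
  rfl

theorem twl_smul {a b : ℕ} (g : E ≃ₐ[K] E) (c : K) (X : Matrix (Fin a) (Fin b) E) :
    twl g (c • X) = c • twl g X := by
  refine LinearMap.ext fun x => ?_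
  rw [LinearMap.smul_apply, twl_apply, twl_apply, Matrix.smul_mulVec]

theorem prod_smul {m : ℕ} (S : E) (C : ℕ → Matrix (Fin m) (Fin m) E) (l : List ℕ) :
    (l.map fun q => S • C q).prod = S ^ l.length • (l.map C).prod := by
  induction l with
  | nil => simp
  | cons q l ih =>
    rw [List.map_cons, List.prod_cons, ih, List.map_cons, List.prod_cons, List.length_cons,
      Matrix.smul_mul, Matrix.mul_smul, smul_smul, pow_succ, mul_comm (S ^ l.length)]

theorem map_smul' {m : ℕ} (g : E ≃ₐ[K] E) (c : E) (Q : Matrix (Fin m) (Fin m) E) :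
    (c • Q).map g = g c • Q.map g := by
  ext i j
  simp

theorem sum_comp' {V₁ V₂ V₃ ι : Type*} [AddCommGroup V₁] [Module K V₁] [AddCommGroup V₂]
    [Module K V₂] [AddCommGroup V₃] [Module K V₃] (s : Finset ι) (f : ι → V₂ →ₗ[K] V₃)
    (h : V₁ →ₗ[K] V₂) : (∑ i ∈ s, f i) ∘ₗ h = ∑ i ∈ s, f i ∘ₗ h := by
  refine LinearMap.ext fun x => ?_
  simp only [LinearMap.comp_apply, LinearMap.sum_apply]

theorem comp_sum' {V₁ V₂ V₃ ι : Type*} [AddCommGroup V₁] [Module K V₁] [AddCommGroup V₂]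
    [Module K V₂] [AddCommGroup V₃] [Module K V₃] (s : Finset ι) (f : ι → V₁ →ₗ[K] V₂)
    (h : V₂ →ₗ[K] V₃) : h ∘ₗ (∑ i ∈ s, f i) = ∑ i ∈ s, h ∘ₗ f i := by
  refine LinearMap.ext fun x => ?_
  simp only [LinearMap.comp_apply, LinearMap.sum_apply, map_sum]

variable {r : ℕ}

/-- The matrix of the component `g`. -/
def cpt (α : Equiv.Perm (Fin (r + 1)) → K) {m : ℕ} (C : ℕ → Matrix (Fin m) (Fin m) E) (S : E)
    (g : E ≃ₐ[K] E) (Y : Matrix (Fin m) (Fin m) E) : Matrix (Fin m) (Fin m) E :=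
  ∑ σ : Equiv.Perm (Fin (r + 1)), α σ • ((S ^ ((σ.symm 0 : Fin (r + 1)) : ℕ) *
    g S ^ (r - ((σ.symm 0 : Fin (r + 1)) : ℕ))) •
      (((P5e96.preL σ).map C).prod * (Y * (((P5e96.postL σ).map C).prod).map g)))

theorem lop_twl [FiniteDimensional K E] (α : Equiv.Perm (Fin (r + 1)) → K) {m : ℕ}
    (C : ℕ → Matrix (Fin m) (Fin m) E) (S : E) (Y : (E ≃ₐ[K] E) → Matrix (Fin m) (Fin m) E) :
    Lop α (fun q => mv K (S • C q)) (fun q => mv K (S • C q)) (∑ g, twl g (Y g)) =
      ∑ g, twl g (cpt α C S g (Y g)) := by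
  unfold Lop cpt
  simp only [twl_sum, twl_smul]
  rw [Finset.sum_comm]
  refine Finset.sum_congr rfl fun σ _ => ?_
  rw [← Finset.smul_sum]
  congr 1
  rw [mv_prod, mv_prod, prod_smul, prod_smul, P5e96.length_preL, P5e96.length_postL,
    sum_comp', comp_sum']
  refine Finset.sum_congr rfl fun g _ => ?_
  rw [twl_mv, mv_twl, map_smul', map_pow, Matrix.mul_smul, Matrix.mul_smul, Matrix.smul_mul,
    smul_smul, mul_comm (g S ^ _)]

end basic

section pencil

variable {K E : Type*} [Field K] [Field E] [Algebra K E] {r m : ℕ}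

/-- The operator of one monomial. -/
noncomputable def Lm (α : Equiv.Perm (Fin (r + 1)) → K) (C : ℕ → Matrix (Fin m) (Fin m) E)
    (g : E ≃ₐ[K] E) (σ : Equiv.Perm (Fin (r + 1))) :
    Matrix (Fin m) (Fin m) E →ₗ[E] Matrix (Fin m) (Fin m) E :=
  ext E α σ • (LinearMap.mulLeft E ((P5e96.preL σ).map C).prod ∘ₗ
    LinearMap.mulRight E (((P5e96.postL σ).map C).prod.map g))

theorem Lm_apply (α : Equiv.Perm (Fin (r + 1)) → K) (C : ℕ → Matrix (Fin m) (Fin m) E)
    (g : E ≃ₐ[K] E) (σ : Equiv.Perm (Fin (r + 1))) (Y : Matrix (Fin m) (Fin m) E) :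
    Lm α C g σ Y = ext E α σ • (((P5e96.preL σ).map C).prod *
      (Y * ((P5e96.postL σ).map C).prod.map g)) := rfl

theorem cpt_eq (α : Equiv.Perm (Fin (r + 1)) → K) (C : ℕ → Matrix (Fin m) (Fin m) E)
    (g : E ≃ₐ[K] E) {S : E} (hS : S ≠ 0) (Y : Matrix (Fin m) (Fin m) E) :
    cpt α C S g Y = g S ^ r • (∑ σ : Equiv.Perm (Fin (r + 1)),
      (S / g S) ^ ((σ.symm 0 : Fin (r + 1)) : ℕ) • Lm α C g σ) Y := by
  have hg : g S ≠ 0 := by
    intro h
    exact hS ((map_eq_zero_iff g g.injective).1 h)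
  rw [cpt, LinearMap.sum_apply, Finset.smul_sum]
  refine Finset.sum_congr rfl fun σ _ => ?_
  rw [LinearMap.smul_apply, Lm_apply, ext, algebraMap_smul, smul_comm _ (α σ), smul_comm _ (α σ),
    smul_smul]
  congr 2
  have hi : ((σ.symm 0 : Fin (r + 1)) : ℕ) ≤ r := by
    have := (σ.symm 0).2
    omega
  have h3 : g S ^ r = g S ^ ((σ.symm 0 : Fin (r + 1)) : ℕ) *
      g S ^ (r - ((σ.symm 0 : Fin (r + 1)) : ℕ)) := by
    rw [← pow_add, Nat.add_sub_cancel' hi]
  rw [div_pow, mul_div_assoc', eq_div_iff (pow_ne_zero _ hg), h3]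
  ring

theorem map_list (g : E ≃ₐ[K] E) (C : ℕ → Matrix (Fin m) (Fin m) E) (l : List ℕ) :
    (l.map C).prod.map g = (l.map fun q => (C q).map g).prod := by
  induction l with
  | nil =>
    simp only [List.map_nil, List.prod_nil]
    exact Matrix.map_one g (map_zero g) (map_one g)
  | cons q l ih =>
    simp only [List.map_cons, List.prod_cons]
    rw [← ih]
    exact Matrix.map_mul (f := (g : E →+* E))

theorem pencil_zero' (α : Equiv.Perm (Fin (r + 1)) → K) (C : ℕ → Matrix (Fin m) (Fin m) E)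
    (g : E ≃ₐ[K] E) (Y : Matrix (Fin m) (Fin m) E) :
    (∑ σ : Equiv.Perm (Fin (r + 1)), (0 : E) ^ ((σ.symm 0 : Fin (r + 1)) : ℕ) • Lm α C g σ) Y =
      Y * (P5e96.gmat (ext E α) C).map g := by
  have h1 := P5e96.pencil_zero (ext E α) (fun q => (C q).map g) Y
  have h2 : P5e96.gmat (ext E α) (fun q => (C q).map g) = (P5e96.gmat (ext E α) C).map g := by
    have h3 : (P5e96.gmat (ext E α) C).map g =
        (g : E →+* E).mapMatrix (P5e96.gmat (ext E α) C) := rfl
    rw [h3, P5e96.gmat, P5e96.gmat, map_sum]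
    refine Finset.sum_congr rfl fun σ _ => ?_
    split_ifs
    · rw [RingHom.mapMatrix_apply]
      have h4 : (ext E α σ • (List.map C (P5e96.tailList σ)).prod).map (g : E →+* E) =
          (ext E α σ • (List.map C (P5e96.tailList σ)).prod).map g := rfl
      rw [h4, map_smul', map_list]
      congr 1
      exact (g.commutes (α σ)).symm
    · rw [map_zero]
  rw [← h2, ← h1, LinearMap.sum_apply, LinearMap.sum_apply]
  refine Finset.sum_congr rfl fun σ _ => ?_
  rw [LinearMap.smul_apply, LinearMap.smul_apply, LinearMap.smul_apply, Lm_apply,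
    P5e96.act_apply, map_list]
  by_cases h : σ 0 = 0
  · have h1 : σ.symm 0 = 0 := by rw [Equiv.symm_apply_eq]; exact h.symm
    have h2 : P5e96.preL σ = [] := by rw [P5e96.preL, h1]; rfl
    rw [h2]
    simp
  · have h1 : ((σ.symm 0 : Fin (r + 1)) : ℕ) ≠ 0 := by
      intro h2
      apply h
      have h3 : σ.symm 0 = 0 := Fin.ext h2
      rw [Equiv.symm_apply_eq] at h3
      exact h3.symm
    rw [zero_pow h1, zero_smul, zero_smul]

theorem bad_z (α : Equiv.Perm (Fin (r + 1)) → K) (C : ℕ → Matrix (Fin m) (Fin m) E)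
    (hC : ∀ Y : Matrix (Fin m) (Fin m) E, Y * P5e96.gmat (ext E α) C = 0 → Y = 0)
    (g : E ≃ₐ[K] E) :
    {z : E | ¬ Function.Surjective (∑ σ : Equiv.Perm (Fin (r + 1)),
      z ^ ((σ.symm 0 : Fin (r + 1)) : ℕ) • Lm α C g σ :
        Matrix (Fin m) (Fin m) E →ₗ[E] Matrix (Fin m) (Fin m) E)}.Finite ∧
    {z : E | ¬ Function.Surjective (∑ σ : Equiv.Perm (Fin (r + 1)),
      z ^ ((σ.symm 0 : Fin (r + 1)) : ℕ) • Lm α C g σ :
        Matrix (Fin m) (Fin m) E →ₗ[E] Matrix (Fin m) (Fin m) E)}.ncard ≤ r * m ^ 2 := by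
  have h0 : Function.Injective (∑ σ : Equiv.Perm (Fin (r + 1)),
      (0 : E) ^ ((σ.symm 0 : Fin (r + 1)) : ℕ) • Lm α C g σ :
        Matrix (Fin m) (Fin m) E →ₗ[E] Matrix (Fin m) (Fin m) E) := by
    rw [← LinearMap.ker_eq_bot, LinearMap.ker_eq_bot']
    intro Y hY
    rw [pencil_zero'] at hY
    have hu : IsUnit (P5e96.gmat (ext E α) C) := isUnit_of_mul_inj _ hC
    have hu2 : IsUnit ((P5e96.gmat (ext E α) C).map g) := hu.map ((g : E →+* E).mapMatrix)
    exact (hu2.mul_left_eq_zero).1 hY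
  have h1 := card_bad (F := E) (H := Matrix (Fin m) (Fin m) E) (fun σ => Lm α C g σ)
    (fun σ : Equiv.Perm (Fin (r + 1)) => ((σ.symm 0 : Fin (r + 1)) : ℕ)) r (fun σ => by
      have := (σ.symm 0).2
      show ((σ.symm 0 : Fin (r + 1)) : ℕ) ≤ r
      omega) h0
  refine ⟨h1.1, h1.2.trans (le_of_eq ?_)⟩
  rw [Module.finrank_matrix, Fintype.card_fin, Module.finrank_self, mul_one, pow_two]

end pencil

section count

variable {K E : Type*} [Field K] [Field E] [Algebra K E] [Finite E]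

theorem fixed_card (g : E ≃ₐ[K] E) (hg : g ≠ 1) :
    {x : E | g x = x}.ncard * {x : E | g x = x}.ncard ≤ Nat.card E := by
  obtain ⟨x, hx⟩ : ∃ x, g x ≠ x := by
    by_contra h
    push Not at h
    exact hg (AlgEquiv.ext h)
  rw [← Set.ncard_prod, ← Set.ncard_univ]
  refine Set.ncard_le_ncard_of_injOn (fun p : E × E => p.1 + p.2 * x) (fun _ _ => Set.mem_univ _) ?_
    (Set.toFinite _)
  rintro ⟨a, b⟩ ⟨ha, hb⟩ ⟨a', b'⟩ ⟨ha', hb'⟩ h
  simp only [Set.mem_ofPred_eq] at ha hb ha' hb'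
  have h' : a + b * x = a' + b' * x := h
  have hbb : b = b' := by
    by_contra hne
    have hne' : b - b' ≠ 0 := sub_ne_zero.2 hne
    have h1 : x = (a' - a) / (b - b') := by
      rw [eq_div_iff hne']
      linear_combination h'
    apply hx
    rw [h1, map_div₀, map_sub, map_sub, ha, ha', hb, hb']
  rw [hbb] at h' ⊢
  rw [add_right_cancel h']

theorem fibre_card (g : E ≃ₐ[K] E) (hg : g ≠ 1) (z : E) :
    {S : E | S ≠ 0 ∧ S / g S = z}.ncard ≤ Nat.sqrt (Nat.card E) := by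
  rcases Set.eq_empty_or_nonempty {S : E | S ≠ 0 ∧ S / g S = z} with h0 | ⟨S₀, hS₀, hz₀⟩
  · rw [h0, Set.ncard_empty]
    exact Nat.zero_le _
  have hgS₀ : g S₀ ≠ 0 := fun h => hS₀ ((map_eq_zero_iff g g.injective).1 h)
  have hsub : {S : E | S ≠ 0 ∧ S / g S = z} ⊆ (fun x => x * S₀) '' {x : E | g x = x} := by
    rintro S ⟨hS, hz⟩
    have hgS : g S ≠ 0 := fun h => hS ((map_eq_zero_iff g g.injective).1 h)
    refine ⟨S / S₀, ?_, div_mul_cancel₀ S hS₀⟩
    show g (S / S₀) = S / S₀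
    rw [← hz, div_eq_div_iff hgS₀ hgS] at hz₀
    rw [map_div₀, div_eq_div_iff hgS₀ hS₀]
    linear_combination hz₀
  have h1 : {S : E | S ≠ 0 ∧ S / g S = z}.ncard ≤ {x : E | g x = x}.ncard :=
    (Set.ncard_le_ncard hsub (Set.toFinite _)).trans (Set.ncard_image_le (Set.toFinite _))
  refine h1.trans ?_
  rw [Nat.le_sqrt]
  exact fixed_card g hg

theorem bad_card (g : E ≃ₐ[K] E) (hg : g ≠ 1) (Z : Set E) (N : ℕ) (hZ : Z.ncard ≤ N) :
    {S : E | S ≠ 0 ∧ S / g S ∈ Z}.ncard ≤ N * Nat.sqrt (Nat.card E) := by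
  classical
  have hfin : Z.Finite := Set.toFinite _
  have h1 : {S : E | S ≠ 0 ∧ S / g S ∈ Z} = ⋃ z ∈ hfin.toFinset, {S : E | S ≠ 0 ∧ S / g S = z} := by
    ext S
    simp
  rw [h1]
  calc (⋃ z ∈ hfin.toFinset, {S : E | S ≠ 0 ∧ S / g S = z}).ncard
      ≤ ∑ z ∈ hfin.toFinset, {S : E | S ≠ 0 ∧ S / g S = z}.ncard :=
        Finset.set_ncard_biUnion_le _ _
    _ ≤ ∑ _z ∈ hfin.toFinset, Nat.sqrt (Nat.card E) :=
        Finset.sum_le_sum fun z _ => fibre_card g hg z
    _ = hfin.toFinset.card * Nat.sqrt (Nat.card E) := by rw [Finset.sum_const, smul_eq_mul]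
    _ ≤ N * Nat.sqrt (Nat.card E) := by
        apply Nat.mul_le_mul_right
        rw [← Set.ncard_eq_toFinset_card Z hfin]
        exact hZ

end count

end DiaAux

open DiaAux

theorem dia_bad {r : ℕ} {K E : Type*} [Field K] [Finite K] [Field E] [Algebra K E]
    [FiniteDimensional K E] (α : Equiv.Perm (Fin (r + 1)) → K) (m : ℕ)
    (C : ℕ → Matrix (Fin m) (Fin m) E) (X₀ : Matrix (Fin m) (Fin m) E) (D : Fin m → E)
    (hC : ∀ Y : Matrix (Fin m) (Fin m) E, Y * P5e96.gmat (ext E α) C = 0 → Y = 0)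
    (hX : P5e96.mval (ext E α) (fun q : Fin (r + 1) => if q = 0 then X₀ else C q) = diagonal D)
    (R : (Fin m → E) →ₗ[K] (Fin m → E)) (hR : Ep R (diagonal D)) :
    {S : E | S = 0 ∨ ¬ ∃ X : (Fin m → E) →ₗ[K] (Fin m → E),
      Lop α (fun q => mv K (S • C q)) (fun q => mv K (S • C q)) X = R}.ncard ≤
      1 + Module.finrank K E * (r * m ^ 2 * Nat.sqrt (Nat.card E)) := by
  classical
  have : Finite E := Module.finite_of_finite K
  obtain ⟨N, hN1, hR⟩ := hR
  set Z : (E ≃ₐ[K] E) → Set E := fun g => {z : E | ¬ Function.Surjective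
    (∑ σ : Equiv.Perm (Fin (r + 1)), z ^ ((σ.symm 0 : Fin (r + 1)) : ℕ) • Lm α C g σ :
      Matrix (Fin m) (Fin m) E →ₗ[E] Matrix (Fin m) (Fin m) E)} with hZ
  have hsub : {S : E | S = 0 ∨ ¬ ∃ X : (Fin m → E) →ₗ[K] (Fin m → E),
      Lop α (fun q => mv K (S • C q)) (fun q => mv K (S • C q)) X = R} ⊆
      {0} ∪ ⋃ g ∈ (univ : Finset (E ≃ₐ[K] E)).erase 1, {S : E | S ≠ 0 ∧ S / g S ∈ Z g} := by
    intro S hS
    rw [Set.mem_union, Set.mem_singleton_iff]
    by_cases hS0 : S = 0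
    · exact Or.inl hS0
    right
    by_contra hcon
    simp only [Set.mem_iUnion, Finset.mem_erase, Finset.mem_univ, and_true, not_exists] at hcon
    have hgood : ∀ g : E ≃ₐ[K] E, ∃ Y : Matrix (Fin m) (Fin m) E, cpt α C S g Y = N g := by
      intro g
      by_cases hg : g = 1
      · subst hg
        refine ⟨S⁻¹ ^ r • X₀, ?_⟩
        rw [hN1, ← hX, cpt, P5e96.mval]
        refine Finset.sum_congr rfl fun σ _ => ?_
        rw [P5e96.ofFn_split σ X₀ C _ (if_pos rfl) (fun q hq => if_neg hq), List.prod_append,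
          List.prod_cons, ext, algebraMap_smul]
        congr 1
        have h1 : (((P5e96.postL σ).map C).prod).map (1 : E ≃ₐ[K] E) =
            ((P5e96.postL σ).map C).prod := by
          ext i j
          rfl
        have h2 : (1 : E ≃ₐ[K] E) S = S := rfl
        have hi : ((σ.symm 0 : Fin (r + 1)) : ℕ) ≤ r := by
          have := (σ.symm 0).2
          omega
        rw [h1, h2, ← pow_add, Nat.add_sub_cancel' hi, Matrix.smul_mul, Matrix.mul_smul, smul_smul,
          ← mul_pow, mul_inv_cancel₀ hS0, one_pow, one_smul]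
      · have h1 := hcon g hg
        have h2 : S / g S ∉ Z g := fun h => h1 ⟨hS0, h⟩
        rw [hZ] at h2
        simp only [Set.mem_ofPred_eq, not_not] at h2
        have hgS : g S ≠ 0 := fun h => hS0 ((map_eq_zero_iff g g.injective).1 h)
        obtain ⟨Y, hY⟩ := h2 ((g S ^ r)⁻¹ • N g)
        refine ⟨Y, ?_⟩
        rw [cpt_eq α C g hS0, hY, smul_smul, mul_inv_cancel₀ (pow_ne_zero _ hgS), one_smul]
    choose Y hY using hgood
    rcases hS with h | h
    · exact hS0 h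
    · apply h
      refine ⟨∑ g, twl g (Y g), ?_⟩
      rw [lop_twl, hR]
      exact Finset.sum_congr rfl fun g _ => by rw [hY]
  refine (Set.ncard_le_ncard hsub (Set.toFinite _)).trans ?_
  refine (Set.ncard_union_le _ _).trans ?_
  rw [Set.ncard_singleton]
  apply Nat.add_le_add_left
  calc (⋃ g ∈ (univ : Finset (E ≃ₐ[K] E)).erase 1, {S : E | S ≠ 0 ∧ S / g S ∈ Z g}).ncard
      ≤ ∑ g ∈ (univ : Finset (E ≃ₐ[K] E)).erase 1, {S : E | S ≠ 0 ∧ S / g S ∈ Z g}.ncard :=
        Finset.set_ncard_biUnion_le _ _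
    _ ≤ ∑ _g ∈ (univ : Finset (E ≃ₐ[K] E)).erase 1, r * m ^ 2 * Nat.sqrt (Nat.card E) := by
        refine Finset.sum_le_sum fun g hg => ?_
        exact bad_card g (Finset.ne_of_mem_erase hg) (Z g) (r * m ^ 2) (bad_z α C hC g).2
    _ = ((univ : Finset (E ≃ₐ[K] E)).erase 1).card * (r * m ^ 2 * Nat.sqrt (Nat.card E)) := by
        rw [Finset.sum_const, smul_eq_mul]
    _ ≤ Module.finrank K E * (r * m ^ 2 * Nat.sqrt (Nat.card E)) := by
        apply Nat.mul_le_mul_right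
        refine (Finset.card_erase_le).trans ?_
        rw [Finset.card_univ]
        exact AlgEquiv.card_le

end Pool.Agent.P5f
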