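import Pool.Agent.Lib.P5f.Defs

/-!
# Structures over an extension field with prescribed trace

GOAL: `e_struct` : a nonscalar endomorphism `T` of a `K`-space `V` of dimension `s * t`, `t = finrank K E`,
`s ≥ 3`: there is an isomorphism `V ≃ E ^ s` such that the transported map `T''` satisfies
`trace (z • T'') = Tr (z * y)` for all `z : E`, and `trace (mv K N ∘ₗ T'') ≠ 0` for some `N` of trace zero.
Here `y` is any element of `E` with `Tr y = trace T`.

PROOF (complete).  `t ≥ 1`, `dim V = s * t ≥ 3 * t`.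
(1) There is `v` with `T v ∉ K v` (if every vector were an eigenvector, `T` would be scalar:
`LinearMap.exists_eq_smul_id_of_forall_notLinearIndependent`-type lemma, or the argument with a basis and
sums of two basis vectors).  Let `v₁ = v`.  There is `l : V →ₗ[K] K` with `l v₁ = 0`, `l (T v₁) = 1`
(`Submodule.exists_le_ker_of_notMem`-type lemma for `T v₁ ∉ span {v₁}`, scaled).
(2) `U = ker l ⊓ ker (l ∘ T)` has dimension at least `s * t - 2 ≥ t - 1`; `v₁ ∉ U`.  Choose linearly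
independent `v₂, ..., v_t` in `U`.  Then `v₁, ..., v_t` are linearly independent and lie in `ker l`, and
`T v_i ∈ ker l` for `i ≥ 2`.  Let `V₁ = span (v_i)` and `W₀ = V₁ ⊔ span (T v_i : i ≥ 2) ≤ ker l`,
`dim W₀ ≤ 2 t - 1 ≤ (s - 1) t ≤ s t - 1 = dim (ker l)`.  Choose `W₀ ≤ W ≤ ker l` of dimension `(s - 1) t`.
As `l (T v₁) = 1`, `T v₁ ∉ W`; let `V₂` be a complement of `W` containing `T v₁` (`dim V₂ = t`) and `V₃` a
complement of `V₁` in `W` (`dim V₃ = (s - 2) t`).  So `V = V₁ ⊕ V₂ ⊕ V₃`, and the projection to `V₂`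
along `V₁ ⊕ V₃ = W` kills `T v_i`, `i ≥ 2`, and maps `T v₁` to itself.
(An equivalent formulation with a basis: there is a basis `b : Basis (Fin s × Fin t) K V` such that the
coordinates of `T (b (0, i))` at all `(1, j)` vanish for `i ≠ 0`, and the coordinates of `T (b (0, 0))` at
`(1, j)` are `1` for `j = 0` and `0` otherwise.)
(3) Choose any `K`-isomorphisms `V₁ ≃ E`, `V₂ ≃ E`, `V₃ ≃ E ^ (s - 2)` and let `e : V ≃ E ^ s` be the resulting
isomorphism, `V₁` at the coordinate `0`, `V₂` at the coordinate `1`.  Let `T' = e T e⁻¹` and let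
`R : E →ₗ[K] E`, `R x = T' (Pi.single 0 x) 1`.  By (2) `R x = ω x • u` with `u ≠ 0` in `E` (the image of
`T v₁`) and `ω : E →ₗ[K] K` nonzero.  The trace form of `E / K` is nondegenerate (`traceForm_nondegenerate`,
separability), so `ω x = Tr (w * x)` with `w ≠ 0` (`traceForm` as an isomorphism to the dual,
`LinearMap.BilinForm.toDual` or `Algebra.traceForm..`), and there is `y' : E` with
`trace (mv K (z • 1) ∘ₗ T') = Tr (z * y')` for all `z : E` (the left side is `K`-linear in `z`).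
For `z = 1`: `Tr y' = trace T' = trace T = Tr y`.  Put `δ = y - y'`, `Tr δ = 0`.
(4) Choose `d : E` with `Tr d = 1` (surjectivity of the trace, `Algebra.trace_surjective`) and let
`Z : E →ₗ[K] E`, `Z x = Tr ((d / u) * x) • (δ / w)`.  Let `g : E ^ s ≃ E ^ s`,
`g x = x + Pi.single 0 (Z (x 1))`, with inverse `x ↦ x - Pi.single 0 (Z (x 1))`, and `T'' = g T' g⁻¹`.
For `z : E` : `g⁻¹ ∘ (z •) ∘ g = (z •) + Pi.single 0 ∘ (z Z - Z z) ∘ (· 1)`, so with cyclicity of the trace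
`trace (z • T'') = trace (g⁻¹ (z •) g T') = trace (z • T') + trace ((z Z - Z z) ∘ R)` (the last trace on
`E`; `trace (single 0 ∘ f ∘ proj 1 ∘ T') = trace (f ∘ proj 1 ∘ T' ∘ single 0)`).  The map
`x ↦ z * Z (R x) - Z (z * R x) = ω x • (z * Z u - Z (z * u))` has trace
`ω (z * Z u - Z (z * u)) = Tr (w * z * Z u) - Tr (w * Z (z * u))`.  Now
`Z u = Tr d • (δ / w) = δ / w`, `Z (z * u) = Tr (d * z) • (δ / w)`, so this is
`Tr (z * δ) - Tr (d * z) * Tr δ = Tr (z * δ)`.  Hence `trace (z • T'') = Tr (z * y') + Tr (z * δ) = Tr (z * y)`.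
(5) `T'' (Pi.single 0 x) 1 = T' (Pi.single 0 x) 1 = R x` (`g⁻¹` fixes `Pi.single 0 x`, since its coordinate
`1` vanishes, and `g` does not change the coordinate `1`).  With `N = Matrix.single 0 1 z` (entry `z` at
`(0, 1)`), of trace zero, `trace (mv K N ∘ₗ T'') = trace (x ↦ z * R x) = ω (z * u) = Tr (w * z * u)`, which is
not zero for `z = d / (w * u)`.
The isomorphism of the theorem is `g ∘ e`.
-/

open Finset Matrix

namespace Pool.Agent.P5f

namespace EStrAux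

theorem single_one {E : Type*} [Zero E] {n : ℕ} (x : E) :
    (Pi.single 0 x : Fin (n + 2) → E) 1 = 0 :=
  Pi.single_eq_of_ne (Fin.zero_ne_one (n := n)).symm x

section geom

variable {K V : Type*} [Field K] [AddCommGroup V] [Module K V] [FiniteDimensional K V]

theorem finrank_sup_span {A : Submodule K V} {x : V} (hx : x ∉ A) :
    Module.finrank K (A ⊔ K ∙ x : Submodule K V) = Module.finrank K A + 1 := by
  have hx0 : x ≠ 0 := by
    rintro rfl
    exact hx A.zero_mem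
  have hd : Disjoint A (K ∙ x) := (Submodule.disjoint_span_singleton' hx0).2 hx
  have h1 := Submodule.finrank_sup_add_finrank_inf_eq A (K ∙ x)
  rw [hd.eq_bot, finrank_bot, finrank_span_singleton hx0] at h1
  omega

/-- intermediate dimension -/
theorem exists_between (A B : Submodule K V) (hAB : A ≤ B) (n : ℕ)
    (h1 : Module.finrank K A ≤ n) (h2 : n ≤ Module.finrank K B) :
    ∃ C : Submodule K V, A ≤ C ∧ C ≤ B ∧ Module.finrank K C = n := by
  obtain ⟨d, hd⟩ := Nat.exists_eq_add_of_le h1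
  clear h1
  induction d generalizing A with
  | zero => exact ⟨A, le_rfl, hAB, by omega⟩
  | succ d ih =>
    have hlt : Module.finrank K A < Module.finrank K B := by omega
    have hne : A < B := lt_of_le_of_ne hAB (by rintro rfl; exact lt_irrefl _ hlt)
    obtain ⟨x, hxB, hxA⟩ := SetLike.exists_of_lt hne
    have hrank := finrank_sup_span hxA
    obtain ⟨C, hC1, hC2, hC3⟩ := ih (A ⊔ K ∙ x)
      (sup_le hAB ((Submodule.span_singleton_le_iff_mem _ _).2 hxB)) (by omega)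
    exact ⟨C, le_sup_left.trans hC1, hC2, hC3⟩

theorem finrank_ker_ge (f : V →ₗ[K] K) :
    Module.finrank K V ≤ Module.finrank K (LinearMap.ker f) + 1 := by
  have h1 := LinearMap.finrank_range_add_finrank_ker f
  have h2 : Module.finrank K (LinearMap.range f) ≤ 1 := by
    have h3 := Submodule.finrank_le (LinearMap.range f)
    rwa [Module.finrank_self] at h3
  omega

theorem exists_geom (T : V →ₗ[K] V) (hT : ∀ μ : K, T ≠ μ • LinearMap.id) {n t : ℕ} (ht : 1 ≤ t)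
    (hV : Module.finrank K V = (n + 3) * t) :
    ∃ (V₁ V₂ V₃ : Submodule K V) (l : V →ₗ[K] K) (v₁ : V), v₁ ∈ V₁ ∧ l (T v₁) = 1 ∧
      V₁ ⊓ V₃ = ⊥ ∧ V₂ ⊓ (V₁ ⊔ V₃) = ⊥ ∧ Module.finrank K V₁ = t ∧ Module.finrank K V₂ = t ∧
      Module.finrank K V₃ = (n + 1) * t ∧ V₁ ⊔ V₃ ≤ LinearMap.ker l ∧
      (∀ x ∈ V₁, T x - l (T x) • T v₁ ∈ V₁ ⊔ V₃) := by
  -- (1)
  obtain ⟨v₁, hv₁⟩ : ∃ v, LinearIndependent K ![v, T v] := by
    by_contra hcon
    push Not at hcon
    obtain ⟨a, ha⟩ := LinearMap.exists_eq_smul_id_of_forall_notLinearIndependent hcon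
    exact hT a ha
  have hTv : T v₁ ∉ K ∙ v₁ := by
    intro hmem
    obtain ⟨a, ha⟩ := Submodule.mem_span_singleton.1 hmem
    rw [LinearIndependent.pair_iff] at hv₁
    have h1 := hv₁ a (-1) (by rw [ha, neg_smul, one_smul, add_neg_cancel])
    have h2 := h1.2
    exact one_ne_zero (neg_eq_zero.1 h2)
  obtain ⟨l', hl', hker⟩ := Submodule.exists_le_ker_of_notMem hTv
  obtain ⟨l, hl⟩ : ∃ l : V →ₗ[K] K, l = (l' (T v₁))⁻¹ • l' := ⟨_, rfl⟩
  have hlT : l (T v₁) = 1 := by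
    rw [hl, LinearMap.smul_apply, smul_eq_mul, inv_mul_cancel₀ hl']
  have hlv : l v₁ = 0 := by
    have h1 : v₁ ∈ LinearMap.ker l' := hker (Submodule.mem_span_singleton_self v₁)
    rw [hl, LinearMap.smul_apply, LinearMap.mem_ker.1 h1, smul_zero]
  -- (2)
  have hk1 := finrank_ker_ge l
  have hk2 := finrank_ker_ge (l ∘ₗ T)
  have hk3 := Submodule.finrank_sup_add_finrank_inf_eq (LinearMap.ker l) (LinearMap.ker (l ∘ₗ T))
  have hk4 := Submodule.finrank_le (LinearMap.ker l ⊔ LinearMap.ker (l ∘ₗ T))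
  have hmul : (n + 3) * t = n * t + 3 * t := by ring
  have hmul2 : (n + 2) * t = n * t + 2 * t := by ring
  have hmul1 : (n + 1) * t = n * t + t := by ring
  obtain ⟨U', -, hU'le, hU'r⟩ := exists_between (⊥ : Submodule K V)
    (LinearMap.ker l ⊓ LinearMap.ker (l ∘ₗ T)) bot_le (t - 1) (by rw [finrank_bot]; omega)
    (by omega)
  have hv₁U : v₁ ∉ U' := by
    intro h
    have h1 : v₁ ∈ LinearMap.ker (l ∘ₗ T) := (hU'le h).2
    rw [LinearMap.mem_ker, LinearMap.comp_apply, hlT] at h1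
    exact one_ne_zero h1
  have hV₁r := finrank_sup_span hv₁U
  obtain ⟨V₁, hV₁⟩ : ∃ V₁ : Submodule K V, V₁ = U' ⊔ K ∙ v₁ := ⟨_, rfl⟩
  rw [← hV₁] at hV₁r
  have hV₁l : V₁ ≤ LinearMap.ker l := by
    rw [hV₁]
    exact sup_le (fun z hz => (hU'le hz).1)
      ((Submodule.span_singleton_le_iff_mem _ _).2 (LinearMap.mem_ker.2 hlv))
  have hTU : U'.map T ≤ LinearMap.ker l := by
    rintro z ⟨x, hx, rfl⟩
    exact (hU'le hx).2
  have hTUr : Module.finrank K (U'.map T) ≤ Module.finrank K U' := Submodule.finrank_map_le T U'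
  have hW₀r := Submodule.finrank_sup_add_finrank_inf_eq V₁ (U'.map T)
  obtain ⟨W, hW₀, hWl, hWr⟩ := exists_between (V₁ ⊔ U'.map T) (LinearMap.ker l)
    (sup_le hV₁l hTU) ((n + 2) * t) (by omega) (by omega)
  obtain ⟨V₂, hV₂⟩ := Submodule.exists_isCompl W
  obtain ⟨V₃', hV₃'⟩ := Submodule.exists_isCompl V₁
  have hV₁W : V₁ ≤ W := le_sup_left.trans hW₀
  obtain ⟨V₃, hV₃⟩ : ∃ V₃ : Submodule K V, V₃ = V₃' ⊓ W := ⟨_, rfl⟩
  have hsup : V₁ ⊔ V₃ = W := by
    rw [hV₃, ← sup_inf_assoc_of_le _ hV₁W, hV₃'.sup_eq_top, top_inf_eq]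
  have hinf : V₁ ⊓ V₃ = ⊥ := by
    rw [hV₃, ← inf_assoc, hV₃'.inf_eq_bot, bot_inf_eq]
  have hr1 := Submodule.finrank_sup_add_finrank_inf_eq V₁ V₃
  rw [hsup, hinf, finrank_bot] at hr1
  have hr2 := Submodule.finrank_add_eq_of_isCompl hV₂
  refine ⟨V₁, V₂, V₃, l, v₁, ?_, hlT, hinf, ?_, by omega, by omega, by omega, ?_, ?_⟩
  · rw [hV₁]
    exact Submodule.mem_sup_right (Submodule.mem_span_singleton_self v₁)
  · rw [hsup, inf_comm]
    exact hV₂.inf_eq_bot
  · rw [hsup]; exact hWl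
  · intro x hx
    rw [hsup]
    rw [hV₁] at hx
    obtain ⟨u, hu, z, hz, rfl⟩ := Submodule.mem_sup.1 hx
    obtain ⟨a, rfl⟩ := Submodule.mem_span_singleton.1 hz
    have h1 : l (T u) = 0 := (hU'le hu).2
    have h2 : T (u + a • v₁) - l (T (u + a • v₁)) • T v₁ = T u := by
      rw [map_add, map_smul, map_add, map_smul, h1, hlT, smul_eq_mul, mul_one, zero_add,
        add_sub_cancel_right]
    rw [h2]
    exact hW₀ (Submodule.mem_sup_right ⟨u, hu, rfl⟩)

theorem exists_e0 {E : Type*} [Field E] [Algebra K E] [FiniteDimensional K E]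
    (T : V →ₗ[K] V) (hT : ∀ μ : K, T ≠ μ • LinearMap.id) {n : ℕ}
    (hV : Module.finrank K V = (n + 3) * Module.finrank K E) :
    ∃ (e₀ : V ≃ₗ[K] (Fin (n + 3) → E)) (ω : E →ₗ[K] K) (u : E), u ≠ 0 ∧ ω ≠ 0 ∧
      ∀ x, (e₀ (T (e₀.symm (Pi.single 0 x)))) 1 = ω x • u := by
  have ht : 1 ≤ Module.finrank K E := Module.finrank_pos
  obtain ⟨V₁, V₂, V₃, l, v₁, hv₁, hlT, h13, h2, hr1, hr2, hr3, hker, hTx⟩ :=
    exists_geom T hT ht hV
  have φ₁ : E ≃ₗ[K] V₁ := LinearEquiv.ofFinrankEq _ _ hr1.symm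
  have φ₂ : E ≃ₗ[K] V₂ := LinearEquiv.ofFinrankEq _ _ hr2.symm
  have φ₃ : (Fin (n + 1) → E) ≃ₗ[K] V₃ := LinearEquiv.ofFinrankEq _ _ (by
    rw [Module.finrank_pi_fintype, Finset.sum_const, Finset.card_univ, Fintype.card_fin,
      smul_eq_mul, hr3])
  let ψ : (Fin (n + 3) → E) →ₗ[K] V :=
    V₁.subtype ∘ₗ φ₁.toLinearMap ∘ₗ LinearMap.proj 0 +
    V₂.subtype ∘ₗ φ₂.toLinearMap ∘ₗ LinearMap.proj 1 +
    V₃.subtype ∘ₗ φ₃.toLinearMap ∘ₗ LinearMap.funLeft K E (fun i : Fin (n + 1) => i.succ.succ)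
  have hψ : ∀ x, ψ x = (φ₁ (x 0) : V) + (φ₂ (x 1) : V) +
      (φ₃ (fun i : Fin (n + 1) => x i.succ.succ) : V) := fun x => rfl
  have hinj : Function.Injective ψ := by
    rw [injective_iff_map_eq_zero]
    intro x hx
    rw [hψ] at hx
    have h3 : (φ₂ (x 1) : V) ∈ V₂ ⊓ (V₁ ⊔ V₃) := by
      refine ⟨(φ₂ (x 1)).2, ?_⟩
      have h4 : (φ₂ (x 1) : V) = -((φ₁ (x 0) : V) +
          (φ₃ (fun i : Fin (n + 1) => x i.succ.succ) : V)) := by
        rw [eq_neg_iff_add_eq_zero, ← hx]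
        abel
      rw [h4]
      exact Submodule.neg_mem _ (Submodule.add_mem_sup (φ₁ (x 0)).2 (φ₃ _).2)
    rw [h2, Submodule.mem_bot] at h3
    rw [h3, add_zero] at hx
    have h4 : (φ₁ (x 0) : V) ∈ V₁ ⊓ V₃ := by
      refine ⟨(φ₁ (x 0)).2, ?_⟩
      have h5 : (φ₁ (x 0) : V) = -(φ₃ (fun i : Fin (n + 1) => x i.succ.succ) : V) :=
        eq_neg_of_add_eq_zero_left hx
      rw [h5]
      exact Submodule.neg_mem _ (φ₃ _).2
    rw [h13, Submodule.mem_bot] at h4
    rw [h4, zero_add] at hx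
    have e1 : x 1 = 0 := by
      have h6 : φ₂ (x 1) = 0 := Subtype.ext h3
      exact (LinearEquiv.map_eq_zero_iff _).1 h6
    have e0 : x 0 = 0 := by
      have h6 : φ₁ (x 0) = 0 := Subtype.ext h4
      exact (LinearEquiv.map_eq_zero_iff _).1 h6
    have e2 : (fun i : Fin (n + 1) => x i.succ.succ) = 0 := by
      have h6 : φ₃ (fun i : Fin (n + 1) => x i.succ.succ) = 0 := Subtype.ext hx
      exact (LinearEquiv.map_eq_zero_iff _).1 h6
    funext i
    refine Fin.cases e0 (fun j => ?_) i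
    refine Fin.cases e1 (fun j' => ?_) j
    exact congrFun e2 j'
  have hfr : Module.finrank K (Fin (n + 3) → E) = Module.finrank K V := by
    rw [Module.finrank_pi_fintype, Finset.sum_const, Finset.card_univ, Fintype.card_fin,
      smul_eq_mul, hV]
  let e' := LinearEquiv.ofInjectiveOfFinrankEq ψ hinj hfr
  have he' : ∀ x, e' x = ψ x := fun x => rfl
  have hW : ∀ v ∈ V₁ ⊔ V₃, (e'.symm v) 1 = 0 := by
    intro v hv
    obtain ⟨a, ha, b, hb, rfl⟩ := Submodule.mem_sup.1 hv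
    obtain ⟨x, hx⟩ : ∃ x : Fin (n + 3) → E, x = Fin.cons (φ₁.symm ⟨a, ha⟩)
      (Fin.cons (0 : E) (φ₃.symm ⟨b, hb⟩)) := ⟨_, rfl⟩
    have h5 : e'.symm (a + b) = x := by
      rw [LinearEquiv.symm_apply_eq, he', hψ, hx]
      have h7 : (Fin.cons (φ₁.symm ⟨a, ha⟩) (Fin.cons (0 : E) (φ₃.symm ⟨b, hb⟩)) :
        Fin (n + 3) → E) 1 = 0 := rfl
      have h8 : (fun i : Fin (n + 1) => (Fin.cons (φ₁.symm ⟨a, ha⟩)
        (Fin.cons (0 : E) (φ₃.symm ⟨b, hb⟩)) : Fin (n + 3) → E) i.succ.succ) =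
          φ₃.symm ⟨b, hb⟩ := rfl
      rw [h7, h8, map_zero, Fin.cons_zero, LinearEquiv.apply_symm_apply,
        LinearEquiv.apply_symm_apply]
      simp
    rw [h5, hx]
    rfl
  have hW' : ∀ v, (e'.symm v) 1 = 0 → v ∈ V₁ ⊔ V₃ := by
    intro v hv
    have h5 : v = ψ (e'.symm v) := by
      rw [← he', LinearEquiv.apply_symm_apply]
    rw [hψ, hv, map_zero] at h5
    rw [h5]
    simp only [ZeroMemClass.coe_zero, add_zero]
    exact Submodule.add_mem_sup (φ₁ _).2 (φ₃ _).2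
  have hsingle : ∀ x : E, e' (Pi.single 0 x) = (φ₁ x : V) := by
    intro x
    rw [he', hψ]
    have h5 : (fun i : Fin (n + 1) => (Pi.single 0 x : Fin (n + 3) → E) i.succ.succ) = 0 := by
      funext i
      exact Pi.single_eq_of_ne (Fin.succ_ne_zero _) x
    have h6 : (Pi.single 0 x : Fin (n + 3) → E) 1 = 0 := single_one (n := n + 1) x
    rw [h5, h6, map_zero, map_zero, Pi.single_eq_same]
    simp
  refine ⟨e'.symm, l ∘ₗ T ∘ₗ V₁.subtype ∘ₗ φ₁.toLinearMap, (e'.symm (T v₁)) 1, ?_, ?_, ?_⟩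
  · intro h0
    have h5 := hker (hW' _ h0)
    rw [LinearMap.mem_ker, hlT] at h5
    exact one_ne_zero h5
  · intro h0
    have h5 := LinearMap.congr_fun h0 (φ₁.symm ⟨v₁, hv₁⟩)
    simp only [LinearMap.comp_apply, LinearEquiv.coe_coe, LinearEquiv.apply_symm_apply,
      Submodule.subtype_apply, LinearMap.zero_apply] at h5
    rw [hlT] at h5
    exact one_ne_zero h5
  · intro x
    rw [LinearEquiv.symm_symm, hsingle]
    have h5 := hW _ (hTx (φ₁ x) (φ₁ x).2)
    rw [map_sub, map_smul, Pi.sub_apply, Pi.smul_apply, sub_eq_zero] at h5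
    exact h5

end geom

section alg

variable {K E : Type*} [Field K] [Field E] [Algebra K E] [FiniteDimensional K E]

theorem riesz [Algebra.IsSeparable K E] (f : E →ₗ[K] K) :
    ∃ w : E, ∀ x, f x = Algebra.trace K E (w * x) := by
  refine ⟨((Algebra.traceForm K E).toDual (traceForm_nondegenerate K E)).symm f, fun x => ?_⟩
  have h := LinearMap.BilinForm.apply_toDual_symm_apply (hB := traceForm_nondegenerate K E) f x
  rw [Algebra.traceForm_apply] at h
  exact h.symm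

omit [FiniteDimensional K E] in
theorem mv_smul_one {n : ℕ} (z : E) (x : Fin n → E) :
    mv K (z • (1 : Matrix (Fin n) (Fin n) E)) x = fun i => z * x i := by
  change (z • (1 : Matrix (Fin n) (Fin n) E)) *ᵥ x = _
  rw [Matrix.smul_mulVec, Matrix.one_mulVec]
  rfl

theorem part3 [Algebra.IsSeparable K E] {n : ℕ}
    (T' : (Fin (n + 2) → E) →ₗ[K] (Fin (n + 2) → E)) (ω : E →ₗ[K] K) (u : E) (hu : u ≠ 0)
    (hω : ω ≠ 0) (hR : ∀ x, (T' (Pi.single 0 x)) 1 = ω x • u) (y : E)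
    (hy : Algebra.trace K E y = LinearMap.trace K (Fin (n + 2) → E) T') :
    ∃ g : (Fin (n + 2) → E) ≃ₗ[K] (Fin (n + 2) → E),
      (∀ z : E, LinearMap.trace K (Fin (n + 2) → E)
        (mv K (z • (1 : Matrix (Fin (n + 2)) (Fin (n + 2)) E)) ∘ₗ
          (g.toLinearMap ∘ₗ T' ∘ₗ g.symm.toLinearMap)) = Algebra.trace K E (z * y)) ∧
      ∃ N : Matrix (Fin (n + 2)) (Fin (n + 2)) E, N.trace = 0 ∧
        LinearMap.trace K (Fin (n + 2) → E) (mv K N ∘ₗ
          (g.toLinearMap ∘ₗ T' ∘ₗ g.symm.toLinearMap)) ≠ 0 := by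
  obtain ⟨w, hw⟩ := riesz ω
  have hw0 : w ≠ 0 := by
    rintro rfl
    apply hω
    apply LinearMap.ext
    intro x
    rw [hw, zero_mul, map_zero]
    rfl
  have hmadd : ∀ z z' : E, mv K ((z + z') • (1 : Matrix (Fin (n + 2)) (Fin (n + 2)) E)) =
      mv K (z • (1 : Matrix (Fin (n + 2)) (Fin (n + 2)) E)) +
        mv K (z' • (1 : Matrix (Fin (n + 2)) (Fin (n + 2)) E)) := by
    intro z z'
    apply LinearMap.ext
    intro x
    rw [LinearMap.add_apply, mv_smul_one, mv_smul_one, mv_smul_one]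
    funext i
    exact add_mul _ _ _
  have hmsmul : ∀ (c : K) (z : E), mv K ((c • z) • (1 : Matrix (Fin (n + 2)) (Fin (n + 2)) E)) =
      c • mv K (z • (1 : Matrix (Fin (n + 2)) (Fin (n + 2)) E)) := by
    intro c z
    apply LinearMap.ext
    intro x
    rw [LinearMap.smul_apply, mv_smul_one, mv_smul_one]
    funext i
    exact smul_mul_assoc _ _ _
  let Φ : E →ₗ[K] K :=
    { toFun := fun z => LinearMap.trace K (Fin (n + 2) → E)
        (mv K (z • (1 : Matrix (Fin (n + 2)) (Fin (n + 2)) E)) ∘ₗ T')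
      map_add' := by
        intro z z'
        rw [hmadd, LinearMap.add_comp, map_add]
      map_smul' := by
        intro c z
        rw [hmsmul, LinearMap.smul_comp, map_smul]
        rfl }
  have hΦ : ∀ z, Φ z = LinearMap.trace K (Fin (n + 2) → E)
        (mv K (z • (1 : Matrix (Fin (n + 2)) (Fin (n + 2)) E)) ∘ₗ T') := fun z => rfl
  obtain ⟨y', hy'⟩ := riesz Φ
  have hone : mv K ((1 : E) • (1 : Matrix (Fin (n + 2)) (Fin (n + 2)) E)) = LinearMap.id := by
    apply LinearMap.ext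
    intro x
    rw [mv_smul_one]
    funext i
    exact one_mul _
  have hδ : Algebra.trace K E (y - y') = 0 := by
    have h1 := hy' 1
    rw [hΦ, hone, LinearMap.id_comp, mul_one] at h1
    rw [map_sub, hy, h1, sub_self]
  obtain ⟨δ, hδe⟩ : ∃ δ, δ = y - y' := ⟨_, rfl⟩
  rw [← hδe] at hδ
  obtain ⟨d, hd⟩ := Algebra.trace_surjective K E 1
  obtain ⟨Z, hZ⟩ : ∃ Z : E →ₗ[K] E, ∀ x, Z x = Algebra.trace K E (d / u * x) • (δ / w) :=
    ⟨(Algebra.trace K E ∘ₗ LinearMap.mulLeft K (d / u)).smulRight (δ / w), fun x => rfl⟩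
  obtain ⟨S, hS⟩ : ∃ S : E →ₗ[K] (Fin (n + 2) → E), ∀ x, S x = Pi.single 0 x :=
    ⟨LinearMap.single K (fun _ => E) 0, fun x => rfl⟩
  obtain ⟨P, hP⟩ : ∃ P : (Fin (n + 2) → E) →ₗ[K] E, ∀ x, P x = x 1 :=
    ⟨LinearMap.proj 1, fun x => rfl⟩
  have hPS : ∀ x, P (S x) = 0 := by
    intro x
    rw [hP, hS]
    exact single_one x
  obtain ⟨G, hG⟩ : ∃ G : (Fin (n + 2) → E) →ₗ[K] (Fin (n + 2) → E),
      ∀ x, G x = x + S (Z (P x)) := ⟨LinearMap.id + S ∘ₗ Z ∘ₗ P, fun x => rfl⟩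
  obtain ⟨G', hG'⟩ : ∃ G' : (Fin (n + 2) → E) →ₗ[K] (Fin (n + 2) → E),
      ∀ x, G' x = x - S (Z (P x)) := ⟨LinearMap.id - S ∘ₗ Z ∘ₗ P, fun x => rfl⟩
  have hGG' : G ∘ₗ G' = LinearMap.id := by
    apply LinearMap.ext
    intro x
    rw [LinearMap.comp_apply, hG, hG', map_sub, hPS, sub_zero, LinearMap.id_apply,
      sub_add_cancel]
  have hG'G : G' ∘ₗ G = LinearMap.id := by
    apply LinearMap.ext
    intro x
    rw [LinearMap.comp_apply, hG', hG, map_add, hPS, add_zero, LinearMap.id_apply,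
      add_sub_cancel_right]
  have hmS : ∀ z x, mv K (z • (1 : Matrix (Fin (n + 2)) (Fin (n + 2)) E)) (S x) = S (z * x) := by
    intro z x
    rw [mv_smul_one, hS, hS]
    funext i
    by_cases hi : i = 0
    · subst hi
      rw [Pi.single_eq_same, Pi.single_eq_same]
    · rw [Pi.single_eq_of_ne hi, Pi.single_eq_of_ne hi, mul_zero]
  have hPm : ∀ z x, P (mv K (z • (1 : Matrix (Fin (n + 2)) (Fin (n + 2)) E)) x) = z * P x := by
    intro z x
    rw [mv_smul_one, hP, hP]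
  have hR' : P ∘ₗ T' ∘ₗ S = ω.smulRight u := by
    apply LinearMap.ext
    intro x
    rw [LinearMap.comp_apply, LinearMap.comp_apply, hP, hS, hR]
    rfl
  have hrank : ∀ F : E →ₗ[K] E, LinearMap.trace K (Fin (n + 2) → E) (S ∘ₗ F ∘ₗ P ∘ₗ T') =
      ω (F u) := by
    intro F
    rw [LinearMap.trace_comp_comm' (F ∘ₗ P ∘ₗ T') S, LinearMap.comp_assoc, LinearMap.comp_assoc,
      hR']
    have h1 : F ∘ₗ ω.smulRight u = ω.smulRight (F u) := by
      apply LinearMap.ext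
      intro x
      change F (ω x • u) = ω x • F u
      rw [map_smul]
    rw [h1, LinearMap.trace_smulRight]
  refine ⟨LinearEquiv.ofLinearMap G G' hGG' hG'G, ?_, ?_⟩
  · intro z
    change LinearMap.trace K (Fin (n + 2) → E)
        (mv K (z • (1 : Matrix (Fin (n + 2)) (Fin (n + 2)) E)) ∘ₗ (G ∘ₗ T' ∘ₗ G')) = _
    obtain ⟨F, hF⟩ : ∃ F : E →ₗ[K] E, ∀ x, F x = z * Z x - Z (z * x) :=
      ⟨LinearMap.mulLeft K z ∘ₗ Z - Z ∘ₗ LinearMap.mulLeft K z, fun x => rfl⟩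
    have hconj : G' ∘ₗ mv K (z • (1 : Matrix (Fin (n + 2)) (Fin (n + 2)) E)) ∘ₗ G =
        mv K (z • (1 : Matrix (Fin (n + 2)) (Fin (n + 2)) E)) + S ∘ₗ F ∘ₗ P := by
      apply LinearMap.ext
      intro x
      rw [LinearMap.comp_apply, LinearMap.comp_apply, LinearMap.add_apply, LinearMap.comp_apply,
        LinearMap.comp_apply, hG', hG, map_add, hmS, map_add, hPS, hPm, add_zero, hF, map_sub]
      abel
    have h1 : mv K (z • (1 : Matrix (Fin (n + 2)) (Fin (n + 2)) E)) ∘ₗ (G ∘ₗ T' ∘ₗ G') =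
        (mv K (z • (1 : Matrix (Fin (n + 2)) (Fin (n + 2)) E)) ∘ₗ G ∘ₗ T') ∘ₗ G' := by
      simp only [LinearMap.comp_assoc]
    have h2 : G' ∘ₗ (mv K (z • (1 : Matrix (Fin (n + 2)) (Fin (n + 2)) E)) ∘ₗ G ∘ₗ T') =
        (G' ∘ₗ mv K (z • (1 : Matrix (Fin (n + 2)) (Fin (n + 2)) E)) ∘ₗ G) ∘ₗ T' := by
      simp only [LinearMap.comp_assoc]
    rw [h1, LinearMap.trace_comp_comm', h2, hconj, LinearMap.add_comp, map_add]
    have h3 : (S ∘ₗ F ∘ₗ P) ∘ₗ T' = S ∘ₗ F ∘ₗ P ∘ₗ T' := by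
      simp only [LinearMap.comp_assoc]
    rw [h3, hrank, ← hΦ, hy', hw, hF, hZ, hZ]
    have e1 : d / u * u = d := div_mul_cancel₀ d hu
    have e2 : d / u * (z * u) = d * z := by
      field_simp
    rw [e1, e2, hd, one_smul]
    have e3 : w * (z * (δ / w) - Algebra.trace K E (d * z) • (δ / w)) =
        z * δ - Algebra.trace K E (d * z) • δ := by
      rw [mul_sub, mul_smul_comm]
      congr 1
      · field_simp
      · rw [mul_div_cancel₀ _ hw0]
    rw [e3, map_sub, map_smul, hδ, smul_zero, sub_zero, hδe, mul_sub, map_sub, mul_comm y' z,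
      add_sub_cancel]
  · obtain ⟨N, hN⟩ : ∃ N : Matrix (Fin (n + 2)) (Fin (n + 2)) E,
      N = Matrix.single 0 1 (d / (w * u)) := ⟨_, rfl⟩
    refine ⟨N, ?_, ?_⟩
    · rw [hN]
      exact Matrix.trace_single_eq_of_ne 0 1 _ (Fin.zero_ne_one (n := n))
    · change LinearMap.trace K (Fin (n + 2) → E) (mv K N ∘ₗ (G ∘ₗ T' ∘ₗ G')) ≠ 0
      have h1 : G' ∘ₗ mv K N ∘ₗ G = S ∘ₗ LinearMap.mulLeft K (d / (w * u)) ∘ₗ P := by
        have h2 : ∀ x, mv K N x = S (d / (w * u) * P x) := by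
          intro x
          change N *ᵥ x = _
          rw [hN, Matrix.single_mulVec, hS, hP]
          rfl
        apply LinearMap.ext
        intro x
        rw [LinearMap.comp_apply, LinearMap.comp_apply, LinearMap.comp_apply,
          LinearMap.comp_apply, h2, hG', hPS, map_zero, map_zero, sub_zero, hG, map_add, hPS,
          add_zero]
        rfl
      have h2 : mv K N ∘ₗ (G ∘ₗ T' ∘ₗ G') = (mv K N ∘ₗ G ∘ₗ T') ∘ₗ G' := by
        simp only [LinearMap.comp_assoc]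
      have h3 : G' ∘ₗ (mv K N ∘ₗ G ∘ₗ T') = (G' ∘ₗ mv K N ∘ₗ G) ∘ₗ T' := by
        simp only [LinearMap.comp_assoc]
      have h4 : (S ∘ₗ LinearMap.mulLeft K (d / (w * u)) ∘ₗ P) ∘ₗ T' =
          S ∘ₗ LinearMap.mulLeft K (d / (w * u)) ∘ₗ P ∘ₗ T' := by
        simp only [LinearMap.comp_assoc]
      rw [h2, LinearMap.trace_comp_comm', h3, h1, h4, hrank, hw]
      have e1 : w * (LinearMap.mulLeft K (d / (w * u)) u) = d := by
        rw [LinearMap.mulLeft_apply]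
        field_simp
      rw [e1, hd]
      exact one_ne_zero

end alg

end EStrAux

theorem e_struct {K V E : Type*} [Field K] [AddCommGroup V] [Module K V] [FiniteDimensional K V]
    [Field E] [Algebra K E] [FiniteDimensional K E] [Algebra.IsSeparable K E]
    (T : V →ₗ[K] V) (hT : ∀ μ : K, T ≠ μ • LinearMap.id) (s : ℕ) (hs : 3 ≤ s)
    (hV : Module.finrank K V = s * Module.finrank K E) (y : E)
    (hy : Algebra.trace K E y = LinearMap.trace K V T) :
    ∃ e : V ≃ₗ[K] (Fin s → E),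
      (∀ z : E, LinearMap.trace K (Fin s → E)
        (mv K (z • (1 : Matrix (Fin s) (Fin s) E)) ∘ₗ
          (e.toLinearMap ∘ₗ T ∘ₗ e.symm.toLinearMap)) = Algebra.trace K E (z * y)) ∧
      ∃ N : Matrix (Fin s) (Fin s) E, N.trace = 0 ∧
        LinearMap.trace K (Fin s → E) (mv K N ∘ₗ
          (e.toLinearMap ∘ₗ T ∘ₗ e.symm.toLinearMap)) ≠ 0 := by
  obtain ⟨n, rfl⟩ : ∃ n, s = n + 3 := ⟨s - 3, by omega⟩
  obtain ⟨e₀, ω, u, hu, hω, hR⟩ := EStrAux.exists_e0 (E := E) T hT hV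
  obtain ⟨T', hT'⟩ : ∃ T' : (Fin (n + 3) → E) →ₗ[K] (Fin (n + 3) → E),
      T' = e₀.toLinearMap ∘ₗ T ∘ₗ e₀.symm.toLinearMap := ⟨_, rfl⟩
  have htr : Algebra.trace K E y = LinearMap.trace K (Fin (n + 3) → E) T' := by
    rw [hy, ← LinearMap.trace_conj' T e₀, hT', LinearEquiv.conj_apply, LinearMap.comp_assoc]
  obtain ⟨g, hg1, N, hN, hg2⟩ := EStrAux.part3 (n := n + 1) T' ω u hu hω (fun x => by
    rw [hT']
    exact hR x) y htr
  have hcomp : (e₀.trans g).toLinearMap ∘ₗ T ∘ₗ (e₀.trans g).symm.toLinearMap =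
      g.toLinearMap ∘ₗ T' ∘ₗ g.symm.toLinearMap := by
    rw [hT']
    rfl
  refine ⟨e₀.trans g, ?_, N, hN, ?_⟩
  · intro z
    rw [hcomp]
    exact hg1 z
  · rw [hcomp]
    exact hg2

end Pool.Agent.P5f
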