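import Pool.Agent.Lib.P5f.OffD
import Pool.Agent.Lib.P5f.Dia
import Pool.Agent.Lib.P5f.Asm
import Pool.Agent.Lib.P5f.Avoid

/-!
# Values from decompositions over extension fields
-/

open Finset Matrix

namespace Pool.Agent.P5f

open Pool.Agent.P5m Pool.Agent.P5q

variable {r : ℕ}

theorem lval_conj {K V W : Type*} [Field K] [AddCommGroup V] [Module K V] [AddCommGroup W]
    [Module K W] (α : Equiv.Perm (Fin (r + 1)) → K) (e : V ≃ₗ[K] W)
    (A : Fin (r + 1) → Module.End K W) :
    lval α (fun q => e.symm.toLinearMap ∘ₗ A q ∘ₗ e.toLinearMap) =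
      e.symm.toLinearMap ∘ₗ lval α A ∘ₗ e.toLinearMap := by
  have hl : ∀ l : List (Module.End K W),
      (l.map fun B : Module.End K W => (e.symm.toLinearMap ∘ₗ B ∘ₗ e.toLinearMap : V →ₗ[K] V)).prod =
        (e.symm.toLinearMap ∘ₗ l.prod ∘ₗ e.toLinearMap : V →ₗ[K] V) := by
    intro l
    induction l with
    | nil =>
      ext v
      simp
    | cons B l ih =>
      rw [List.map_cons, List.prod_cons, ih, List.prod_cons]
      ext v
      simp
  unfold lval
  ext v
  simp only [LinearMap.sum_apply, LinearMap.smul_apply, LinearMap.comp_apply, map_sum, map_smul]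
  refine sum_congr rfl fun σ _ => ?_
  have h1 := hl (List.ofFn fun i => A (σ i))
  rw [List.map_ofFn] at h1
  have h2 := congrArg (fun f : V →ₗ[K] V => f v) h1
  simp only [LinearMap.comp_apply] at h2
  rw [← h2]
  rfl

theorem finrank_tot {K : Type*} [Field K] {ι : Type} [Fintype ι] (E : ι → FE K) (m : ι → ℕ) :
    Module.finrank K (∀ a, Fin (m a) → (E a).E) = ∑ a, m a * Module.finrank K (E a).E := by
  rw [Module.finrank_pi_fintype]
  refine sum_congr rfl fun a _ => ?_
  rw [Module.finrank_pi_fintype, sum_const, card_univ, Fintype.card_fin, smul_eq_mul]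

theorem value_of_fdec {K V : Type*} [Field K] [Finite K] [AddCommGroup V] [Module K V]
    [FiniteDimensional K V] (α : Equiv.Perm (Fin (r + 1)) → K) (T : V →ₗ[K] V) (Q M : ℕ)
    (h : FDec α T Q M)
    (hQ : Module.finrank K V * (1 + Module.finrank K V * (r * M ^ 2) +
      r * (M * Module.finrank K V)) < 2 ^ (Q / 2)) :
    ∃ A : Fin (r + 1) → Module.End K V, lval α A = T := by
  classical
  obtain ⟨ι, _, _, E, m, e, hE, hm, hD⟩ := h
  choose D hAtt hEp using hD
  choose C X hC hX using hAtt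
  set n := Module.finrank K V with hn
  have hsum : ∑ a, m a * Module.finrank K (E a).E = n := by
    rw [← finrank_tot, hn]
    exact (LinearEquiv.finrank_eq e).symm
  have hfin : ∀ a, Finite (E a).E := fun a => Module.finite_of_finite K
  have hpos : ∀ a, 0 < Module.finrank K (E a).E := fun a => Module.finrank_pos
  have hle : ∀ a, m a * Module.finrank K (E a).E ≤ n := by
    intro a
    rw [← hsum]
    exact single_le_sum (f := fun a => m a * Module.finrank K (E a).E) (fun _ _ => Nat.zero_le _)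
      (mem_univ a)
  have hta : ∀ a, Module.finrank K (E a).E ≤ n := fun a =>
    le_trans (Nat.le_mul_of_pos_left _ (hm a).1) (hle a)
  have hcard : Fintype.card ι ≤ n := by
    rw [← hsum, ← card_univ, card_eq_sum_ones]
    exact sum_le_sum fun a _ => Nat.mul_pos (hm a).1 (hpos a)
  set T' : (∀ a, Fin (m a) → (E a).E) →ₗ[K] (∀ a, Fin (m a) → (E a).E) :=
    e.toLinearMap ∘ₗ T ∘ₗ e.symm.toLinearMap with hT'
  set Taa : ∀ a, (Fin (m a) → (E a).E) →ₗ[K] (Fin (m a) → (E a).E) := fun a =>
    LinearMap.proj a ∘ₗ T' ∘ₗ LinearMap.single K (fun a => Fin (m a) → (E a).E) a with hTaa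
  -- the bad events
  set bad : ι → (∀ a, (E a).E) → Prop := fun a S =>
    (S a = 0 ∨ ¬ ∃ Y : (Fin (m a) → (E a).E) →ₗ[K] (Fin (m a) → (E a).E),
      Lop α (fun q => mv K (S a • C a q)) (fun q => mv K (S a • C a q)) Y = Taa a) ∨
    ∃ b, b ≠ a ∧ S b ≠ 0 ∧ ¬ ∀ R : (Fin (m b) → (E b).E) →ₗ[K] (Fin (m a) → (E a).E),
      ∃ Y : (Fin (m b) → (E b).E) →ₗ[K] (Fin (m a) → (E a).E),
        Lop α (fun q => mv K (S a • C a q)) (fun q => mv K (S b • C b q)) Y = R with hbad
  set B : ι → ℕ := fun a => 1 + Module.finrank K (E a).E *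
    (r * m a ^ 2 * Nat.sqrt (Nat.card (E a).E)) + r * (m a * n) with hB
  have hcount : ∀ a (S : ∀ a, (E a).E), {x : (E a).E | bad a (Function.update S a x)}.ncard ≤
      B a := by
    intro a S
    have h1 : {x : (E a).E | bad a (Function.update S a x)} ⊆
        {x : (E a).E | x = 0 ∨ ¬ ∃ Y : (Fin (m a) → (E a).E) →ₗ[K] (Fin (m a) → (E a).E),
          Lop α (fun q => mv K (x • C a q)) (fun q => mv K (x • C a q)) Y = Taa a} ∪
        ⋃ b ∈ univ.filter (fun b => S b ≠ 0),
          {x : (E a).E | ¬ ∀ R : (Fin (m b) → (E b).E) →ₗ[K] (Fin (m a) → (E a).E),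
            ∃ Y : (Fin (m b) → (E b).E) →ₗ[K] (Fin (m a) → (E a).E),
              Lop α (fun q => mv K (x • C a q)) (fun q => mv K (S b • C b q)) Y = R} := by
      intro x hx
      rw [Set.mem_ofPred_eq, hbad] at hx
      rcases hx with hx | ⟨b, hb, hSb, hx⟩
      · left
        rw [Function.update_self] at hx
        exact hx
      · right
        rw [Function.update_self] at hx
        rw [Function.update_of_ne hb] at hx hSb
        simp only [Set.mem_iUnion]
        exact ⟨b, mem_filter.2 ⟨mem_univ _, hSb⟩, hx⟩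
    refine le_trans (Set.ncard_le_ncard h1 (Set.toFinite _)) ?_
    refine le_trans (Set.ncard_union_le _ _) ?_
    refine add_le_add (dia_bad α (m a) (C a) (X a) (D a) (hC a) (hX a) (Taa a) (hEp a)) ?_
    have h2 : ∀ s : Finset ι, (∀ b ∈ s, S b ≠ 0) → (⋃ b ∈ s,
          {x : (E a).E | ¬ ∀ R : (Fin (m b) → (E b).E) →ₗ[K] (Fin (m a) → (E a).E),
            ∃ Y : (Fin (m b) → (E b).E) →ₗ[K] (Fin (m a) → (E a).E),
              Lop α (fun q => mv K (x • C a q)) (fun q => mv K (S b • C b q)) Y = R}).ncard ≤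
          ∑ b ∈ s, r * (m a * (m b * Module.finrank K (E b).E)) := by
      intro s
      induction s using Finset.induction_on with
      | empty => intro _; simp
      | insert b s hbs ih =>
        intro hs
        rw [Finset.set_biUnion_insert, sum_insert hbs]
        refine le_trans (Set.ncard_union_le _ _) (add_le_add ?_ ?_)
        · exact (off_bad α (m a) (m b) (C a) (C b) (hC b) (S b) (hs b (mem_insert_self _ _))).2
        · exact ih fun b' hb' => hs b' (mem_insert_of_mem hb')
    refine le_trans (h2 _ fun b hb => (mem_filter.1 hb).2) ?_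
    refine le_trans (sum_le_sum_of_subset (filter_subset _ _)) ?_
    rw [← mul_sum, ← mul_sum, hsum]
  have hBcard : ∀ a, Fintype.card ι * B a < Nat.card (E a).E := by
    intro a
    set s := Nat.sqrt (Nat.card (E a).E) with hs
    have hs1 : 2 ^ (Q / 2) ≤ s := by
      rw [hs, Nat.le_sqrt, ← pow_add, Module.natCard_eq_pow_finrank (K := K) (V := (E a).E)]
      refine le_trans (Nat.pow_le_pow_right (by norm_num) (?_ : Q / 2 + Q / 2 ≤ Q)) ?_
      · omega
      · refine le_trans (Nat.pow_le_pow_right (by norm_num) (hE a)) ?_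
        exact Nat.pow_le_pow_left Finite.one_lt_card _
    have hs0 : 1 ≤ s := le_trans Nat.one_le_two_pow hs1
    have hs2 : s * s ≤ Nat.card (E a).E := Nat.sqrt_le _
    have hBa : B a ≤ (1 + n * (r * M ^ 2) + r * (M * n)) * s := by
      rw [hB]
      simp only
      have e1 : m a ^ 2 ≤ M ^ 2 := Nat.pow_le_pow_left (hm a).2 2
      have e2 : Module.finrank K (E a).E * (r * m a ^ 2 * s) ≤ n * (r * M ^ 2) * s := by
        rw [mul_assoc n]
        exact Nat.mul_le_mul (hta a) (Nat.mul_le_mul_right _ (Nat.mul_le_mul_left _ e1))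
      have e3 : r * (m a * n) ≤ r * (M * n) * s :=
        le_trans (Nat.mul_le_mul_left _ (Nat.mul_le_mul_right _ (hm a).2))
          (Nat.le_mul_of_pos_right _ hs0)
      rw [add_mul, add_mul, one_mul]
      exact add_le_add (add_le_add hs0 e2) e3
    calc Fintype.card ι * B a ≤ n * ((1 + n * (r * M ^ 2) + r * (M * n)) * s) :=
          Nat.mul_le_mul hcard hBa
      _ = n * (1 + n * (r * M ^ 2) + r * (M * n)) * s := by ring
      _ < 2 ^ (Q / 2) * s := Nat.mul_lt_mul_of_pos_right hQ hs0
      _ ≤ s * s := Nat.mul_le_mul_right _ hs1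
      _ ≤ _ := hs2
  obtain ⟨S, hS⟩ := avoid (fun a => (E a).E) bad B hcount hBcard
  have hS' : ∀ a, (S a ≠ 0 ∧ ∃ Y : (Fin (m a) → (E a).E) →ₗ[K] (Fin (m a) → (E a).E),
      Lop α (fun q => mv K (S a • C a q)) (fun q => mv K (S a • C a q)) Y = Taa a) ∧
      ∀ b, b ≠ a → S b ≠ 0 → ∀ R : (Fin (m b) → (E b).E) →ₗ[K] (Fin (m a) → (E a).E),
        ∃ Y : (Fin (m b) → (E b).E) →ₗ[K] (Fin (m a) → (E a).E),
          Lop α (fun q => mv K (S a • C a q)) (fun q => mv K (S b • C b q)) Y = R := by
    intro a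
    have h1 := hS a
    rw [hbad] at h1
    simp only [not_or, not_exists, not_and, not_not, ne_eq, not_forall] at h1
    refine ⟨⟨h1.1.1, h1.1.2⟩, ?_⟩
    intro b hb hSb R
    exact h1.2 b hb hSb R
  obtain ⟨A, hA⟩ := asm_solve (fun a => Fin (m a) → (E a).E) α
    (fun a q => mv K (S a • C a q)) T' (by
      intro a b
      by_cases hab : b = a
      · subst hab
        exact (hS' b).1.2
      · exact (hS' a).2 b hab (hS' b).1.1 _)
  refine ⟨fun q => e.symm.toLinearMap ∘ₗ A q ∘ₗ e.toLinearMap, ?_⟩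
  rw [lval_conj, hA, hT']
  ext v
  simp

end Pool.Agent.P5f
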