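import Pool.Agent.Lib.P5f.TwB

/-!
# From a matrix decomposition over the extension field to a decomposition over the base field

GOAL: `fdec_of_decM`.

PROOF (complete).  Let `(κ, s, ε, P, P', D)` be the data of `DecM (ext E α) T₀` (see
`Pool/Agent/Lib/P5f/Defs.lean`): `P' * P = 1`, so `P * P' = 1` (`Matrix.mul_eq_one_comm`), and
`(P' * T₀ * P) (ε ⟨a, i⟩) (ε ⟨a, j⟩) = if i = j then D a i else 0`.  Take in `FDec` the index type `ι = κ`
(decidable equality by `Classical`), all fields equal to `E`, `m = s` (`1 ≤ s a` is in `DecM`, and `s a ≤ n`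
since `Fin (s a)` embeds into `Fin n` by `i ↦ ε ⟨a, i⟩`), and the isomorphism
`V ≃ (Fin n → E) ≃ (Fin n → E) ≃ (∀ a, Fin (s a) → E)`, the given `e`, then `mv K P'` (with inverse
`mv K P`), then `x ↦ fun a i => x (ε ⟨a, i⟩)`, a linear isomorphism `c` (with inverse
`y ↦ fun j => y (ε.symm j).1 (ε.symm j).2`).
The transported map is `c (P' (e T e⁻¹) P) c⁻¹`.  By `ep_conj` the map `R' = mv K P' ∘ (e T e⁻¹) ∘ mv K P` has
`Ep R' (P' * T₀ * P)`; write `R' = ∑ g, twl g (N g)` with `N 1 = P' * T₀ * P`.  The block of `c R' c⁻¹` at `a` is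
`∑ g, twl g ((N g).submatrix (fun i => ε ⟨a, i⟩) (fun j => ε ⟨a, j⟩))` (for `x : Fin (s a) → E`:
`c⁻¹ (Pi.single a x)` is `x i` at `ε ⟨a, i⟩` and `0` elsewhere; apply `N g *ᵥ (g ∘ ·)` and read the entries at
`ε ⟨a, i⟩`; `g 0 = 0`), and the component for `g = 1` is `diagonal (D a)` by the identity above.
-/

open Finset Matrix

namespace Pool.Agent.P5f

open Pool.Agent.P5m Pool.Agent.P5q

namespace FOneAux

open TwBAux

section
variable {K E : Type*} [Field K] [Field E] [Algebra K E]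

/-- A matrix with an inverse gives an isomorphism. -/
def mvEquiv (K : Type*) {E : Type*} [Field K] [Field E] [Algebra K E] {n : ℕ}
    (P P' : Matrix (Fin n) (Fin n) E) (h : P * P' = 1) (h' : P' * P = 1) :
    (Fin n → E) ≃ₗ[K] (Fin n → E) :=
  LinearEquiv.ofLinear (mv K P) (mv K P')
    (LinearMap.ext fun x => by
      rw [LinearMap.comp_apply, mv_apply, mv_apply, Matrix.mulVec_mulVec, h, Matrix.one_mulVec]
      rfl)
    (LinearMap.ext fun x => by
      rw [LinearMap.comp_apply, mv_apply, mv_apply, Matrix.mulVec_mulVec, h', Matrix.one_mulVec]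
      rfl)

/-- Splitting the coordinates. -/
def splitEquiv (K E : Type*) [Field K] [Field E] [Algebra K E] {n : ℕ} {κ : Type} (s : κ → ℕ)
    (ε : (Σ a, Fin (s a)) ≃ Fin n) : (Fin n → E) ≃ₗ[K] (∀ a, Fin (s a) → E) where
  toFun x := fun a i => x (ε ⟨a, i⟩)
  map_add' _ _ := rfl
  map_smul' _ _ := rfl
  invFun y := fun j => y (ε.symm j).1 (ε.symm j).2
  left_inv x := by
    funext j
    change x (ε ⟨(ε.symm j).1, (ε.symm j).2⟩) = x j
    rw [Sigma.eta, Equiv.apply_symm_apply]
  right_inv y := by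
    funext a i
    change y (ε.symm (ε ⟨a, i⟩)).1 (ε.symm (ε ⟨a, i⟩)).2 = y a i
    rw [Equiv.symm_apply_apply]

end

end FOneAux

open FOneAux TwBAux

theorem fdec_of_decM {r : ℕ} {K V : Type*} [Field K] [AddCommGroup V] [Module K V]
    (α : Equiv.Perm (Fin (r + 1)) → K) (T : V →ₗ[K] V) (E : FE K) {n : ℕ}
    (e : V ≃ₗ[K] (Fin n → E.E)) (T₀ : Matrix (Fin n) (Fin n) E.E)
    (hT : Ep (e.toLinearMap ∘ₗ T ∘ₗ e.symm.toLinearMap) T₀) (h : DecM (ext E.E α) T₀) (Q M : ℕ)
    (hQ : Q ≤ Module.finrank K E.E) (hM : n ≤ M) : FDec α T Q M := by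
  classical
  obtain ⟨κ, hκ, s, ε, P, P', D, hs, hP, hD, hb⟩ := h
  have hP' : P * P' = 1 := mul_eq_one_comm.1 hP
  refine ⟨κ, hκ, Classical.decEq κ, fun _ => E, s,
    (e.trans (mvEquiv K P' P hP hP')).trans (splitEquiv K E.E s ε), fun _ => hQ, ?_, ?_⟩
  · intro a
    refine ⟨hs a, le_trans ?_ hM⟩
    have h1 : Function.Injective (fun i : Fin (s a) => ε ⟨a, i⟩) := by
      intro i j hij
      have h2 := ε.injective hij
      exact eq_of_heq (Sigma.mk.inj_iff.1 h2).2
    have h3 := Fintype.card_le_of_injective _ h1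
    rwa [Fintype.card_fin, Fintype.card_fin] at h3
  · intro a
    refine ⟨D a, hD a, ?_⟩
    obtain ⟨N, hN, hR⟩ := ep_conj hT P' P
    refine ⟨fun g => (N g).submatrix (fun i => ε ⟨a, i⟩) (fun j => ε ⟨a, j⟩), ?_, ?_⟩
    · dsimp only
      rw [hN]
      ext i j
      rw [Matrix.submatrix_apply, hb, Matrix.diagonal_apply]
    · refine LinearMap.ext fun x => ?_
      funext i
      have h4 : ∀ y : Fin n → E.E, (mvEquiv K P' P hP hP') (e (T (e.symm
          ((mvEquiv K P' P hP hP').symm y)))) = (∑ g, twl g (N g)) y := by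
        intro y
        rw [← hR]
        rfl
      change (mvEquiv K P' P hP hP') (e (T (e.symm ((mvEquiv K P' P hP hP').symm
        ((splitEquiv K E.E s ε).symm (Pi.single a x)))))) (ε ⟨a, i⟩) = _
      rw [h4, LinearMap.sum_apply, LinearMap.sum_apply, Finset.sum_apply, Finset.sum_apply]
      refine Finset.sum_congr rfl fun g _ => ?_
      rw [twl_apply, twl_apply]
      simp only [Matrix.mulVec, dotProduct, Matrix.submatrix_apply]
      rw [← Equiv.sum_comp ε, Fintype.sum_sigma, Finset.sum_eq_single a]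
      · refine Finset.sum_congr rfl fun j _ => ?_
        have h5 : (splitEquiv K E.E s ε).symm (Pi.single a x) (ε ⟨a, j⟩) = x j := by
          change (Pi.single a x : ∀ a, Fin (s a) → E.E) (ε.symm (ε ⟨a, j⟩)).1
            (ε.symm (ε ⟨a, j⟩)).2 = x j
          rw [Equiv.symm_apply_apply, Pi.single_eq_same]
        rw [h5]
      · intro b _ hba
        refine Finset.sum_eq_zero fun j _ => ?_
        have h5 : (splitEquiv K E.E s ε).symm (Pi.single a x) (ε ⟨b, j⟩) = 0 := by
          change (Pi.single a x : ∀ a, Fin (s a) → E.E) (ε.symm (ε ⟨b, j⟩)).1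
            (ε.symm (ε ⟨b, j⟩)).2 = 0
          rw [Equiv.symm_apply_apply, Pi.single_eq_of_ne hba]
          rfl
        rw [h5, map_zero, mul_zero]
      · intro h
        exact absurd (Finset.mem_univ _) h

end Pool.Agent.P5f
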