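import Pool.Agent.Lib.P5f.Defs

/-!
# Decompositions of direct sums

GOAL: `fdec_sum`.

PROOF (complete).  Let `(ι₁, E₁, m₁, e₁)`, `(ι₂, E₂, m₂, e₂)` be the data of `F₁, F₂` (see `FDec` in
`Pool/Agent/Lib/P5f/Defs.lean`).  Take `ι = ι₁ ⊕ ι₂`, `E = Sum.elim E₁ E₂`, `m = Sum.elim m₁ m₂`.  The isomorphism is
`V ≃ V₁ × V₂ ≃ (∀ a : ι₁, ..) × (∀ a : ι₂, ..) ≃ ∀ a : ι₁ ⊕ ι₂, Fin (m a) → (E a).E` (the last one is
`LinearEquiv.sumPiEquivProdPi` or `Equiv.sumPiEquivProdPi`-like; it can be built by hand with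
`Sum.rec`).  For `a = Sum.inl a₁` the block `proj a ∘ (e T e⁻¹) ∘ single a` is
`proj a₁ ∘ (e₁ T₁ e₁⁻¹) ∘ single a₁` : for `x` in the block, `e⁻¹ (single a x) = ε⁻¹ (e₁⁻¹ (single a₁ x), 0)`
where `ε : V ≃ V₁ × V₂` is the given isomorphism, and the first component of
`ε (T (ε⁻¹ (v, 0)))` is `T₁ v` by `h₁`.  Similarly for `Sum.inr`.
-/

open Finset Matrix

namespace Pool.Agent.P5f

open Pool.Agent.P5m Pool.Agent.P5q

theorem fdec_sum {r : ℕ} {K V V₁ V₂ : Type*} [Field K] [AddCommGroup V] [Module K V]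
    [AddCommGroup V₁] [Module K V₁] [AddCommGroup V₂] [Module K V₂]
    (α : Equiv.Perm (Fin (r + 1)) → K) (T : V →ₗ[K] V) (ε : V ≃ₗ[K] V₁ × V₂)
    (T₁ : V₁ →ₗ[K] V₁) (T₂ : V₂ →ₗ[K] V₂) (h₁ : ∀ v, (ε (T (ε.symm (v, 0)))).1 = T₁ v)
    (h₂ : ∀ v, (ε (T (ε.symm (0, v)))).2 = T₂ v) (Q M : ℕ) (F₁ : FDec α T₁ Q M)
    (F₂ : FDec α T₂ Q M) : FDec α T Q M := by
  obtain ⟨ι₁, ft₁, de₁, E₁, m₁, e₁, hQ₁, hM₁, hD₁⟩ := F₁
  obtain ⟨ι₂, ft₂, de₂, E₂, m₂, e₂, hQ₂, hM₂, hD₂⟩ := F₂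
  let A : ι₁ ⊕ ι₂ → Type := fun a => Fin (Sum.elim m₁ m₂ a) → (Sum.elim E₁ E₂ a).E
  let s : (∀ a, A a) ≃ₗ[K] (∀ t, A (Sum.inl t)) × (∀ t, A (Sum.inr t)) :=
    LinearEquiv.sumPiEquivProdPi K ι₁ ι₂ A
  let e : V ≃ₗ[K] (∀ a, A a) := ε.trans ((e₁.prodCongr e₂).trans s.symm)
  refine ⟨ι₁ ⊕ ι₂, inferInstance, inferInstance, Sum.elim E₁ E₂, Sum.elim m₁ m₂, e, ?_, ?_, ?_⟩
  · rintro (a | a)
    · exact hQ₁ a
    · exact hQ₂ a
  · rintro (a | a)
    · exact hM₁ a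
    · exact hM₂ a
  · rintro (a | a)
    · obtain ⟨D, hA, hE⟩ := hD₁ a
      refine ⟨D, hA, ?_⟩
      have hs : ∀ x : A (Sum.inl a), s (Pi.single (Sum.inl a) x) = (Pi.single a x, 0) := by
        intro x
        apply Prod.ext
        · funext t
          show (Pi.single (Sum.inl a) x : ∀ a, A a) (Sum.inl t) = (Pi.single a x : ∀ t, A (Sum.inl t)) t
          by_cases h : t = a
          · subst h
            rw [Pi.single_eq_same, Pi.single_eq_same]
          · rw [Pi.single_eq_of_ne h, Pi.single_eq_of_ne (fun h' => h (Sum.inl_injective h'))]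
        · funext t
          show (Pi.single (Sum.inl a) x : ∀ a, A a) (Sum.inr t) = 0
          rw [Pi.single_eq_of_ne (by simp)]
      have key : (LinearMap.proj (Sum.inl a) ∘ₗ (e.toLinearMap ∘ₗ T ∘ₗ e.symm.toLinearMap) ∘ₗ
          LinearMap.single K A (Sum.inl a) : A (Sum.inl a) →ₗ[K] A (Sum.inl a)) =
          LinearMap.proj a ∘ₗ (e₁.toLinearMap ∘ₗ T₁ ∘ₗ e₁.symm.toLinearMap) ∘ₗ
            LinearMap.single K (fun a => Fin (m₁ a) → (E₁ a).E) a := by
        refine LinearMap.ext fun x => ?_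
        show e (T (e.symm (Pi.single (Sum.inl a) x))) (Sum.inl a) = e₁ (T₁ (e₁.symm (Pi.single a x))) a
        have h3 : e.symm (Pi.single (Sum.inl a) x) = ε.symm (e₁.symm (Pi.single a x), 0) := by
          show ε.symm ((e₁.prodCongr e₂).symm (s (Pi.single (Sum.inl a) x))) = _
          rw [hs x]
          show ε.symm (e₁.symm (Pi.single a x), e₂.symm 0) = _
          rw [map_zero]
        rw [h3]
        show e₁ ((ε (T (ε.symm (e₁.symm (Pi.single a x), 0)))).1) a = _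
        rw [h₁]
      have hgoal := hE
      rw [← key] at hgoal
      exact hgoal
    · obtain ⟨D, hA, hE⟩ := hD₂ a
      refine ⟨D, hA, ?_⟩
      have hs : ∀ x : A (Sum.inr a), s (Pi.single (Sum.inr a) x) = (0, Pi.single a x) := by
        intro x
        apply Prod.ext
        · funext t
          show (Pi.single (Sum.inr a) x : ∀ a, A a) (Sum.inl t) = 0
          rw [Pi.single_eq_of_ne (by simp)]
        · funext t
          show (Pi.single (Sum.inr a) x : ∀ a, A a) (Sum.inr t) = (Pi.single a x : ∀ t, A (Sum.inr t)) t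
          by_cases h : t = a
          · subst h
            rw [Pi.single_eq_same, Pi.single_eq_same]
          · rw [Pi.single_eq_of_ne h, Pi.single_eq_of_ne (fun h' => h (Sum.inr_injective h'))]
      have key : (LinearMap.proj (Sum.inr a) ∘ₗ (e.toLinearMap ∘ₗ T ∘ₗ e.symm.toLinearMap) ∘ₗ
          LinearMap.single K A (Sum.inr a) : A (Sum.inr a) →ₗ[K] A (Sum.inr a)) =
          LinearMap.proj a ∘ₗ (e₂.toLinearMap ∘ₗ T₂ ∘ₗ e₂.symm.toLinearMap) ∘ₗ
            LinearMap.single K (fun a => Fin (m₂ a) → (E₂ a).E) a := by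
        refine LinearMap.ext fun x => ?_
        show e (T (e.symm (Pi.single (Sum.inr a) x))) (Sum.inr a) = e₂ (T₂ (e₂.symm (Pi.single a x))) a
        have h3 : e.symm (Pi.single (Sum.inr a) x) = ε.symm (0, e₂.symm (Pi.single a x)) := by
          show ε.symm ((e₁.prodCongr e₂).symm (s (Pi.single (Sum.inr a) x))) = _
          rw [hs x]
          show ε.symm (e₁.symm 0, e₂.symm (Pi.single a x)) = _
          rw [map_zero]
        rw [h3]
        show e₂ ((ε (T (ε.symm (0, e₂.symm (Pi.single a x))))).2) a = _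
        rw [h₂]
      have hgoal := hE
      rw [← key] at hgoal
      exact hgoal

end Pool.Agent.P5f
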