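import Pool.Agent.Lib.P5f.Defs

/-!
# Semilinear decomposition of linear maps

GOAL: `ep_exists` : for a Galois extension `E / K` every `K`-linear map `R : (Fin m → E) → (Fin m → E)` is
`∑ g, twl g (N g)` with matrices `N g` over `E` (`twl g M` is `x ↦ M *ᵥ (g ∘ x)`).

PROOF (complete).
(1) The case of maps `E →ₗ[K] E`.  The maps `g.toLinearMap`, `g : E ≃ₐ[K] E`, are linearly independent over
`E` in `E →ₗ[K] E` (Dedekind: `linearIndependent_monoidHom`, or `linearIndependent_toLinearMap K E E` in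
Mathlib), where `E` acts on the values.  The dimension of `E →ₗ[K] E` over `E` is
`finrank K E` (`Module.finrank_linearMap` : `finrank S (M →ₗ[R] N) = finrank R M * finrank S N`), which is the
number of the automorphisms (`IsGalois.card_aut_eq_finrank`).  So they span (`LinearIndependent.span_eq_top_of_card_eq_finrank`
or `basisOfLinearIndependentOfCardEqFinrank`): every `f : E →ₗ[K] E` is `x ↦ ∑ g, c g * g x`.
(2) For `R`, let `R i j : E →ₗ[K] E` be `x ↦ R (Pi.single j x) i`, choose `c i j g` by (1), and put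
`N g = Matrix.of fun i j => c i j g`.  Then
`R x i = ∑ j, R (Pi.single j (x j)) i = ∑ j, ∑ g, c i j g * g (x j) = (∑ g, N g *ᵥ (g ∘ x)) i`.
Take `M = N 1`.
-/

open Finset Matrix

namespace Pool.Agent.P5f

namespace TwAAux

theorem span_aut {K E : Type*} [Field K] [Field E] [Algebra K E] [FiniteDimensional K E]
    [IsGalois K E] (f : E →ₗ[K] E) : ∃ c : (E ≃ₐ[K] E) → E, ∀ x, f x = ∑ g, c g * g x := by
  have hli : LinearIndependent E
      (fun g : E ≃ₐ[K] E => ((g : E →ₐ[K] E).toLinearMap : E →ₗ[K] E)) := by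
    refine (linearIndependent_toLinearMap K E E).comp (fun g : E ≃ₐ[K] E => (g : E →ₐ[K] E)) ?_
    intro g h hgh
    apply AlgEquiv.ext
    intro x
    exact congrArg (fun φ : E →ₐ[K] E => φ x) hgh
  have hcard : Fintype.card (E ≃ₐ[K] E) = Module.finrank E (E →ₗ[K] E) := by
    rw [Module.finrank_linearMap_self, ← Nat.card_eq_fintype_card, IsGalois.card_aut_eq_finrank]
  have hspan := hli.span_eq_top_of_card_eq_finrank' hcard
  have hf : f ∈ Submodule.span E (Set.range
      (fun g : E ≃ₐ[K] E => ((g : E →ₐ[K] E).toLinearMap : E →ₗ[K] E))) := by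
    rw [hspan]
    trivial
  rw [Submodule.mem_span_range_iff_exists_fun] at hf
  obtain ⟨c, hc⟩ := hf
  refine ⟨c, fun x => ?_⟩
  rw [← hc, LinearMap.sum_apply]
  rfl

end TwAAux

open TwAAux

theorem ep_exists {K E : Type*} [Field K] [Field E] [Algebra K E] [FiniteDimensional K E]
    [IsGalois K E] {m : ℕ} (R : (Fin m → E) →ₗ[K] (Fin m → E)) :
    ∃ M : Matrix (Fin m) (Fin m) E, Ep R M := by
  have h1 : ∀ i j : Fin m, ∃ c : (E ≃ₐ[K] E) → E, ∀ x, R (Pi.single j x) i = ∑ g, c g * g x := by
    intro i j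
    exact span_aut ((LinearMap.proj i ∘ₗ R) ∘ₗ LinearMap.single K (fun _ => E) j)
  choose c hc using h1
  refine ⟨Matrix.of fun i j => c i j 1, fun g => Matrix.of fun i j => c i j g, rfl, ?_⟩
  apply LinearMap.ext
  intro x
  funext i
  have h2 : R x i = ∑ j, R (Pi.single j (x j)) i := by
    conv_lhs => rw [← Finset.univ_sum_single x, map_sum]
    rw [Finset.sum_apply]
  rw [h2, LinearMap.sum_apply, Finset.sum_apply]
  simp_rw [hc]
  rw [Finset.sum_comm]
  refine Finset.sum_congr rfl fun g _ => ?_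
  rfl

end Pool.Agent.P5f
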