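import Pool.Agent.Lib.P5f.Defs

/-!
# The linear component: traces, multiplication by matrices

GOALS: `ep_trace`, `ep_conj`, `ep_zero`.

PROOFS (complete).  `Ep R M` says `R = ∑ g, twl g (N g)` with `N 1 = M`, where `twl g N` is
`x ↦ N *ᵥ (g ∘ x)`.  Rules: `mv K P ∘ₗ twl g N = twl g (P * N)` and
`twl g N ∘ₗ mv K Q = twl g (N * Q.map g)`, `twl 1 N = mv K N`.
`ep_conj` : take `N' g = P * N g * (Q.map g)`; `N' 1 = P * M * Q`.
`ep_zero` : take `N = 0`.
`ep_trace` : by linearity and `mv K P ∘ₗ twl g N = twl g (P * N)` it suffices to know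
 (a) `trace K (mv K N) = Algebra.trace K E N.trace`, and
 (b) `trace K (twl g N) = 0` for `g ≠ 1`.
For both: the trace of a `K`-linear map `R` of `Fin m → E` is the sum over `i` of the traces of the
components `x ↦ R (Pi.single i x) i` of `E` (for instance `LinearMap.trace_eq_sum_trace_restrict`, or:
`trace (R ∘ ∑ i, single i ∘ proj i) = ∑ i, trace (proj i ∘ R ∘ single i)` by `LinearMap.trace_comp_comm'`).
The component of `mv K N` is the multiplication by `N i i`, with trace `Algebra.trace K E (N i i)`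
(definition of `Algebra.trace`; `Algebra.trace_apply`).  The component of `twl g N` is `x ↦ N i i * g x`.
So (b) reduces to: for `g ≠ 1` and `c : E` the trace of `x ↦ c * g x` on `E` is zero.  PROOF: let
`L c` be this trace; it is additive in `c`.  For `z ≠ 0` conjugate with the multiplication by `z`: the map
`x ↦ z * (c * g (z⁻¹ * x)) = (c * (z * (g z)⁻¹)) * g x` has the same trace
(`LinearMap.trace_conj'` or `LinearMap.trace_comp_comm'`), so `L c = L (c * u)` with `u = z / g z`, hence
`L (c * (1 - u)) = 0` for all `c`.  As `g ≠ 1` there is `z` with `g z ≠ z`, so `1 - u ≠ 0`; replace `c` by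
`c / (1 - u)`.
-/

open Finset Matrix

namespace Pool.Agent.P5f

namespace TwBAux

section
variable {K E : Type*} [Field K] [Field E] [Algebra K E]

theorem mv_apply {m m' : ℕ} (M : Matrix (Fin m) (Fin m') E) (x : Fin m' → E) :
    mv K M x = M *ᵥ x := rfl

theorem twl_apply {m m' : ℕ} (g : E ≃ₐ[K] E) (M : Matrix (Fin m) (Fin m') E) (x : Fin m' → E) :
    twl g M x = M *ᵥ (fun i => g (x i)) := rfl

theorem mv_comp_twl {m m' m'' : ℕ} (P : Matrix (Fin m'') (Fin m) E) (g : E ≃ₐ[K] E)
    (N : Matrix (Fin m) (Fin m') E) : mv K P ∘ₗ twl g N = twl g (P * N) := by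
  refine LinearMap.ext fun x => ?_
  rw [LinearMap.comp_apply, mv_apply, twl_apply, twl_apply, Matrix.mulVec_mulVec]

theorem twl_comp_mv {m m' m'' : ℕ} (Q : Matrix (Fin m') (Fin m'') E) (g : E ≃ₐ[K] E)
    (N : Matrix (Fin m) (Fin m') E) : twl g N ∘ₗ mv K Q = twl g (N * Q.map g) := by
  refine LinearMap.ext fun x => ?_
  rw [LinearMap.comp_apply, mv_apply, twl_apply, twl_apply, ← Matrix.mulVec_mulVec]
  congr 1
  funext i
  simp only [Matrix.mulVec, dotProduct, Matrix.map_apply, map_sum, map_mul]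

/-- The trace of `x ↦ c * g x`. -/
theorem trace_twist [FiniteDimensional K E] (g : E ≃ₐ[K] E) (hg : g ≠ 1) (c : E) :
    LinearMap.trace K E (LinearMap.mulLeft K c ∘ₗ g.toLinearMap) = 0 := by
  obtain ⟨z, hz⟩ : ∃ z, g z ≠ z := by
    by_contra hcon
    push Not at hcon
    exact hg (AlgEquiv.ext hcon)
  have hz0 : z ≠ 0 := by
    rintro rfl
    exact hz (map_zero g)
  have hgz0 : g z ≠ 0 := fun h => hz0 (g.injective (h.trans (map_zero g).symm))
  have key : ∀ c : E, LinearMap.trace K E (LinearMap.mulLeft K c ∘ₗ g.toLinearMap) =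
      LinearMap.trace K E (LinearMap.mulLeft K (c * (z * (g z)⁻¹)) ∘ₗ g.toLinearMap) := by
    intro c
    have h1 : LinearMap.mulLeft K (c * (z * (g z)⁻¹)) ∘ₗ g.toLinearMap =
        (LinearMap.mulLeft K z) ∘ₗ
          ((LinearMap.mulLeft K c ∘ₗ g.toLinearMap) ∘ₗ LinearMap.mulLeft K z⁻¹) := by
      refine LinearMap.ext fun x => ?_
      simp only [LinearMap.comp_apply, LinearMap.mulLeft_apply, AlgEquiv.toLinearMap_apply,
        map_mul, map_inv₀]
      ring
    have h2 : (LinearMap.mulLeft K c ∘ₗ g.toLinearMap) =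
        ((LinearMap.mulLeft K c ∘ₗ g.toLinearMap) ∘ₗ LinearMap.mulLeft K z⁻¹) ∘ₗ
          (LinearMap.mulLeft K z) := by
      refine LinearMap.ext fun x => ?_
      simp only [LinearMap.comp_apply, LinearMap.mulLeft_apply, AlgEquiv.toLinearMap_apply]
      rw [inv_mul_cancel_left₀ hz0]
    rw [h1, LinearMap.trace_comp_comm' _ (LinearMap.mulLeft K z), ← h2]
  have hu : (1 : E) - z * (g z)⁻¹ ≠ 0 := by
    intro h
    apply hz
    have h3 : z * (g z)⁻¹ = 1 := (sub_eq_zero.1 h).symm
    have h4 : z = g z := by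
      calc z = z * (g z)⁻¹ * g z := by rw [mul_assoc, inv_mul_cancel₀ hgz0, mul_one]
        _ = g z := by rw [h3, one_mul]
    exact h4.symm
  have key2 : ∀ c : E, LinearMap.trace K E
      (LinearMap.mulLeft K (c * (1 - z * (g z)⁻¹)) ∘ₗ g.toLinearMap) = 0 := by
    intro c
    have h1 : LinearMap.mulLeft K (c * (1 - z * (g z)⁻¹)) ∘ₗ g.toLinearMap =
        LinearMap.mulLeft K c ∘ₗ g.toLinearMap -
          LinearMap.mulLeft K (c * (z * (g z)⁻¹)) ∘ₗ g.toLinearMap := by
      refine LinearMap.ext fun x => ?_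
      simp only [LinearMap.comp_apply, LinearMap.mulLeft_apply, AlgEquiv.toLinearMap_apply,
        LinearMap.sub_apply]
      ring
    rw [h1, map_sub, ← key c, sub_self]
  have h5 := key2 (c * (1 - z * (g z)⁻¹)⁻¹)
  rwa [mul_assoc, inv_mul_cancel₀ hu, mul_one] at h5

/-- The trace of an endomorphism of `Fin m → E` is the sum of the traces of the diagonal
components. -/
theorem trace_comp [FiniteDimensional K E] {m : ℕ} (R : (Fin m → E) →ₗ[K] (Fin m → E)) :
    LinearMap.trace K (Fin m → E) R = ∑ i, LinearMap.trace K E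
      (LinearMap.proj i ∘ₗ R ∘ₗ LinearMap.single K (fun _ => E) i) := by
  classical
  have h1 : R = ∑ i, R ∘ₗ (LinearMap.single K (fun _ => E) i ∘ₗ LinearMap.proj i) := by
    refine LinearMap.ext fun x => ?_
    rw [LinearMap.sum_apply]
    simp only [LinearMap.comp_apply]
    rw [← map_sum]
    congr 1
    simp only [LinearMap.coe_proj, Function.eval, LinearMap.coe_single]
    exact (Finset.univ_sum_single x).symm
  conv_lhs => rw [h1]
  rw [map_sum]
  refine Finset.sum_congr rfl fun i _ => ?_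
  rw [← LinearMap.comp_assoc, LinearMap.trace_comp_comm']

open Classical in
theorem trace_twl [FiniteDimensional K E] {m : ℕ} (g : E ≃ₐ[K] E)
    (N : Matrix (Fin m) (Fin m) E) :
    LinearMap.trace K (Fin m → E) (twl g N) =
      if g = 1 then Algebra.trace K E N.trace else 0 := by
  rw [trace_comp]
  have h1 : ∀ i : Fin m, (LinearMap.proj i ∘ₗ twl g N ∘ₗ LinearMap.single K (fun _ => E) i :
      E →ₗ[K] E) = LinearMap.mulLeft K (N i i) ∘ₗ g.toLinearMap := by
    intro i
    refine LinearMap.ext fun x => ?_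
    simp only [LinearMap.comp_apply, LinearMap.mulLeft_apply, AlgEquiv.toLinearMap_apply,
      LinearMap.coe_proj, Function.eval, LinearMap.coe_single, twl_apply]
    have h2 : (fun j => g ((Pi.single i x : Fin m → E) j)) = Pi.single i (g x) := by
      funext j
      by_cases h : j = i
      · subst h
        rw [Pi.single_eq_same, Pi.single_eq_same]
      · rw [Pi.single_eq_of_ne h, Pi.single_eq_of_ne h, map_zero]
    rw [h2, Matrix.mulVec_single]
    simp
  simp only [h1]
  split_ifs with h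
  · subst h
    rw [Matrix.trace, map_sum]
    refine Finset.sum_congr rfl fun i _ => ?_
    rw [Algebra.trace_apply]
    rfl
  · exact Finset.sum_eq_zero fun i _ => trace_twist g h _

end

end TwBAux

open TwBAux

theorem ep_trace {K E : Type*} [Field K] [Field E] [Algebra K E] [FiniteDimensional K E] {m : ℕ}
    {R : (Fin m → E) →ₗ[K] (Fin m → E)} {M : Matrix (Fin m) (Fin m) E} (h : Ep R M)
    (N : Matrix (Fin m) (Fin m) E) :
    LinearMap.trace K (Fin m → E) (mv K N ∘ₗ R) = Algebra.trace K E (N * M).trace := by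
  classical
  obtain ⟨N', hN', hR⟩ := h
  have h1 : mv K N ∘ₗ R = ∑ g, twl g (N * N' g) := by
    rw [hR]
    refine LinearMap.ext fun x => ?_
    rw [LinearMap.comp_apply, LinearMap.sum_apply, LinearMap.sum_apply, map_sum]
    exact Finset.sum_congr rfl fun g _ => LinearMap.congr_fun (mv_comp_twl N g (N' g)) x
  rw [h1, map_sum]
  simp only [trace_twl]
  rw [Finset.sum_ite_eq' Finset.univ (1 : E ≃ₐ[K] E), if_pos (Finset.mem_univ _), hN']

theorem ep_conj {K E : Type*} [Field K] [Field E] [Algebra K E] [FiniteDimensional K E] {m : ℕ}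
    {R : (Fin m → E) →ₗ[K] (Fin m → E)} {M : Matrix (Fin m) (Fin m) E} (h : Ep R M)
    (P Q : Matrix (Fin m) (Fin m) E) : Ep (mv K P ∘ₗ R ∘ₗ mv K Q) (P * M * Q) := by
  obtain ⟨N, hN, hR⟩ := h
  refine ⟨fun g => P * N g * Q.map g, ?_, ?_⟩
  · dsimp only
    rw [hN]
    congr 1
  · rw [hR]
    refine LinearMap.ext fun x => ?_
    simp only [LinearMap.comp_apply, LinearMap.sum_apply]
    rw [map_sum]
    refine Finset.sum_congr rfl fun g _ => ?_
    have h2 := LinearMap.congr_fun (twl_comp_mv Q g (P * N g)) x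
    have h3 := LinearMap.congr_fun (mv_comp_twl P g (N g)) (mv K Q x)
    rw [← h2, LinearMap.comp_apply, ← h3, LinearMap.comp_apply]

theorem ep_zero {K E : Type*} [Field K] [Field E] [Algebra K E] [FiniteDimensional K E] {m : ℕ} :
    Ep (0 : (Fin m → E) →ₗ[K] (Fin m → E)) (0 : Matrix (Fin m) (Fin m) E) := by
  refine ⟨fun _ => 0, rfl, ?_⟩
  symm
  refine Finset.sum_eq_zero fun g _ => LinearMap.ext fun x => ?_
  rw [twl_apply, Matrix.zero_mulVec]
  rfl

end Pool.Agent.P5f
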