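import Pool.Agent.Lib.P5f.FMain
import Pool.Agent.Lib.P5f.TwA
import Pool.Agent.Lib.P5f.TwB
import Pool.Agent.Lib.P5f.EStr
import Pool.Agent.Lib.P5f.FSum
import Pool.Agent.Lib.P5f.FOne

/-!
# Finite fields: blocks over one extension field, peeling
-/

open Finset Matrix

namespace Pool.Agent.P5f

open Pool.Agent.P5m Pool.Agent.P5q

universe u v

variable {r : ℕ}

theorem cs_ext {K : Type*} {E : Type*} [Field K] [Field E] [Algebra K E]
    (α : Equiv.Perm (Fin (r + 1)) → K) (h : Cs (ext E α)) : Cs α := by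
  intro σ
  have h1 := h σ
  unfold ext at h1
  rw [← map_sum] at h1
  exact (map_eq_zero _).1 h1

theorem trace_nondeg {K E : Type*} [Field K] [Field E] [Algebra K E] [FiniteDimensional K E]
    [Algebra.IsSeparable K E] (x : E) (h : ∀ z : E, Algebra.trace K E (z * x) = 0) : x = 0 := by
  by_contra hx
  have h1 : ∀ z : E, Algebra.trace K E z = 0 := by
    intro z
    have := h (z * x⁻¹)
    rwa [mul_assoc, inv_mul_cancel₀ hx, mul_one] at this
  obtain ⟨d, hd⟩ := Algebra.trace_surjective K E 1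
  exact one_ne_zero (hd.symm.trans (h1 d))

/-- Nonscalar endomorphisms of spaces of dimension `s * finrank K E`. -/
theorem fdec_nonscalar {K : Type u} {V : Type v} [Field K] [Finite K] [AddCommGroup V] [Module K V]
    [FiniteDimensional K V] (α : Equiv.Perm (Fin (r + 1)) → K) (E : FE K) (s : ℕ) (hs : 3 ≤ s)
    (hdec : ∀ T₀ : Matrix (Fin s) (Fin s) E.E,
      (T₀ = 0 ∨ ((∀ μ : E.E, T₀ ≠ μ • 1) ∧ (T₀.trace = 0 ∨ ¬ Cs (ext E.E α)))) →
        DecM (ext E.E α) T₀)
    (T : V →ₗ[K] V) (hT : ∀ μ : K, T ≠ μ • LinearMap.id)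
    (hV : Module.finrank K V = s * Module.finrank K E.E)
    (hT0 : LinearMap.trace K V T = 0 ∨ ¬ Cs α) (Q M : ℕ) (hQ : Q ≤ Module.finrank K E.E)
    (hM : s ≤ M) : FDec α T Q M := by
  have hEfin : Finite E.E := Module.finite_of_finite K
  have hgal : IsGalois K E.E := inferInstance
  obtain ⟨y, hy, hy0⟩ : ∃ y : E.E, Algebra.trace K E.E y = LinearMap.trace K V T ∧
      (y = 0 ∨ ¬ Cs α) := by
    rcases hT0 with h0 | h0
    · exact ⟨0, by rw [map_zero, h0], Or.inl rfl⟩
    · obtain ⟨y, hy⟩ := Algebra.trace_surjective K E.E (LinearMap.trace K V T)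
      exact ⟨y, hy, Or.inr h0⟩
  obtain ⟨e, he1, N, hN1, hN2⟩ := e_struct (E := E.E) T hT s hs hV y hy
  obtain ⟨T₀, hT₀⟩ := ep_exists (e.toLinearMap ∘ₗ T ∘ₗ e.symm.toLinearMap)
  have htr : T₀.trace = y := by
    rw [← sub_eq_zero]
    refine trace_nondeg (K := K) _ fun z => ?_
    have h1 := he1 z
    rw [ep_trace hT₀, Matrix.smul_mul, one_mul, Matrix.trace_smul, smul_eq_mul] at h1
    rw [mul_sub, map_sub, h1, sub_self]
  have hns : ∀ μ : E.E, T₀ ≠ μ • 1 := by
    intro μ hμ
    apply hN2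
    rw [ep_trace hT₀, hμ, Matrix.mul_smul, mul_one, Matrix.trace_smul, hN1, smul_zero, map_zero]
  refine fdec_of_decM α T E e T₀ hT₀ (hdec T₀ (Or.inr ⟨hns, ?_⟩)) Q M hQ hM
  rcases hy0 with h0 | h0
  · exact Or.inl (by rw [htr, h0])
  · exact Or.inr fun h => h0 (cs_ext α h)

/-- The zero endomorphism. -/
theorem fdec_zero {K : Type u} {V : Type v} [Field K] [Finite K] [AddCommGroup V] [Module K V]
    [FiniteDimensional K V] (α : Equiv.Perm (Fin (r + 1)) → K) (E : FE K) (s : ℕ)
    (hdec : DecM (ext E.E α) (0 : Matrix (Fin s) (Fin s) E.E))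
    (hV : Module.finrank K V = s * Module.finrank K E.E) (Q M : ℕ)
    (hQ : Q ≤ Module.finrank K E.E) (hM : s ≤ M) : FDec α (0 : V →ₗ[K] V) Q M := by
  have h1 : Module.finrank K V = Module.finrank K (Fin s → E.E) := by
    rw [Module.finrank_pi_fintype, sum_const, card_univ, Fintype.card_fin, smul_eq_mul, hV]
  have e : V ≃ₗ[K] (Fin s → E.E) := LinearEquiv.ofFinrankEq _ _ h1
  refine fdec_of_decM α 0 E e 0 ?_ hdec Q M hQ hM
  have h2 : (e.toLinearMap ∘ₗ (0 : V →ₗ[K] V) ∘ₗ e.symm.toLinearMap) = 0 := by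
    ext; simp
  rw [h2]
  exact ep_zero

/-- The isomorphism of a space with the direct sum of a span and a complement. -/
noncomputable def spl {K V : Type*} [Field K] [AddCommGroup V] [Module K V] {s : ℕ} (v : Fin s → V)
    (W : Submodule K V) (hv : LinearIndependent K v)
    (hW : IsCompl (Submodule.span K (Set.range v)) W) : V ≃ₗ[K] (Fin s → K) × W :=
  (Submodule.prodEquivOfIsCompl _ _ hW).symm.trans
    (LinearEquiv.prodCongr (Module.Basis.span hv).equivFun (LinearEquiv.refl K W))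

theorem spl_symm {K V : Type*} [Field K] [AddCommGroup V] [Module K V] {s : ℕ} (v : Fin s → V)
    (W : Submodule K V) (hv : LinearIndependent K v)
    (hW : IsCompl (Submodule.span K (Set.range v)) W) (x : Fin s → K) (w : W) :
    (spl v W hv hW).symm (x, w) = ∑ i, x i • v i + w := by
  unfold spl
  simp [Module.Basis.equivFun_symm_apply, Module.Basis.span_apply]

theorem spl_apply {K V : Type*} [Field K] [AddCommGroup V] [Module K V] {s : ℕ} (v : Fin s → V)
    (W : Submodule K V) (hv : LinearIndependent K v)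
    (hW : IsCompl (Submodule.span K (Set.range v)) W) (x : Fin s → K) (w : W) :
    spl v W hv hW (∑ i, x i • v i + w) = (x, w) := by
  rw [← spl_symm v W hv hW, LinearEquiv.apply_symm_apply]

theorem spl_fst {K V : Type*} [Field K] [AddCommGroup V] [Module K V] {s : ℕ} (v : Fin s → V)
    (W : Submodule K V) (hv : LinearIndependent K v)
    (hW : IsCompl (Submodule.span K (Set.range v)) W) (w : V) (hw : w ∈ W) :
    spl v W hv hW w = (0, ⟨w, hw⟩) := by
  have h := spl_apply v W hv hW 0 ⟨w, hw⟩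
  simpa using h

theorem spl_snd {K V : Type*} [Field K] [AddCommGroup V] [Module K V] {s : ℕ} (v : Fin s → V)
    (W : Submodule K V) (hv : LinearIndependent K v)
    (hW : IsCompl (Submodule.span K (Set.range v)) W) (u : V)
    (hu : u ∈ Submodule.span K (Set.range v)) : (spl v W hv hW u).2 = 0 := by
  obtain ⟨x, rfl⟩ := (Submodule.mem_span_range_iff_exists_fun K).1 hu
  have h := spl_apply v W hv hW x 0
  rw [Submodule.coe_zero, add_zero] at h
  rw [h]

/-- Peeling a block. -/
theorem fdec_peel {K : Type u} {V : Type v} [Field K] [AddCommGroup V] [Module K V]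
    (α : Equiv.Perm (Fin (r + 1)) → K) (T : V →ₗ[K] V) {s : ℕ} (δ : Fin s → K) (v : Fin s → V)
    (W : Submodule K V) (T' : W →ₗ[K] W) (hv : LinearIndependent K v)
    (hW : IsCompl (Submodule.span K (Set.range v)) W) (h1 : ∀ i, T (v i) - δ i • v i ∈ W)
    (h2 : ∀ w : W, T w - T' w ∈ Submodule.span K (Set.range v)) (Q M : ℕ)
    (hF1 : FDec α (LinearMap.pi fun i => δ i • LinearMap.proj i : (Fin s → K) →ₗ[K] (Fin s → K))
      Q M) (hF2 : FDec α T' Q M) : FDec α T Q M := by
  refine fdec_sum α T (spl v W hv hW) _ T' ?_ ?_ Q M hF1 hF2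
  · intro x
    rw [spl_symm, Submodule.coe_zero, add_zero, map_sum]
    have h3 : ∑ i, T (x i • v i) = (∑ i, (δ i * x i) • v i) +
        ∑ i, x i • (T (v i) - δ i • v i) := by
      rw [← sum_add_distrib]
      refine sum_congr rfl fun i _ => ?_
      rw [map_smul, smul_sub, smul_smul, mul_comm (δ i)]
      abel
    have h4 : ∑ i, x i • (T (v i) - δ i • v i) ∈ W :=
      W.sum_mem fun i _ => W.smul_mem _ (h1 i)
    rw [h3]
    have h5 := spl_apply v W hv hW (fun i => δ i * x i) ⟨_, h4⟩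
    rw [h5]
    rfl
  · intro w
    rw [spl_symm]
    simp only [Pi.zero_apply, zero_smul, sum_const_zero, zero_add]
    have h3 : T w = (T w - T' w) + T' w := by abel
    rw [h3, map_add, Prod.snd_add, spl_snd v W hv hW _ (h2 w), zero_add,
      spl_fst v W hv hW _ (T' w).2]

theorem mval_of_lval {K : Type*} [Field K] {n : ℕ} (α : Equiv.Perm (Fin (r + 1)) → K)
    (T : Matrix (Fin n) (Fin n) K) (h : ∃ A, lval α A = Matrix.toLin' T) :
    ∃ A : Fin (r + 1) → Matrix (Fin n) (Fin n) K, P5e96.mval α A = T := by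
  obtain ⟨A, hA⟩ := h
  refine ⟨fun q => LinearMap.toMatrixAlgEquiv' (A q), ?_⟩
  have h1 : P5e96.mval α (fun q => LinearMap.toMatrixAlgEquiv' (A q)) =
      LinearMap.toMatrixAlgEquiv' (lval α A) := by
    rw [P5e96.mval, lval, map_sum]
    refine sum_congr rfl fun σ _ => ?_
    rw [map_smul, map_list_prod, List.map_ofFn]
    rfl
  rw [h1, hA]
  exact LinearMap.toMatrix'_toLin' T

end Pool.Agent.P5f
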