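import Pool.Agent.Lib.P5f.Defs

/-!
# Transfer of decompositions

GOAL: `decM_transfer` : a decomposition (`DecM`, see `Pool/Agent/Lib/P5f/Defs.lean`) over the limit field gives
one over some field of the family.

PROOF (complete).  Let `R = ∀ N, Kf N`, `ev N : R →+* Kf N` the evaluations (`Pi.evalRingHom`).  Unfold `DecM`
over `F`: an index type `κ`, sizes `s a`, an equivalence `e`, matrices `P, P'`, vectors `D a`, with
`P' * P = 1`, `Att (π ∘ α) (s a) (D a)`, and the identities for the blocks.  `Att` gives for every `a` :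
matrices `C a q` (`q : ℕ`) and `X a` with `mval (π ∘ α) (fun q => if q = 0 then X a else C a q) = diagonal (D a)`
and such that `gmat (π ∘ α) (C a)` is injective, hence invertible
(`Pool.Agent.P5m.isUnit_of_mul_inj` in `Pool/Agent/Lib/P5m/Att.lean`); let `G a` be a right inverse:
`gmat (π ∘ α) (C a) * G a = 1`.
Lift everything to `R` entry by entry (`π` is surjective): `P̃, P̃', D̃ a, C̃ a q, X̃ a, G̃ a` with
`Matrix.map π` equal to the given matrices.  `mval` and `gmat` commute with ring homomorphisms applied to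
coefficients and entries (they are sums of products; `Matrix.map` by a ring homomorphism is
`RingHom.mapMatrix`, a ring homomorphism, so it commutes with list products `map_list_prod`).
(`P5e96.mval`, `P5e96.gmat` are only defined over a field; over `R` write the sums explicitly, or define
`mvalR`, `gmatR` over commutative rings by the same formulas.)
So the entries of the following matrices over `R` are in the kernel of `π` :
`P̃' * P̃ - 1`, `mvalR .. - diagonal (D̃ a)`, `gmatR (C̃ a) * G̃ a - 1`, and the elements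
`(P̃' * T * P̃) (e ⟨a, i⟩) (e ⟨a, j⟩) - if i = j then D̃ a i else 0`.  These are finitely many elements
(the index sets are finite); by `hz` there is `N` where all of them vanish.  Applying `ev N` we obtain the
data of `DecM` over `Kf N` : `P' := P̃'.map (ev N)` etc.; `Y * gmat = 0` implies
`Y = Y * gmat * G = 0`.
-/

open Finset Matrix

namespace Pool.Agent.P5f

open Pool.Agent.P5m Pool.Agent.P5q

universe u

namespace TrfAux

section
variable {r : ℕ} {ι : Type*} [Fintype ι] [DecidableEq ι]

/-- The value of the polynomial over a commutative ring. -/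
def mvalR {R : Type*} [CommRing R] {m : ℕ} (α : Equiv.Perm (Fin m) → R)
    (A : Fin m → Matrix ι ι R) : Matrix ι ι R :=
  ∑ σ : Equiv.Perm (Fin m), α σ • (List.ofFn fun i => A (σ i)).prod

/-- The value of the part starting with the letter `0`, over a commutative ring. -/
def gmatR {R : Type*} [CommRing R] (α : Equiv.Perm (Fin (r + 1)) → R)
    (C : ℕ → Matrix ι ι R) : Matrix ι ι R :=
  ∑ σ : Equiv.Perm (Fin (r + 1)), if σ 0 = 0 then α σ • ((P5e96.tailList σ).map C).prod else 0

theorem map_smul' {R S : Type*} [CommRing R] [CommRing S] (φ : R →+* S) (c : R)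
    (M : Matrix ι ι R) : φ.mapMatrix (c • M) = φ c • φ.mapMatrix M := by
  ext i j
  simp only [RingHom.mapMatrix_apply, Matrix.map_apply, Matrix.smul_apply, smul_eq_mul, map_mul]

theorem mvalR_map {R S : Type*} [CommRing R] [CommRing S] (φ : R →+* S) {m : ℕ}
    (α : Equiv.Perm (Fin m) → R) (A : Fin m → Matrix ι ι R) :
    φ.mapMatrix (mvalR α A) = mvalR (fun σ => φ (α σ)) (fun q => φ.mapMatrix (A q)) := by
  rw [mvalR, mvalR, map_sum]
  refine Finset.sum_congr rfl fun σ _ => ?_
  rw [map_smul', map_list_prod, List.map_ofFn]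
  rfl

theorem gmatR_map {R S : Type*} [CommRing R] [CommRing S] (φ : R →+* S)
    (α : Equiv.Perm (Fin (r + 1)) → R) (C : ℕ → Matrix ι ι R) :
    φ.mapMatrix (gmatR α C) = gmatR (fun σ => φ (α σ)) (fun q => φ.mapMatrix (C q)) := by
  rw [gmatR, gmatR, map_sum]
  refine Finset.sum_congr rfl fun σ _ => ?_
  split_ifs
  · rw [map_smul', map_list_prod, List.map_map]
    rfl
  · rw [map_zero]

theorem mvalR_eq {K : Type*} [Field K] {m : ℕ} (α : Equiv.Perm (Fin m) → K)
    (A : Fin m → Matrix ι ι K) : mvalR α A = P5e96.mval α A := rfl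

theorem gmatR_eq {K : Type*} [Field K] (α : Equiv.Perm (Fin (r + 1)) → K)
    (C : ℕ → Matrix ι ι K) : gmatR α C = P5e96.gmat α C := rfl

end

end TrfAux

open TrfAux

theorem decM_transfer {r n : ℕ} (Kf : ℕ → Type u) [∀ N, Field (Kf N)] {F : Type u} [Field F]
    (π : (∀ N, Kf N) →+* F) (hπ : Function.Surjective π)
    (hz : ∀ s : Finset (∀ N, Kf N), (∀ x ∈ s, π x = 0) → ∃ N, ∀ x ∈ s, x N = 0)
    (α : Equiv.Perm (Fin (r + 1)) → ∀ N, Kf N) (T : Matrix (Fin n) (Fin n) (∀ N, Kf N))
    (h : DecM (fun σ => π (α σ)) (T.map π)) :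
    ∃ N, DecM (fun σ => α σ N) (T.map fun x => x N) := by
  classical
  obtain ⟨κ, hκ, s, e, P, P', D, hs, hP, hD, hb⟩ := h
  choose C X hC hX using hD
  have hG : ∀ a, ∃ G, P5e96.gmat (fun σ => π (α σ)) (C a) * G = 1 := fun a =>
    (isUnit_of_mul_inj _ (hC a)).exists_right_inv
  choose G hG using hG
  set l : F → (∀ N, Kf N) := Function.surjInv hπ with hl
  have hpl : ∀ y, π (l y) = y := Function.surjInv_eq hπ
  have hml : ∀ {ι : Type} [Fintype ι] [DecidableEq ι] (M : Matrix ι ι F),
      π.mapMatrix (M.map l) = M := by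
    intro ι _ _ M
    ext i j
    rw [RingHom.mapMatrix_apply, Matrix.map_apply, Matrix.map_apply, hpl]
  set Z1 : Matrix (Fin n) (Fin n) (∀ N, Kf N) := P'.map l * P.map l - 1 with hZ1
  set Z2 : ∀ a, Matrix (Fin (s a)) (Fin (s a)) (∀ N, Kf N) := fun a =>
    mvalR α (fun q : Fin (r + 1) => if q = 0 then (X a).map l else (C a q).map l) -
      diagonal (fun i => l (D a i)) with hZ2
  set Z3 : ∀ a, Matrix (Fin (s a)) (Fin (s a)) (∀ N, Kf N) := fun a =>
    gmatR α (fun q => (C a q).map l) * (G a).map l - 1 with hZ3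
  set Z4 : ∀ a, Matrix (Fin (s a)) (Fin (s a)) (∀ N, Kf N) := fun a => Matrix.of fun i j =>
    (P'.map l * T * P.map l) (e ⟨a, i⟩) (e ⟨a, j⟩) - if i = j then l (D a i) else 0 with hZ4
  have h1 : π.mapMatrix Z1 = 0 := by
    rw [hZ1, map_sub, map_mul, map_one, hml, hml, hP, sub_self]
  have h2 : ∀ a, π.mapMatrix (Z2 a) = 0 := by
    intro a
    rw [hZ2]
    dsimp only
    rw [map_sub, mvalR_map, mvalR_eq]
    have h3 : (fun q : Fin (r + 1) => π.mapMatrix (if q = 0 then (X a).map l else (C a q).map l)) =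
        fun q : Fin (r + 1) => if q = 0 then X a else C a q := by
      funext q
      split_ifs
      · exact hml _
      · exact hml _
    rw [h3, hX a, sub_eq_zero]
    ext i j
    rw [RingHom.mapMatrix_apply, Matrix.map_apply, Matrix.diagonal_apply, Matrix.diagonal_apply]
    split_ifs
    · exact (hpl _).symm
    · exact (map_zero π).symm
  have h3 : ∀ a, π.mapMatrix (Z3 a) = 0 := by
    intro a
    rw [hZ3]
    dsimp only
    rw [map_sub, map_mul, map_one, gmatR_map, gmatR_eq, hml]
    have h4 : (fun q => π.mapMatrix ((C a q).map l)) = C a := by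
      funext q
      exact hml _
    rw [h4, hG a, sub_self]
  have h4 : ∀ a, π.mapMatrix (Z4 a) = 0 := by
    intro a
    ext i j
    rw [RingHom.mapMatrix_apply, Matrix.map_apply, Matrix.zero_apply, hZ4]
    dsimp only
    rw [Matrix.of_apply, map_sub]
    have h5 : π ((P'.map l * T * P.map l) (e ⟨a, i⟩) (e ⟨a, j⟩)) =
        (P' * T.map π * P) (e ⟨a, i⟩) (e ⟨a, j⟩) := by
      have h6 : π.mapMatrix (P'.map l * T * P.map l) = P' * T.map π * P := by
        rw [map_mul, map_mul, hml, hml]
        rfl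
      rw [← h6]
      rfl
    rw [h5, hb]
    split_ifs
    · rw [hpl, sub_self]
    · rw [map_zero, sub_self]
  set S1 : Finset (∀ N, Kf N) := Finset.univ.image (fun p : Fin n × Fin n => Z1 p.1 p.2) with hS1
  set S2 : Finset (∀ N, Kf N) := Finset.univ.image
    (fun p : Σ a, Fin (s a) × Fin (s a) => Z2 p.1 p.2.1 p.2.2) with hS2
  set S3 : Finset (∀ N, Kf N) := Finset.univ.image
    (fun p : Σ a, Fin (s a) × Fin (s a) => Z3 p.1 p.2.1 p.2.2) with hS3
  set S4 : Finset (∀ N, Kf N) := Finset.univ.image
    (fun p : Σ a, Fin (s a) × Fin (s a) => Z4 p.1 p.2.1 p.2.2) with hS4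
  obtain ⟨N, hN⟩ := hz (S1 ∪ S2 ∪ S3 ∪ S4) (by
    intro x hx
    rcases Finset.mem_union.1 hx with hx | hx
    · rcases Finset.mem_union.1 hx with hx | hx
      · rcases Finset.mem_union.1 hx with hx | hx
        · obtain ⟨p, _, rfl⟩ := Finset.mem_image.1 hx
          exact congrFun (congrFun h1 p.1) p.2
        · obtain ⟨p, _, rfl⟩ := Finset.mem_image.1 hx
          exact congrFun (congrFun (h2 p.1) p.2.1) p.2.2
      · obtain ⟨p, _, rfl⟩ := Finset.mem_image.1 hx
        exact congrFun (congrFun (h3 p.1) p.2.1) p.2.2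
    · obtain ⟨p, _, rfl⟩ := Finset.mem_image.1 hx
      exact congrFun (congrFun (h4 p.1) p.2.1) p.2.2)
  set ev : (∀ N, Kf N) →+* Kf N := Pi.evalRingHom Kf N with hev
  have k1 : ev.mapMatrix Z1 = 0 := by
    ext i j
    exact hN _ (Finset.mem_union_left _ (Finset.mem_union_left _ (Finset.mem_union_left _
      (Finset.mem_image.2 ⟨(i, j), Finset.mem_univ _, rfl⟩))))
  have k2 : ∀ a, ev.mapMatrix (Z2 a) = 0 := by
    intro a
    ext i j
    exact hN _ (Finset.mem_union_left _ (Finset.mem_union_left _ (Finset.mem_union_right _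
      (Finset.mem_image.2 ⟨⟨a, i, j⟩, Finset.mem_univ _, rfl⟩))))
  have k3 : ∀ a, ev.mapMatrix (Z3 a) = 0 := by
    intro a
    ext i j
    exact hN _ (Finset.mem_union_left _ (Finset.mem_union_right _
      (Finset.mem_image.2 ⟨⟨a, i, j⟩, Finset.mem_univ _, rfl⟩)))
  have k4 : ∀ a i j, (Z4 a i j) N = 0 := by
    intro a i j
    exact hN _ (Finset.mem_union_right _
      (Finset.mem_image.2 ⟨⟨a, i, j⟩, Finset.mem_univ _, rfl⟩))
  refine ⟨N, κ, hκ, s, e, ev.mapMatrix (P.map l), ev.mapMatrix (P'.map l),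
    fun a i => l (D a i) N, hs, ?_, ?_, ?_⟩
  · rw [← map_mul, ← sub_eq_zero]
    rw [hZ1, map_sub, map_one] at k1
    exact k1
  · intro a
    refine ⟨fun q => ev.mapMatrix ((C a q).map l), ev.mapMatrix ((X a).map l), ?_, ?_⟩
    · intro Y hY
      have h5 := k3 a
      rw [hZ3] at h5
      dsimp only at h5
      rw [map_sub, map_mul, map_one, gmatR_map, gmatR_eq, sub_eq_zero] at h5
      calc Y = Y * 1 := (mul_one Y).symm
        _ = Y * (P5e96.gmat (fun σ => ev (α σ)) (fun q => ev.mapMatrix ((C a q).map l)) *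
              ev.mapMatrix ((G a).map l)) := by rw [h5]
        _ = (Y * P5e96.gmat (fun σ => ev (α σ)) (fun q => ev.mapMatrix ((C a q).map l))) *
              ev.mapMatrix ((G a).map l) := by rw [mul_assoc]
        _ = 0 * ev.mapMatrix ((G a).map l) := congrArg (· * ev.mapMatrix ((G a).map l)) hY
        _ = 0 := zero_mul _
    · have h5 := k2 a
      rw [hZ2] at h5
      dsimp only at h5
      rw [map_sub, mvalR_map, mvalR_eq, sub_eq_zero] at h5
      have h6 : (fun q : Fin (r + 1) => if q = 0 then ev.mapMatrix ((X a).map l) else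
          ev.mapMatrix ((C a q).map l)) =
          fun q : Fin (r + 1) => ev.mapMatrix (if q = 0 then (X a).map l else (C a q).map l) := by
        funext q
        split_ifs <;> rfl
      rw [h6]
      refine h5.trans ?_
      ext i j
      rw [RingHom.mapMatrix_apply, Matrix.map_apply, Matrix.diagonal_apply, Matrix.diagonal_apply]
      split_ifs
      · rfl
      · exact map_zero ev
  · intro a i j
    have h5 := k4 a i j
    rw [hZ4] at h5
    dsimp only at h5
    rw [Matrix.of_apply, Pi.sub_apply, sub_eq_zero] at h5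
    have h6 : ev.mapMatrix (P'.map l) * (T.map fun x => x N) * ev.mapMatrix (P.map l) =
        ev.mapMatrix (P'.map l * T * P.map l) := by
      rw [map_mul, map_mul]
      rfl
    rw [h6]
    refine h5.trans ?_
    split_ifs
    · rfl
    · rfl

end Pool.Agent.P5f
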