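import Pool.Agent.Lib.P5f.DecI
import Pool.Agent.Lib.P5f.Cpt
import Pool.Agent.Lib.P5f.Trf

/-!
# Decompositions over large fields
-/

open Finset Matrix

namespace Pool.Agent.P5f

open Pool.Agent.P5m Pool.Agent.P5q

variable {r : ℕ}

theorem common {Kf : ℕ → Type} [∀ N, Field (Kf N)] {F : Type} [Field F]
    (π : (∀ N, Kf N) →+* F)
    (hz : ∀ s : Finset (∀ N, Kf N), (∀ x ∈ s, π x = 0) → ∃ N, ∀ x ∈ s, x N = 0)
    (s : Finset (∀ N, Kf N)) (hs : ∀ x ∈ s, π x = 0) (y : ∀ N, Kf N) (hy : π y ≠ 0) :
    ∃ N, (∀ x ∈ s, x N = 0) ∧ y N ≠ 0 := by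
  classical
  set e : ∀ N, Kf N := fun N => y N * (y N)⁻¹ with he
  have h1 : e * y = y := by
    funext N
    show y N * (y N)⁻¹ * y N = y N
    by_cases h : y N = 0
    · rw [h, mul_zero]
    · rw [mul_inv_cancel₀ h, one_mul]
  have h2 : π e = 1 := by
    have h3 := congrArg π h1
    rw [map_mul] at h3
    exact mul_right_cancel₀ hy (h3.trans (one_mul _).symm)
  obtain ⟨N, hN⟩ := hz (insert (1 - e) s) (by
    intro x hx
    rcases mem_insert.1 hx with rfl | hx
    · rw [map_sub, map_one, h2, sub_self]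
    · exact hs x hx)
  refine ⟨N, fun x hx => hN x (mem_insert_of_mem hx), ?_⟩
  intro h0
  have h3 := hN (1 - e) (mem_insert_self _ _)
  have h4 : (1 : Kf N) - y N * (y N)⁻¹ = 0 := h3
  rw [h0, zero_mul, sub_zero] at h4
  exact one_ne_zero h4

theorem fin_dec (r : ℕ) (hr : 1 ≤ r) : ∃ N : ℕ, ∀ n ≥ N, ∃ B : ℕ, ∀ (F : Type) [Field F],
    (Infinite F ∨ B ≤ Nat.card F) → ∀ α : Equiv.Perm (Fin (r + 1)) → F, α 1 ≠ 0 →
      ∀ T : Matrix (Fin n) (Fin n) F,
        (T = 0 ∨ ((∀ μ : F, T ≠ μ • 1) ∧ (T.trace = 0 ∨ ¬ Cs α))) → DecM α T := by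
  classical
  obtain ⟨N₀, hN₀⟩ := dec_inf.{0} r hr
  refine ⟨max N₀ 1, fun n hn => ?_⟩
  by_contra hcon
  push Not at hcon
  choose Kf hKf hcard α hα T hT hD using hcon
  obtain ⟨F, _, _, π, hπ, hz⟩ := prod_field Kf hcard
  set αR : Equiv.Perm (Fin (r + 1)) → ∀ N, Kf N := fun σ N => α N σ with hαR
  set TR : Matrix (Fin n) (Fin n) (∀ N, Kf N) := fun i j N => T N i j with hTR
  have hα1 : π (αR 1) ≠ 0 := map_ne π (αR 1) fun N => hα N
  have hn1 : 0 < n := lt_of_lt_of_le one_pos (le_trans (le_max_right _ _) hn)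
  have key : DecM (fun σ => π (αR σ)) (TR.map π) := by
    refine hN₀ n (le_trans (le_max_left _ _) hn) F _ hα1 _ ?_
    by_cases h0 : TR.map π = 0
    · exact Or.inl h0
    · refine Or.inr ⟨?_, ?_⟩
      · -- not scalar
        intro μ hμ
        have h1 : ∃ i j, π (TR i j) ≠ 0 := by
          by_contra h2
          push Not at h2
          exact h0 (by ext i j; exact h2 i j)
        obtain ⟨i₀, j₀, h1⟩ := h1
        obtain ⟨N, hN1, hN2⟩ := common π hz
          ((univ.filter fun p : Fin n × Fin n => p.1 ≠ p.2).image (fun p => TR p.1 p.2) ∪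
            (univ : Finset (Fin n × Fin n)).image (fun p => TR p.1 p.1 - TR p.2 p.2)) (by
          intro x hx
          rcases mem_union.1 hx with hx | hx
          · obtain ⟨p, hp, rfl⟩ := mem_image.1 hx
            have h3 := congrFun (congrFun hμ p.1) p.2
            rw [Matrix.smul_apply, Matrix.one_apply_ne (mem_filter.1 hp).2, smul_zero] at h3
            exact h3
          · obtain ⟨p, -, rfl⟩ := mem_image.1 hx
            have h3 := congrFun (congrFun hμ p.1) p.1
            have h4 := congrFun (congrFun hμ p.2) p.2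
            rw [Matrix.smul_apply, Matrix.one_apply_eq] at h3 h4
            have h5 : π (TR p.1 p.1) = μ • 1 := h3
            have h6 : π (TR p.2 p.2) = μ • 1 := h4
            rw [map_sub, h5, h6, sub_self]) (TR i₀ j₀) h1
        have hsc : T N = (T N ⟨0, hn1⟩ ⟨0, hn1⟩) • 1 := by
          ext i j
          rw [Matrix.smul_apply, Matrix.one_apply]
          by_cases hij : i = j
          · subst hij
            rw [if_pos rfl]
            have h3 := hN1 (TR i i - TR ⟨0, hn1⟩ ⟨0, hn1⟩)
              (mem_union_right _ (mem_image.2 ⟨(i, ⟨0, hn1⟩), mem_univ _, rfl⟩))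
            have h4 : T N i i - T N ⟨0, hn1⟩ ⟨0, hn1⟩ = 0 := h3
            rw [smul_eq_mul, mul_one]
            exact sub_eq_zero.1 h4
          · rw [if_neg hij, smul_zero]
            exact hN1 (TR i j) (mem_union_left _ (mem_image.2 ⟨(i, j), mem_filter.2
              ⟨mem_univ _, hij⟩, rfl⟩))
        rcases hT N with h3 | h3
        · exact hN2 (by rw [hTR]; simp [h3])
        · exact h3.1 _ hsc
      · by_contra hcon2
        push Not at hcon2
        obtain ⟨htr, hcs⟩ := hcon2
        have htr' : π (∑ i, TR i i) ≠ 0 := by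
          intro h3
          apply htr
          rw [Matrix.trace]
          rw [map_sum] at h3
          exact h3
        obtain ⟨N, hN1, hN2⟩ := common π hz
          ((univ : Finset (Equiv.Perm (Fin (r + 1)))).image
            (fun σ => ∑ s : Fin (r + 1), αR (σ * (finRotate (r + 1)) ^ (s : ℕ)))) (by
          intro x hx
          obtain ⟨σ, -, rfl⟩ := mem_image.1 hx
          rw [map_sum]
          exact hcs σ) (∑ i, TR i i) htr'
        have hcsN : Cs (α N) := by
          intro σ
          have h3 := hN1 _ (mem_image.2 ⟨σ, mem_univ _, rfl⟩)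
          rw [Finset.sum_apply] at h3
          exact h3
        have htrN : (T N).trace ≠ 0 := by
          intro h3
          apply hN2
          rw [Finset.sum_apply]
          exact h3
        rcases hT N with h3 | h3
        · exact htrN (by rw [h3, Matrix.trace_zero])
        · rcases h3.2 with h4 | h4
          · exact htrN h4
          · exact h4 hcsN
  obtain ⟨N, hN⟩ := decM_transfer Kf π hπ hz αR TR key
  exact hD N hN

end Pool.Agent.P5f
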