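import Pool.Agent.Lib.P5f.FinA
import Pool.Agent.Lib.P5f.FinDec

/-!
# Finite fields: the final theorem
-/

open Finset Matrix

namespace Pool.Agent.P5f

open Pool.Agent.P5m Pool.Agent.P5q

universe u

variable {r : ℕ}

/-- Exponentials beat cubes. -/
theorem exp_cube (C : ℕ) : ∃ k₀ : ℕ, ∀ k ≥ k₀, C * k ^ 3 < 2 ^ k := by
  have h1 := isLittleO_pow_const_const_pow_of_one_lt (R := ℝ) 3 (by norm_num : (1 : ℝ) < 2)
  have h2 := h1.def (c := 1 / ((C : ℝ) + 1)) (by positivity)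
  obtain ⟨k₀, hk₀⟩ := Filter.eventually_atTop.1 h2
  refine ⟨k₀, fun k hk => ?_⟩
  have h3 := hk₀ k hk
  rw [Real.norm_of_nonneg (by positivity), Real.norm_of_nonneg (by positivity)] at h3
  have h4 : ((C : ℝ) + 1) * (k : ℝ) ^ 3 ≤ 2 ^ k := by
    have h5 : (0 : ℝ) < (C : ℝ) + 1 := by positivity
    rw [div_mul_eq_mul_div, one_mul, le_div_iff₀ h5] at h3
    linarith
  have h6 : (C + 1) * k ^ 3 ≤ 2 ^ k := by exact_mod_cast h4
  rcases Nat.eq_zero_or_pos k with rfl | hk0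
  · simp
  · have h7 : 0 < k ^ 3 := pow_pos hk0 3
    calc C * k ^ 3 < (C + 1) * k ^ 3 := Nat.mul_lt_mul_of_pos_right (Nat.lt_succ_self C) h7
      _ ≤ _ := h6

/-- The choice of the degrees of the two extension fields. -/
theorem degrees (p s₁ s₂ n τ : ℕ) (hp : p.Prime) (hs₁ : 0 < s₁) (hs₂ : 0 < s₂)
    (hps : ¬ p ∣ s₂) (hcop : s₁.Coprime s₂) (hτ : s₁ * (τ + 2 * s₂) + s₂ * τ ≤ n) :
    ∃ t₁ t₂ : ℕ, τ ≤ t₁ ∧ t₁ ≤ τ + 2 * s₂ ∧ τ ≤ t₂ ∧ ¬ p ∣ t₁ ∧ n = s₁ * t₁ + s₂ * t₂ := by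
  -- a residue
  obtain ⟨c, hcs, hc⟩ := Nat.exists_mul_mod_eq_of_coprime (n := s₁) (k := s₂)
    ((n + s₂ * s₁ * τ - s₁ * τ) % s₂) hcop hs₂.ne'
  -- candidates `τ + c` and `τ + c + s₂`
  have key : ∀ t, t = τ + c ∨ t = τ + c + s₂ → s₁ * t % s₂ = n % s₂ := by
    have h0 : s₁ * (τ + c) % s₂ = n % s₂ := by
      have h1 : s₁ * τ ≤ s₂ * s₁ * τ := by
        rw [mul_assoc]
        exact Nat.le_mul_of_pos_left _ hs₂
      have h2 : s₁ * c % s₂ = (n + s₂ * s₁ * τ - s₁ * τ) % s₂ := by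
        rw [hc, Nat.mod_mod]
      rw [mul_add, Nat.add_mod, h2, ← Nat.add_mod]
      rw [show s₁ * τ + (n + s₂ * s₁ * τ - s₁ * τ) = n + s₂ * (s₁ * τ) by
        rw [← mul_assoc]; omega, Nat.add_mul_mod_self_left]
    rintro t (rfl | rfl)
    · exact h0
    · rw [mul_add, mul_comm s₁ s₂, Nat.add_mul_mod_self_left, h0]
  obtain ⟨t, ht, hpt⟩ : ∃ t, (t = τ + c ∨ t = τ + c + s₂) ∧ ¬ p ∣ t := by
    by_cases h : p ∣ τ + c
    · refine ⟨τ + c + s₂, Or.inr rfl, fun h' => hps ?_⟩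
      exact (Nat.dvd_add_right h).1 h'
    · exact ⟨τ + c, Or.inl rfl, h⟩
  have ht1 : τ ≤ t := by rcases ht with h | h <;> omega
  have ht2 : t ≤ τ + 2 * s₂ := by rcases ht with h | h <;> omega
  have h3 : s₁ * t ≤ s₁ * (τ + 2 * s₂) := Nat.mul_le_mul_left _ ht2
  have h4 : s₁ * t ≤ n := by omega
  have h5 : s₂ ∣ n - s₁ * t := (Nat.modEq_iff_dvd' h4).1 (key t ht)
  obtain ⟨t₂, ht₂⟩ := h5
  refine ⟨t, t₂, ht1, ht2, ?_, hpt, by omega⟩
  by_contra hcon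
  rw [not_le] at hcon
  have h6 : s₂ * t₂ < s₂ * τ := Nat.mul_lt_mul_of_pos_left hcon hs₂
  omega

theorem fin_value (r : ℕ) (hr : 1 ≤ r) : ∃ N : ℕ, ∀ n ≥ N, ∀ (K : Type u) [Field K] [Finite K]
    (α : Equiv.Perm (Fin (r + 1)) → K), α 1 ≠ 0 → ∀ T : Matrix (Fin n) (Fin n) K,
      (∀ μ : K, T ≠ μ • 1) → (T.trace = 0 ∨ ¬ Cs α) →
        ∃ A : Fin (r + 1) → Matrix (Fin n) (Fin n) K, P5e96.mval α A = T := by
  classical
  obtain ⟨N₀, hN₀⟩ := fin_dec r hr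
  obtain ⟨P, hPcard, hP⟩ := exists_primes (max N₀ 3) 3
  -- bounds for the three sizes
  have hB : ∀ s : P, ∃ B : ℕ, ∀ (F : Type) [Field F],
      (Infinite F ∨ B ≤ Nat.card F) → ∀ α : Equiv.Perm (Fin (r + 1)) → F, α 1 ≠ 0 →
      ∀ T : Matrix (Fin (s : ℕ)) (Fin (s : ℕ)) F,
        (T = 0 ∨ ((∀ μ : F, T ≠ μ • 1) ∧ (T.trace = 0 ∨ ¬ Cs α))) → DecM α T := fun s =>
    hN₀ s (le_of_lt (lt_of_le_of_lt (le_max_left _ _) (hP s s.2).2))
  choose Bs hBs using hB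
  set B := univ.sup Bs with hBdef
  set S := P.sup id with hS
  have hSP : ∀ s ∈ P, s ≤ S := fun s hs => Finset.le_sup (f := id) hs
  have hS1 : 1 ≤ S := by
    obtain ⟨s, hs⟩ : P.Nonempty := Finset.card_pos.1 (by omega)
    exact le_trans (hP s hs).1.one_le (hSP s hs)
  -- the numerical condition
  set c := 4 * S * (2 * S + 5) with hc
  obtain ⟨k₀, hk₀⟩ := exp_cube (c ^ 2 * (1 + r * S ^ 2 + r * S))
  refine ⟨4 * S * (2 * S + 2 * (k₀ + B + 1)) + 8, fun n hn K _ _ α hα T hT hT0 => ?_⟩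
  set τ := n / (4 * S) - 2 * S with hτdef
  have h4S : 0 < 4 * S := by omega
  have hτ1 : 2 * (k₀ + B + 1) ≤ τ := by
    have h1 : 2 * S + 2 * (k₀ + B + 1) ≤ n / (4 * S) := by
      rw [Nat.le_div_iff_mul_le h4S, mul_comm]
      omega
    omega
  set k := τ / 2 with hk
  have hkk : k₀ + B + 1 ≤ k := by omega
  have hnk : n ≤ c * k := by
    have h1 : n < 4 * S * (n / (4 * S) + 1) := Nat.lt_mul_div_succ n h4S
    have h2 : n / (4 * S) + 1 ≤ (2 * S + 5) * k := by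
      have h3 : n / (4 * S) ≤ 2 * k + 1 + 2 * S := by omega
      have h4 : 2 * S ≤ 2 * S * k := Nat.le_mul_of_pos_right _ (by omega)
      have h5 : (2 * S + 5) * k = 2 * S * k + 5 * k := by ring
      omega
    have h3 : 4 * S * (n / (4 * S) + 1) ≤ 4 * S * ((2 * S + 5) * k) := Nat.mul_le_mul_left _ h2
    rw [hc, mul_assoc (4 * S)]
    omega
  have hnum : n * (1 + n * (r * S ^ 2) + r * (S * n)) < 2 ^ (τ / 2) := by
    have h1 : n * (1 + n * (r * S ^ 2) + r * (S * n)) ≤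
        c ^ 2 * (1 + r * S ^ 2 + r * S) * k ^ 3 := by
      rcases Nat.eq_zero_or_pos n with h0 | h0
      · rw [h0]; simp
      · have e1 : 1 + n * (r * S ^ 2) + r * (S * n) ≤ n * (1 + r * S ^ 2 + r * S) := by
          have e2 : n * (1 + r * S ^ 2 + r * S) = n + n * (r * S ^ 2) + r * (S * n) := by ring
          omega
        calc n * (1 + n * (r * S ^ 2) + r * (S * n)) ≤ n * (n * (1 + r * S ^ 2 + r * S)) :=
              Nat.mul_le_mul_left _ e1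
          _ = n * n * (1 + r * S ^ 2 + r * S) := by ring
          _ ≤ (c * k) * (c * k) * (1 + r * S ^ 2 + r * S) :=
              Nat.mul_le_mul_right _ (Nat.mul_le_mul hnk hnk)
          _ = c ^ 2 * (1 + r * S ^ 2 + r * S) * k ^ 2 := by ring
          _ ≤ c ^ 2 * (1 + r * S ^ 2 + r * S) * k ^ 3 :=
              Nat.mul_le_mul_left _ (Nat.pow_le_pow_right (by omega) (by omega))
    exact lt_of_le_of_lt h1 (hk₀ k (by omega))
  -- the characteristic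
  obtain ⟨p, hpK⟩ := CharP.exists K
  have hp : p.Prime := CharP.char_is_prime K p
  have := Fact.mk hp
  obtain ⟨s₁, hs₁, s₂, hs₂, hne⟩ : ∃ s₁ ∈ P.erase p, ∃ s₂ ∈ P.erase p, s₁ ≠ s₂ := by
    have h1 := Finset.pred_card_le_card_erase (s := P) (a := p)
    exact Finset.one_lt_card.1 (by omega)
  have hs₁P := mem_of_mem_erase hs₁
  have hs₂P := mem_of_mem_erase hs₂
  have hprime₁ := (hP s₁ hs₁P).1
  have hprime₂ := (hP s₂ hs₂P).1
  have hps₁ : ¬ p ∣ s₁ := fun h =>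
    ne_of_mem_erase hs₁ ((Nat.prime_dvd_prime_iff_eq hp hprime₁).1 h).symm
  have hps₂ : ¬ p ∣ s₂ := fun h =>
    ne_of_mem_erase hs₂ ((Nat.prime_dvd_prime_iff_eq hp hprime₂).1 h).symm
  have hcop : s₁.Coprime s₂ := (Nat.coprime_primes hprime₁ hprime₂).2 hne
  have h31 : 3 ≤ s₁ := le_of_lt (lt_of_le_of_lt (le_max_right _ _) (hP s₁ hs₁P).2)
  have h32 : 3 ≤ s₂ := le_of_lt (lt_of_le_of_lt (le_max_right _ _) (hP s₂ hs₂P).2)
  have hS1' := hSP s₁ hs₁P
  have hS2' := hSP s₂ hs₂P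
  have hnS : 4 * S * (τ + 2 * S) ≤ n := by
    have h1 : τ + 2 * S = n / (4 * S) := by
      have : 2 * S ≤ n / (4 * S) := by
        rw [Nat.le_div_iff_mul_le h4S, mul_comm]
        have e1 : 4 * S * (2 * S + 2 * (k₀ + B + 1)) =
          4 * S * (2 * S) + 4 * S * (2 * (k₀ + B + 1)) := by ring
        omega
      omega
    rw [h1]
    exact Nat.mul_div_le n (4 * S)
  have hb1 : s₁ * (τ + 2 * s₂) ≤ S * (τ + 2 * S) := Nat.mul_le_mul hS1' (by omega)
  have hb2 : s₂ * τ ≤ S * (τ + 2 * S) := Nat.mul_le_mul hS2' (by omega)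
  obtain ⟨t₁, t₂, ht₁, ht₁', ht₂, hpt₁, hn12⟩ := degrees p s₁ s₂ n τ hp (by omega) (by omega) hps₂
    hcop (by
      have : 4 * S * (τ + 2 * S) = 4 * (S * (τ + 2 * S)) := by ring
      omega)
  have hs1t1 : s₁ * t₁ ≤ S * (τ + 2 * S) := Nat.mul_le_mul hS1' (by omega)
  have ht₁pos : 1 ≤ t₁ := by omega
  have ht₂pos : 1 ≤ t₂ := by omega
  have : NeZero t₁ := ⟨by omega⟩
  have : NeZero t₂ := ⟨by omega⟩
  -- the fields
  let E₁ : FE K := ⟨FiniteField.Extension K p t₁, inferInstance, inferInstance, inferInstance⟩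
  let E₂ : FE K := ⟨FiniteField.Extension K p t₂, inferInstance, inferInstance, inferInstance⟩
  have hE₁ : Module.finrank K E₁.E = t₁ := FiniteField.finrank_extension K p t₁
  have hE₂ : Module.finrank K E₂.E = t₂ := FiniteField.finrank_extension K p t₂
  have hcardE : ∀ t, τ ≤ t → B ≤ Nat.card K ^ t := by
    intro t ht
    have h1 : B ≤ 2 ^ t := le_trans (by omega : B ≤ t) (Nat.lt_two_pow_self).le
    exact le_trans h1 (Nat.pow_le_pow_left Finite.one_lt_card t)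
  have hdec₁ : ∀ T₀ : Matrix (Fin s₁) (Fin s₁) E₁.E,
      (T₀ = 0 ∨ ((∀ μ : E₁.E, T₀ ≠ μ • 1) ∧ (T₀.trace = 0 ∨ ¬ Cs (ext E₁.E α)))) →
        DecM (ext E₁.E α) T₀ := by
    intro T₀ h0
    refine hBs ⟨s₁, hs₁P⟩ E₁.E (Or.inr ?_) (ext E₁.E α) ((map_ne_zero _).2 hα) T₀ h0
    rw [FiniteField.natCard_extension K p t₁]
    exact le_trans (Finset.le_sup (f := Bs) (mem_univ _)) (hcardE t₁ ht₁)
  have hdec₂ : ∀ T₀ : Matrix (Fin s₂) (Fin s₂) E₂.E,
      (T₀ = 0 ∨ ((∀ μ : E₂.E, T₀ ≠ μ • 1) ∧ (T₀.trace = 0 ∨ ¬ Cs (ext E₂.E α)))) →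
        DecM (ext E₂.E α) T₀ := by
    intro T₀ h0
    refine hBs ⟨s₂, hs₂P⟩ E₂.E (Or.inr ?_) (ext E₂.E α) ((map_ne_zero _).2 hα) T₀ h0
    rw [FiniteField.natCard_extension K p t₂]
    exact le_trans (Finset.le_sup (f := Bs) (mem_univ _)) (hcardE t₂ ht₂)
  -- peeling
  set TL := Matrix.toLin' T with hTL
  have hTLs : ∀ μ : K, TL ≠ μ • LinearMap.id := by
    intro μ h
    refine hT μ (Matrix.toLin'.injective ?_)
    rw [← hTL, h, map_smul, Matrix.toLin'_one]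
  have hfr : Module.finrank K (Fin n → K) = n := by simp
  have hs1pos : 1 ≤ s₁ * t₁ := Nat.mul_pos (by omega) (by omega)
  obtain ⟨μ, hμ⟩ := peel TL hTLs (s₁ * t₁) hs1pos (by
    rw [hfr]
    have : 4 * S * (τ + 2 * S) = 4 * (S * (τ + 2 * S)) := by ring
    have h8 : 2 ≤ S * (τ + 2 * S) := by
      have : 1 * 2 ≤ S * (τ + 2 * S) := Nat.mul_le_mul hS1 (by omega)
      omega
    omega)
  have hF1 : ∀ d : K, (∑ i, pd (s₁ * t₁) d μ i = 0 ∨ (¬ Cs α ∧ d ≠ μ)) →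
      FDec α (LinearMap.pi fun i => pd (s₁ * t₁) d μ i • LinearMap.proj i :
        (Fin (s₁ * t₁) → K) →ₗ[K] (Fin (s₁ * t₁) → K)) τ S := by
    intro d hd
    have htrace : LinearMap.trace K (Fin (s₁ * t₁) → K)
        (LinearMap.pi fun i => pd (s₁ * t₁) d μ i • LinearMap.proj i) =
        ∑ i, pd (s₁ * t₁) d μ i := by
      have h1 : (LinearMap.pi fun i => pd (s₁ * t₁) d μ i • LinearMap.proj i :
          (Fin (s₁ * t₁) → K) →ₗ[K] (Fin (s₁ * t₁) → K)) =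
          Matrix.toLin' (diagonal (pd (s₁ * t₁) d μ)) := by
        ext i j
        simp [Matrix.toLin'_apply, Matrix.mulVec_diagonal]
      rw [h1, Matrix.trace_toLin'_eq, Matrix.trace_diagonal]
    by_cases hdμ : d = μ
    · have hsum : ∑ i, pd (s₁ * t₁) d μ i = 0 := by
        rcases hd with h | h
        · exact h
        · exact absurd hdμ h.2
      have hμ0 : μ = 0 := by
        rw [sum_pd _ hs1pos, hdμ] at hsum
        have h1 : ((s₁ * t₁ : ℕ) : K) * μ = 0 := by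
          rw [← hsum]; ring
        rcases mul_eq_zero.1 h1 with h2 | h2
        · rw [CharP.cast_eq_zero_iff K p] at h2
          rcases (Nat.Prime.dvd_mul hp).1 h2 with h3 | h3
          · exact absurd h3 hps₁
          · exact absurd h3 hpt₁
        · exact h2
      have h0 : (LinearMap.pi fun i => pd (s₁ * t₁) d μ i • LinearMap.proj i :
          (Fin (s₁ * t₁) → K) →ₗ[K] (Fin (s₁ * t₁) → K)) = 0 := by
        ext i j
        simp [pd, hdμ, hμ0]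
      rw [h0]
      refine fdec_zero α E₁ s₁ (hdec₁ 0 (Or.inl rfl)) ?_ τ S (by rw [hE₁]; exact ht₁) hS1'
      rw [hE₁]; simp
    · refine fdec_nonscalar α E₁ s₁ h31 hdec₁ _ ?_ (by rw [hE₁]; simp) ?_ τ S
        (by rw [hE₁]; exact ht₁) hS1'
      · intro ν hν
        have h2 : 2 ≤ s₁ * t₁ := le_trans (by omega : 2 ≤ s₁) (Nat.le_mul_of_pos_right _ ht₁pos)
        have e0 := congrArg (fun f : (Fin (s₁ * t₁) → K) →ₗ[K] (Fin (s₁ * t₁) → K) =>
          f (Pi.single ⟨0, by omega⟩ 1) ⟨0, by omega⟩) hν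
        have e1 := congrArg (fun f : (Fin (s₁ * t₁) → K) →ₗ[K] (Fin (s₁ * t₁) → K) =>
          f (Pi.single ⟨1, by omega⟩ 1) ⟨1, by omega⟩) hν
        simp [pd] at e0 e1
        exact hdμ (e0.trans e1.symm)
      · rw [htrace]
        rcases hd with h | h
        · exact Or.inl h
        · exact Or.inr h.1
  -- the two cases
  have hfd : FDec α TL τ S := by
    by_cases hcs : Cs α
    · have hT0' : T.trace = 0 := hT0.resolve_right (fun h => h hcs)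
      obtain ⟨v, W, T', hv, hW, h1, h2, hT'⟩ := hμ (-(((s₁ * t₁ : ℕ) : K) - 1) * μ)
      have hsum : ∑ i, pd (s₁ * t₁) (-(((s₁ * t₁ : ℕ) : K) - 1) * μ) μ i = 0 := by
        rw [sum_pd _ hs1pos]; ring
      refine fdec_peel α TL _ v W T' hv hW h1 h2 τ S (hF1 _ (Or.inl hsum)) ?_
      refine fdec_nonscalar α E₂ s₂ h32 hdec₂ T' hT' ?_ (Or.inl ?_) τ S
        (by rw [hE₂]; exact ht₂) hS2'
      · rw [hE₂]
        have h3 := Submodule.finrank_add_eq_of_isCompl hW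
        rw [finrank_span_eq_card hv, Fintype.card_fin, hfr] at h3
        omega
      · have h4 := trace_peel TL _ μ v W T' hv hW h1 h2
        rw [hTL, Matrix.trace_toLin'_eq, hT0', hsum, zero_add] at h4
        exact h4.symm
    · obtain ⟨v, W, T', hv, hW, h1, h2, hT'⟩ := hμ (μ + 1)
      refine fdec_peel α TL _ v W T' hv hW h1 h2 τ S
        (hF1 _ (Or.inr ⟨hcs, fun h => one_ne_zero (add_eq_left.1 h)⟩)) ?_
      refine fdec_nonscalar α E₂ s₂ h32 hdec₂ T' hT' ?_ (Or.inr hcs) τ S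
        (by rw [hE₂]; exact ht₂) hS2'
      rw [hE₂]
      have h3 := Submodule.finrank_add_eq_of_isCompl hW
      rw [finrank_span_eq_card hv, Fintype.card_fin, hfr] at h3
      omega
  exact mval_of_lval α T (value_of_fdec α TL τ S hfd (by rw [hfr]; exact hnum))

end Pool.Agent.P5f
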