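import Pool.Agent.Lib.P5f.CardB

/-!
# Blocks off the diagonal

GOAL: `off_bad` : for all but few scalars `S` the operator of the block is surjective.

NOTATION: `mv K M` is multiplication by the matrix `M` over `E` as a `K`-linear map, `Lop` is the linear
operator in the variable `0` (see `Pool/Agent/Lib/P5f/Defs.lean`); `P5e96.preL σ`, `P5e96.postL σ` are the lists
of the other variables before and after the variable `0` in the word `σ`, of lengths `σ.symm 0` and
`r - σ.symm 0` (`P5e96.length_preL`, `P5e96.length_postL` in `Pool/Agent/Lib/P5e96/Block.lean`).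

PROOF (complete).  Let `H = (Fin m' → F) →ₗ[K] (Fin m → E)`.  It is a vector space over `E` (action on the
values) of dimension `(m' * finrank K F) * m` (`Module.finrank_linearMap` :
`finrank S (M →ₗ[R] N) = finrank R M * finrank S N`, `Module.finrank_mul_finrank`-type lemma for
`finrank K (Fin m' → F)`).  For a word `σ` put
`N σ : H →ₗ[E] H`, `N σ X = α σ • (mv K P ∘ₗ X ∘ₗ mv K Q)` with `P = ((preL σ).map C).prod` and
`Q = ((postL σ).map (fun q => S' • C' q)).prod` (matrices); it is `E`-linear because a matrix over `E`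
commutes with the scalars of `E`.
(1) `((preL σ).map fun q => mv K (S • C q)).prod = mv K (S ^ (σ.symm 0) • P)` : the map `mv K` is
multiplicative (`mv K (M * M') = mv K M ∘ₗ mv K M'`, so it commutes with list products) and
`(l.map fun q => S • C q).prod = S ^ l.length • (l.map C).prod` (induction).
So `Lop α (fun q => mv K (S • C q)) (fun q => mv K (S' • C' q)) X = ∑ σ, S ^ (σ.symm 0 : ℕ) • N σ X`.
(2) At `S = 0` only the words with `σ 0 = 0` contribute: there `preL σ = []`, and
`postL σ = tailList σ` (see `P5e96.pencil_zero` in `Pool/Agent/Lib/P5e96/Block.lean`), and the operator is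
`X ↦ X ∘ₗ mv K (∑ σ with σ 0 = 0, algebraMap K F (α σ) • ((tailList σ).map (S' • C')).prod)`
`  = X ∘ₗ mv K (S' ^ r • gmat (ext F α) C')`.
(The list `tailList σ` has length `r`.)  The matrix `gmat (ext F α) C'` is invertible by `hC'` (see
`Pool.Agent.P5m.isUnit_of_mul_inj` in `Pool/Agent/Lib/P5m/Att.lean`) and `S' ≠ 0`, so the operator at `0` is
injective (compose with the inverse).
(3) Apply `card_bad` with `e σ = (σ.symm 0 : ℕ) ≤ r`.
-/

open Finset Matrix

namespace Pool.Agent.P5f

open Pool.Agent.P5m Pool.Agent.P5q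

namespace OffDAux

variable {K E F : Type*} [Field K] [Field E] [Field F] [Algebra K E] [Algebra K F]

theorem mv_apply {m m' : ℕ} (M : Matrix (Fin m) (Fin m') E) (x : Fin m' → E) :
    mv K M x = M *ᵥ x := rfl

theorem mv_mul {m : ℕ} (M M' : Matrix (Fin m) (Fin m) E) :
    (mv K (M * M') : Module.End K (Fin m → E)) = mv K M * mv K M' := by
  refine LinearMap.ext fun x => ?_
  rw [Module.End.mul_apply, mv_apply, mv_apply, mv_apply, Matrix.mulVec_mulVec]

theorem mv_prod {m : ℕ} (M : ℕ → Matrix (Fin m) (Fin m) E) (l : List ℕ) :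
    (l.map fun q => (mv K (M q) : Module.End K (Fin m → E))).prod = mv K (l.map M).prod := by
  induction l with
  | nil =>
    refine LinearMap.ext fun x => ?_
    rw [List.map_nil, List.map_nil, List.prod_nil, List.prod_nil, Module.End.one_apply, mv_apply,
      Matrix.one_mulVec]
  | cons q l ih =>
    rw [List.map_cons, List.map_cons, List.prod_cons, List.prod_cons, ih, mv_mul]

theorem smul_prod {m : ℕ} (S : E) (C : ℕ → Matrix (Fin m) (Fin m) E) (l : List ℕ) :
    (l.map fun q => S • C q).prod = S ^ l.length • (l.map C).prod := by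
  induction l with
  | nil => simp
  | cons q l ih =>
    rw [List.map_cons, List.map_cons, List.prod_cons, List.prod_cons, ih, List.length_cons,
      smul_mul_smul_comm, pow_succ']

/-- the operator of a word -/
noncomputable def Nop {r : ℕ} (α : Equiv.Perm (Fin (r + 1)) → K) {m m' : ℕ}
    (C : ℕ → Matrix (Fin m) (Fin m) E) (C' : ℕ → Matrix (Fin m') (Fin m') F)
    (σ : Equiv.Perm (Fin (r + 1))) :
    ((Fin m' → F) →ₗ[K] (Fin m → E)) →ₗ[E] ((Fin m' → F) →ₗ[K] (Fin m → E)) where
  toFun X := α σ • (mv K ((P5e96.preL σ).map C).prod ∘ₗ X ∘ₗ mv K ((P5e96.postL σ).map C').prod)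
  map_add' X Y := by
    rw [LinearMap.add_comp, LinearMap.comp_add, smul_add]
  map_smul' s X := by
    refine LinearMap.ext fun x => ?_
    simp only [LinearMap.smul_apply, LinearMap.comp_apply, RingHom.id_apply, mv_apply,
      Matrix.mulVec_smul]
    rw [smul_comm]

theorem Nop_apply {r : ℕ} (α : Equiv.Perm (Fin (r + 1)) → K) {m m' : ℕ}
    (C : ℕ → Matrix (Fin m) (Fin m) E) (C' : ℕ → Matrix (Fin m') (Fin m') F)
    (σ : Equiv.Perm (Fin (r + 1))) (X : (Fin m' → F) →ₗ[K] (Fin m → E)) (x : Fin m' → F) :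
    Nop α C C' σ X x = α σ • (((P5e96.preL σ).map C).prod *ᵥ
      X (((P5e96.postL σ).map C').prod *ᵥ x)) := rfl

theorem lop_eq {r : ℕ} (α : Equiv.Perm (Fin (r + 1)) → K) {m m' : ℕ}
    (C : ℕ → Matrix (Fin m) (Fin m) E) (C' : ℕ → Matrix (Fin m') (Fin m') F) (S : E)
    (X : (Fin m' → F) →ₗ[K] (Fin m → E)) :
    Lop α (fun q => mv K (S • C q)) (fun q => mv K (C' q)) X =
      (∑ σ : Equiv.Perm (Fin (r + 1)), S ^ ((σ.symm 0 : Fin (r + 1)) : ℕ) • Nop α C C' σ) X := by
  rw [Lop, LinearMap.sum_apply]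
  refine Finset.sum_congr rfl fun σ _ => ?_
  rw [mv_prod (fun q => S • C q), mv_prod C', smul_prod, P5e96.length_preL]
  refine LinearMap.ext fun x => ?_
  rw [LinearMap.smul_apply, LinearMap.comp_apply, LinearMap.comp_apply, LinearMap.smul_apply,
    LinearMap.smul_apply, Nop_apply, mv_apply, mv_apply, Matrix.smul_mulVec, smul_comm]

theorem length_tail {r : ℕ} (σ : Equiv.Perm (Fin (r + 1))) : (P5e96.tailList σ).length = r := by
  rw [P5e96.tailList, List.length_ofFn]

theorem pencil {r : ℕ} (α : Equiv.Perm (Fin (r + 1)) → K) {m m' : ℕ}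
    (C : ℕ → Matrix (Fin m) (Fin m) E) (C' : ℕ → Matrix (Fin m') (Fin m') F) (S' : F)
    (X : (Fin m' → F) →ₗ[K] (Fin m → E)) (x : Fin m' → F) :
    (∑ σ : Equiv.Perm (Fin (r + 1)), (0 : E) ^ ((σ.symm 0 : Fin (r + 1)) : ℕ) •
      Nop α C (fun q => S' • C' q) σ) X x =
      X ((S' ^ r • P5e96.gmat (ext F α) C') *ᵥ x) := by
  have h0 : (S' ^ r • P5e96.gmat (ext F α) C') *ᵥ x =
      ∑ σ : Equiv.Perm (Fin (r + 1)), if σ 0 = 0 then
        α σ • (((P5e96.tailList σ).map fun q => S' • C' q).prod *ᵥ x) else 0 := by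
    rw [P5e96.gmat, Finset.smul_sum, Matrix.sum_mulVec]
    refine Finset.sum_congr rfl fun σ _ => ?_
    split_ifs with h
    · rw [smul_prod, length_tail, ext, algebraMap_smul, smul_comm, Matrix.smul_mulVec]
    · rw [smul_zero, Matrix.zero_mulVec]
  rw [h0, map_sum, LinearMap.sum_apply, LinearMap.sum_apply]
  refine Finset.sum_congr rfl fun σ _ => ?_
  rw [LinearMap.smul_apply, LinearMap.smul_apply, Nop_apply]
  by_cases h : σ 0 = 0
  · have h1 : σ.symm 0 = 0 := by rw [Equiv.symm_apply_eq]; exact h.symm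
    have h2 : P5e96.preL σ = [] := by rw [P5e96.preL, h1]; rfl
    have h3 : P5e96.postL σ = P5e96.tailList σ := by
      rw [P5e96.postL, h1, P5e96.fullList, P5e96.tailList, List.ofFn_succ]
      rfl
    rw [if_pos h, h1, h2, h3, List.map_nil, List.prod_nil, Matrix.one_mulVec, Fin.val_zero,
      pow_zero, one_smul, map_smul]
  · have h1 : ((σ.symm 0 : Fin (r + 1)) : ℕ) ≠ 0 := by
      intro h2
      apply h
      have h3 : σ.symm 0 = 0 := Fin.ext h2
      rw [Equiv.symm_apply_eq] at h3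
      exact h3.symm
    rw [if_neg h, zero_pow h1, zero_smul, map_zero]

end OffDAux

open OffDAux

theorem off_bad {r : ℕ} {K E F : Type*} [Field K] [Field E] [Field F] [Algebra K E] [Algebra K F]
    [FiniteDimensional K E] [FiniteDimensional K F] (α : Equiv.Perm (Fin (r + 1)) → K) (m m' : ℕ)
    (C : ℕ → Matrix (Fin m) (Fin m) E) (C' : ℕ → Matrix (Fin m') (Fin m') F)
    (hC' : ∀ Y : Matrix (Fin m') (Fin m') F, Y * P5e96.gmat (ext F α) C' = 0 → Y = 0)
    (S' : F) (hS' : S' ≠ 0) :
    {S : E | ¬ ∀ R : (Fin m' → F) →ₗ[K] (Fin m → E), ∃ X : (Fin m' → F) →ₗ[K] (Fin m → E),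
      Lop α (fun q => mv K (S • C q)) (fun q => mv K (S' • C' q)) X = R}.Finite ∧
    {S : E | ¬ ∀ R : (Fin m' → F) →ₗ[K] (Fin m → E), ∃ X : (Fin m' → F) →ₗ[K] (Fin m → E),
      Lop α (fun q => mv K (S • C q)) (fun q => mv K (S' • C' q)) X = R}.ncard ≤
      r * (m * (m' * Module.finrank K F)) := by
  have hset : {S : E | ¬ ∀ R : (Fin m' → F) →ₗ[K] (Fin m → E),
      ∃ X : (Fin m' → F) →ₗ[K] (Fin m → E),
      Lop α (fun q => mv K (S • C q)) (fun q => mv K (S' • C' q)) X = R} =
      {S : E | ¬ Function.Surjective (∑ σ : Equiv.Perm (Fin (r + 1)),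
        S ^ ((σ.symm 0 : Fin (r + 1)) : ℕ) • Nop α C (fun q => S' • C' q) σ :
          ((Fin m' → F) →ₗ[K] (Fin m → E)) →ₗ[E] ((Fin m' → F) →ₗ[K] (Fin m → E)))} := by
    ext S
    rw [Set.mem_ofPred_eq, Set.mem_ofPred_eq, not_iff_not]
    constructor
    · intro h R
      obtain ⟨X, hX⟩ := h R
      exact ⟨X, by rw [← lop_eq]; exact hX⟩
    · intro h R
      obtain ⟨X, hX⟩ := h R
      exact ⟨X, by rw [lop_eq α C (fun q => S' • C' q) S X]; exact hX⟩
  have hdim : Module.finrank E ((Fin m' → F) →ₗ[K] (Fin m → E)) = m * (m' * Module.finrank K F) := by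
    rw [Module.finrank_linearMap, Module.finrank_pi_fintype, Finset.sum_const, Finset.card_univ,
      Fintype.card_fin, smul_eq_mul, Module.finrank_fin_fun, mul_comm]
  obtain ⟨G', hG'⟩ := (isUnit_of_mul_inj _ hC').exists_right_inv
  have h := card_bad (Nop α C (fun q => S' • C' q))
    (fun σ : Equiv.Perm (Fin (r + 1)) => ((σ.symm 0 : Fin (r + 1)) : ℕ)) r
    (fun σ => Nat.lt_succ_iff.1 (σ.symm 0).2) (by
      rw [injective_iff_map_eq_zero]
      intro X hX
      refine LinearMap.ext fun x => ?_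
      have h1 := pencil α C C' S' X (((S' ^ r)⁻¹ • G') *ᵥ x)
      rw [hX, LinearMap.zero_apply, Matrix.mulVec_mulVec, Matrix.smul_mul, Matrix.mul_smul, hG',
        smul_smul, mul_inv_cancel₀ (pow_ne_zero r hS'), one_smul, Matrix.one_mulVec] at h1
      rw [← h1, LinearMap.zero_apply])
  rw [hdim] at h
  rw [hset]
  exact h

end Pool.Agent.P5f
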